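import Pool.Agent.Run7.h702.AT.D
import Pool.Agent.R344.TH.G
import Pool.Agent.H499R2.NDFinal

/-! All the terms of almost every trajectory of the Collatz map `n / 2`, `3 n + 1`. -/

set_option autoImplicit false

namespace Run7.h702.AT

open Finset Filter Topology
open Pool.Agent.R344.TH
open Run7.h702.CL

theorem RC.congr {A A' : Set ℤ} {z γ : ℝ} {E : ℕ} (h : RC A' z γ E) (hA : ∀ x : ℤ, z ≤ x → x ∈ A → x ∈ A') :
    RC A z γ E := by
  intro X hX j hj e he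
  refine le_trans ?_ (h X hX j hj e he)
  have : fC A z X j e ⊆ fC A' z X j e := by
    intro x hx
    rw [mem_fC] at hx ⊢
    exact ⟨⟨hx.1.1, hA x hx.1.1.1 hx.1.2⟩, hx.2⟩
  exact_mod_cast card_le_card this

theorem hal_UA (Q : ℤ → Prop) (U : ℕ) {x : ℤ} (hx : 2 ^ (U + 1) ≤ Real.log x) (hx1 : (1 : ℝ) ≤ x)
    (h : x ∈ hal (UA Q U)) : x ∈ UA Q (U + 1) := by
  have h1 : (1 : ℝ) ≤ Real.log x := by
    have : (1 : ℝ) ≤ 2 ^ (U + 1) := one_le_pow₀ (by norm_num)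
    linarith
  rcases h with ⟨u, hu1, hu2, hu3⟩ | ⟨u, hu1, hu2, hu3⟩
  · exact ⟨u, hu1, hu2.trans (pow_le_pow_right₀ h1 (by omega)), hu3⟩
  · refine ⟨u * 2, by omega, ?_, by rwa [mul_assoc]⟩
    rw [Int.natAbs_mul]
    push_cast
    have h2 : Real.log ((2 * x : ℤ) : ℝ) ≤ 2 * Real.log x := by
      push_cast
      rw [Real.log_mul (by norm_num) (by linarith)]
      have := Real.log_two_lt_d9
      linarith
    have h3 : (0 : ℝ) ≤ Real.log ((2 * x : ℤ) : ℝ) := by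
      apply Real.log_nonneg
      push_cast
      linarith
    calc (u.natAbs : ℝ) * 2 ≤ (2 * Real.log x) ^ U * 2 := by
          apply mul_le_mul_of_nonneg_right _ (by norm_num)
          exact hu2.trans (pow_le_pow_left₀ h3 h2 U)
      _ = Real.log x ^ U * 2 ^ (U + 1) := by rw [mul_pow, pow_succ]; ring
      _ ≤ Real.log x ^ U * Real.log x := mul_le_mul_of_nonneg_left hx (by positivity)
      _ = _ := by rw [pow_succ]

open scoped Classical in
/-- **All the terms of almost every trajectory of the map `x / 2`, `3 x + d`.** -/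
theorem all_terms_Cz {d : ℤ} (hd : Odd d) (hd3 : IsCoprime d 3) {θ : ℝ} (hθ0 : 0 < θ) {Q : ℤ → Prop} {g : ℤ → ℤ}
    {G : ℕ}
    (hg : ∀ (u : ℤ) (s m : ℕ), Nat.Coprime s m → Int.gcd (g (u * s)) ((u.natAbs * m : ℕ) : ℤ) ≤ G * u.natAbs)
    (hQ : Few θ g (fun _ c => ¬ Q c)) (B U : ℕ) :
    ∃ K : ℝ, 0 < K ∧ ∀ Y : ℝ, 2 ≤ Y → ∀ N : ℕ,
      (((Icc (1 : ℤ) N).filter (fun n => ∃ k : ℕ, (Cz d)^[k] n ∈ UA Q U ∧
        ∀ j ≤ k, Y ≤ (((Cz d)^[j] n : ℤ) : ℝ))).card : ℝ) ≤ K * N / Real.log Y ^ B := by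
  obtain ⟨z₀, hz₀, hRC⟩ := few_RC hθ0 hg hQ (B + 4) (U + 1)
  obtain ⟨l₀, K, hl₀, hK, hH⟩ := HY_countC hd hd3 (γ := 1 / 2) (by norm_num) (by norm_num) B
  obtain ⟨L, hL⟩ : ∃ L : ℝ, L = max (max l₀ (2 ^ (U + 1))) (max (Real.log z₀) |(d : ℝ)|) := ⟨_, rfl⟩
  have hL1 : l₀ ≤ L := by rw [hL]; exact (le_max_left _ _).trans (le_max_left _ _)
  have hL2 : 2 ^ (U + 1) ≤ L := by rw [hL]; exact (le_max_right _ _).trans (le_max_left _ _)
  have hL3 : Real.log z₀ ≤ L := by rw [hL]; exact (le_max_left _ _).trans (le_max_right _ _)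
  have hL4 : |(d : ℝ)| ≤ L := by rw [hL]; exact (le_max_right _ _).trans (le_max_right _ _)
  have hL0 : 0 < L := lt_of_lt_of_le (by positivity) hL2
  refine ⟨max K (L ^ B), by positivity, ?_⟩
  intro Y hY N
  have hlog : 0 < Real.log Y := Real.log_pos (by linarith)
  have hN0 : (0 : ℝ) ≤ N := Nat.cast_nonneg N
  rcases le_or_gt L (Real.log Y) with hc | hc
  · have hzY : z₀ ≤ Y := (Real.log_le_log_iff (by linarith) (by linarith)).1 (hL3.trans hc)
    have hRC' : RC (hal (UA Q U)) Y (1 / 2) (B + 4) := by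
      refine (hRC.mono hzY).congr ?_
      intro x hx1 hx2
      apply hal_UA Q U _ (by linarith) hx2
      exact (hL2.trans hc).trans (Real.log_le_log (by linarith) hx1)
    have h1 := hH Y (by linarith) (hL1.trans hc) (hal (UA Q U)) hRC' N
    have hdY : |(d : ℝ)| ≤ Y := by
      have h2 : |(d : ℝ)| ≤ Real.log Y := hL4.trans hc
      have h3 := Real.add_one_le_exp (Real.log Y)
      rw [Real.exp_log (by linarith)] at h3
      linarith
    have h2 : (((Icc (1 : ℤ) N).filter (fun n => ∃ k : ℕ, (Cz d)^[k] n ∈ UA Q U ∧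
        ∀ j ≤ k, Y ≤ (((Cz d)^[j] n : ℤ) : ℝ))).card : ℝ)
        ≤ (((Icc (1 : ℤ) N).filter (fun n => n ∈ HY d (hal (UA Q U)) Y)).card : ℝ) := by
      have : (Icc (1 : ℤ) N).filter (fun n => ∃ k : ℕ, (Cz d)^[k] n ∈ UA Q U ∧
        ∀ j ≤ k, Y ≤ (((Cz d)^[j] n : ℤ) : ℝ)) ⊆
          (Icc (1 : ℤ) N).filter (fun n => n ∈ HY d (hal (UA Q U)) Y) := by
        intro x hx
        rw [mem_filter] at hx ⊢
        obtain ⟨hx1, k, hx2, hx3⟩ := hx
        exact ⟨hx1, meets_hal (Int.odd_iff.1 hd) hdY k x hx2 hx3⟩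
      exact_mod_cast card_le_card this
    refine h2.trans (h1.trans ?_)
    apply div_le_div_of_nonneg_right _ (by positivity)
    exact mul_le_mul_of_nonneg_right (le_max_left _ _) hN0
  · have h1 : (((Icc (1 : ℤ) N).filter (fun n => ∃ k : ℕ, (Cz d)^[k] n ∈ UA Q U ∧
        ∀ j ≤ k, Y ≤ (((Cz d)^[j] n : ℤ) : ℝ))).card : ℝ) ≤ N := by
      have : ((Icc (1 : ℤ) N).filter (fun n => ∃ k : ℕ, (Cz d)^[k] n ∈ UA Q U ∧
        ∀ j ≤ k, Y ≤ (((Cz d)^[j] n : ℤ) : ℝ))).card ≤ N := by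
        refine (card_filter_le _ _).trans ?_
        rw [Int.card_Icc]; omega
      exact_mod_cast this
    refine h1.trans ?_
    rw [le_div_iff₀ (by positivity), mul_comm]
    apply mul_le_mul_of_nonneg_right _ hN0
    exact (pow_le_pow_left₀ hlog.le hc.le B).trans (le_max_right _ _)

/-- the Collatz map -/
def col (n : ℕ) : ℕ := if n % 2 = 0 then n / 2 else 3 * n + 1

theorem col_Cz (n : ℕ) : ∀ k : ℕ, (((col^[k] n : ℕ)) : ℤ) = (Cz 1)^[k] n
  | 0 => rfl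
  | k + 1 => by
    rw [Function.iterate_succ_apply', Function.iterate_succ_apply', ← col_Cz n k]
    unfold col Cz
    split_ifs with h1 h2 h2
    · omega
    · omega
    · omega
    · push_cast; ring

/-- The trajectory of `n` takes a value smaller than `Y`, and all its terms `a` before the first such value and all their
multiples `u a`, `0 < |u| ≤ (log a) ^ U`, have the property `Q`. -/
def Done (Q : ℤ → Prop) (U : ℕ) (Y : ℝ) (n : ℕ) : Prop :=
  ∃ k : ℕ, ((col^[k] n : ℕ) : ℝ) < Y ∧ ∀ j < k, ∀ u : ℤ, u ≠ 0 → (u.natAbs : ℝ) ≤ Real.log (col^[j] n : ℕ) ^ U →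
    Q (u * (col^[j] n : ℕ))

theorem not_done {Q : ℤ → Prop} {U : ℕ} {Y : ℝ} {n : ℕ} (h : ¬ Done Q U Y n) :
    (∀ k : ℕ, Y ≤ ((col^[k] n : ℕ) : ℝ)) ∨ ∃ k : ℕ, (Cz 1)^[k] (n : ℤ) ∈ UA Q U ∧
      ∀ j ≤ k, Y ≤ (((Cz 1)^[j] (n : ℤ) : ℤ) : ℝ) := by
  classical
  by_cases h1 : ∀ k : ℕ, Y ≤ ((col^[k] n : ℕ) : ℝ)
  · exact Or.inl h1
  · right
    push Not at h1
    have hk := Nat.find_spec h1
    have hmin : ∀ j < Nat.find h1, Y ≤ ((col^[j] n : ℕ) : ℝ) := fun j hj => not_lt.1 (Nat.find_min h1 hj)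
    by_contra hcon
    apply h
    refine ⟨Nat.find h1, hk, fun j hj u hu1 hu2 => ?_⟩
    by_contra hq
    apply hcon
    refine ⟨j, ⟨u, hu1, ?_, ?_⟩, fun i hi => ?_⟩
    · rw [← col_Cz, Int.cast_natCast]
      exact hu2
    · rw [← col_Cz]
      exact hq
    · rw [← col_Cz, Int.cast_natCast]
      exact hmin i (by omega)

open scoped Classical in
theorem stay_count (B : ℕ) : ∃ K : ℝ, 0 < K ∧ ∀ Y : ℝ, 2 ≤ Y → ∀ N : ℕ,
    (((Icc 1 N).filter (fun n : ℕ => ∀ k : ℕ, Y ≤ ((col^[k] n : ℕ) : ℝ))).card : ℝ) ≤ K * N / Real.log Y ^ B := by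
  obtain ⟨C, hC, h⟩ := Pool.Agent.H499R2.ND.collatz_bound B
  refine ⟨max (C * 2 ^ B) (2 ^ B), by positivity, fun Y hY N => ?_⟩
  have hlog : 0 < Real.log Y := Real.log_pos (by linarith)
  have hN0 : (0 : ℝ) ≤ N := Nat.cast_nonneg N
  rcases le_or_gt 4 Y with hY4 | hY4
  · rcases Nat.eq_zero_or_pos N with hN | hN
    · subst hN; simp
    have h1 := h N (Y / 2) (by exact_mod_cast hN) (by linarith)
    have h2 : (((Icc 1 N).filter (fun n : ℕ => ∀ k : ℕ, Y ≤ ((col^[k] n : ℕ) : ℝ))).card : ℝ) ≤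
        ({n : ℕ | 1 ≤ n ∧ (n : ℝ) ≤ N ∧ ∀ k : ℕ, Y / 2 < ((Pool.Agent.H499R2.ND.Cz^[k] n : ℕ) : ℝ)}.ncard : ℝ) := by
      have h3 : ((Icc 1 N).filter (fun n : ℕ => ∀ k : ℕ, Y ≤ ((col^[k] n : ℕ) : ℝ))).card ≤
        {n : ℕ | 1 ≤ n ∧ (n : ℝ) ≤ N ∧ ∀ k : ℕ, Y / 2 < ((Pool.Agent.H499R2.ND.Cz^[k] n : ℕ) : ℝ)}.ncard := by
        rw [← Set.ncard_coe_finset]
        apply Set.ncard_le_ncard
        · intro n hn
          rw [mem_coe, mem_filter, mem_Icc] at hn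
          refine ⟨hn.1.1, by exact_mod_cast hn.1.2, fun k => ?_⟩
          have h4 := hn.2 k
          have h5 : (col^[k] n : ℕ) = Pool.Agent.H499R2.ND.Cz^[k] n := rfl
          rw [← h5]
          linarith
        · apply (Set.finite_Icc 1 N).subset
          intro n hn
          exact ⟨hn.1, by exact_mod_cast hn.2.1⟩
      exact_mod_cast h3
    refine h2.trans (h1.trans ?_)
    have h3 : Real.log Y / 2 ≤ Real.log (Y / 2) := by
      rw [Real.log_div (by linarith) (by norm_num)]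
      have h4 : Real.log 4 ≤ Real.log Y := Real.log_le_log (by norm_num) hY4
      have h5 : Real.log 4 = 2 * Real.log 2 := by
        rw [show (4 : ℝ) = 2 ^ 2 by norm_num, Real.log_pow]; norm_num
      linarith
    calc C * N / Real.log (Y / 2) ^ B ≤ C * N / (Real.log Y / 2) ^ B := by
          apply div_le_div_of_nonneg_left (by positivity) (by positivity)
          exact pow_le_pow_left₀ (by positivity) h3 B
      _ = (C * 2 ^ B) * N / Real.log Y ^ B := by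
          rw [div_pow]
          field_simp
      _ ≤ _ := by
          apply div_le_div_of_nonneg_right _ (by positivity)
          exact mul_le_mul_of_nonneg_right (le_max_left _ _) hN0
  · have h1 : (((Icc 1 N).filter (fun n : ℕ => ∀ k : ℕ, Y ≤ ((col^[k] n : ℕ) : ℝ))).card : ℝ) ≤ N := by
      have : ((Icc 1 N).filter (fun n : ℕ => ∀ k : ℕ, Y ≤ ((col^[k] n : ℕ) : ℝ))).card ≤ N := by
        refine (card_filter_le _ _).trans ?_
        rw [Nat.card_Icc]; omega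
      exact_mod_cast this
    refine h1.trans ?_
    rw [le_div_iff₀ (by positivity), mul_comm]
    apply mul_le_mul_of_nonneg_right _ hN0
    refine le_trans ?_ (le_max_right _ _)
    apply pow_le_pow_left₀ hlog.le
    have h4 : Real.log Y ≤ Real.log 4 := Real.log_le_log (by linarith) hY4.le
    have h5 : Real.log 4 = 2 * Real.log 2 := by
      rw [show (4 : ℝ) = 2 ^ 2 by norm_num, Real.log_pow]; norm_num
    have := Real.log_two_lt_d9
    linarith

open scoped Classical in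
/-- **The Collatz map: all the terms before the first value smaller than `Y`.** -/
theorem all_nat {θ : ℝ} (hθ0 : 0 < θ) {Q : ℤ → Prop} {g : ℤ → ℤ} {G : ℕ}
    (hg : ∀ (u : ℤ) (s m : ℕ), Nat.Coprime s m → Int.gcd (g (u * s)) ((u.natAbs * m : ℕ) : ℤ) ≤ G * u.natAbs)
    (hQ : Few θ g (fun _ c => ¬ Q c)) (B U : ℕ) :
    ∃ K : ℝ, 0 < K ∧ ∀ Y : ℝ, 2 ≤ Y → ∀ N : ℕ,
      (((Icc 1 N).filter (fun n : ℕ => ¬ Done Q U Y n)).card : ℝ) ≤ K * N / Real.log Y ^ B := by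
  obtain ⟨K₁, hK₁, h1⟩ := all_terms_Cz odd_one isCoprime_one_left hθ0 hg hQ B U
  obtain ⟨K₂, hK₂, h2⟩ := stay_count B
  refine ⟨K₁ + K₂, by positivity, fun Y hY N => ?_⟩
  have h3 : ((Icc 1 N).filter (fun n : ℕ => ¬ Done Q U Y n)).card ≤
      ((Icc (1 : ℤ) N).filter (fun n => ∃ k : ℕ, (Cz 1)^[k] n ∈ UA Q U ∧
        ∀ j ≤ k, Y ≤ (((Cz 1)^[j] n : ℤ) : ℝ))).card +
      ((Icc 1 N).filter (fun n : ℕ => ∀ k : ℕ, Y ≤ ((col^[k] n : ℕ) : ℝ))).card := by
    have e1 : (Icc 1 N).filter (fun n : ℕ => ¬ Done Q U Y n) ⊆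
        (Icc 1 N).filter (fun n : ℕ => ∃ k : ℕ, (Cz 1)^[k] (n : ℤ) ∈ UA Q U ∧
          ∀ j ≤ k, Y ≤ (((Cz 1)^[j] (n : ℤ) : ℤ) : ℝ)) ∪
        (Icc 1 N).filter (fun n : ℕ => ∀ k : ℕ, Y ≤ ((col^[k] n : ℕ) : ℝ)) := by
      intro n hn
      rw [mem_filter] at hn
      rw [mem_union, mem_filter, mem_filter]
      rcases not_done hn.2 with h | h
      · exact Or.inr ⟨hn.1, h⟩
      · exact Or.inl ⟨hn.1, h⟩
    refine (card_le_card e1).trans ((card_union_le _ _).trans (Nat.add_le_add_right ?_ _))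
    apply card_le_card_of_injOn (fun n : ℕ => (n : ℤ))
    · intro n hn
      rw [mem_coe, mem_filter, mem_Icc] at hn
      rw [mem_coe, mem_filter, mem_Icc]
      have a1 : (1 : ℤ) ≤ (n : ℤ) := by exact_mod_cast hn.1.1
      have a2 : (n : ℤ) ≤ (N : ℤ) := by exact_mod_cast hn.1.2
      exact ⟨⟨a1, a2⟩, hn.2⟩
    · intro n _ m _ hnm
      exact Int.ofNat_inj.1 hnm
  have h4 : (((Icc 1 N).filter (fun n : ℕ => ¬ Done Q U Y n)).card : ℝ) ≤
      (((Icc (1 : ℤ) N).filter (fun n => ∃ k : ℕ, (Cz 1)^[k] n ∈ UA Q U ∧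
        ∀ j ≤ k, Y ≤ (((Cz 1)^[j] n : ℤ) : ℝ))).card : ℝ) +
      (((Icc 1 N).filter (fun n : ℕ => ∀ k : ℕ, Y ≤ ((col^[k] n : ℕ) : ℝ))).card : ℝ) := by
    exact_mod_cast h3
  have h5 := h1 Y hY N
  have h6 := h2 Y hY N
  have h7 : (K₁ + K₂) * N / Real.log Y ^ B = K₁ * N / Real.log Y ^ B + K₂ * N / Real.log Y ^ B := by ring
  rw [h7]
  linarith

open scoped Classical in
/-- a property of all but `K N / log Y` integers, for all `Y`, holds for almost all integers with `Y = f n` -/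
theorem almost_all {D : ℝ → ℕ → Prop} (hmono : ∀ Y Y' : ℝ, ∀ n : ℕ, Y ≤ Y' → D Y n → D Y' n)
    (h : ∃ K : ℝ, 0 < K ∧ ∀ Y : ℝ, 2 ≤ Y → ∀ N : ℕ,
      (((Icc 1 N).filter (fun n : ℕ => ¬ D Y n)).card : ℝ) ≤ K * N / Real.log Y ^ 1)
    (f : ℕ → ℝ) (hf : Tendsto f atTop atTop) :
    Tendsto (fun N : ℕ => (((Icc 1 N).filter (fun n : ℕ => D (f n) n)).card : ℝ) / N) atTop (𝓝 1) := by
  obtain ⟨C, hC, hbound⟩ := h
  rw [Metric.tendsto_atTop]
  intro ε hε
  obtain ⟨y, hy2, hyε⟩ : ∃ y : ℝ, 2 ≤ y ∧ C / Real.log y < ε / 2 := by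
    obtain ⟨L, hL⟩ : ∃ L : ℝ, L = 2 * C / ε + 1 := ⟨_, rfl⟩
    have hLpos : 0 < L := by rw [hL]; positivity
    refine ⟨Real.exp (L + 1), ?_, ?_⟩
    · have := Real.add_one_le_exp (L + 1); linarith
    · rw [Real.log_exp, div_lt_div_iff₀ (by linarith) (by norm_num)]
      have : L * ε = 2 * C + ε := by rw [hL]; field_simp
      nlinarith
  obtain ⟨n0, hn0⟩ := Filter.tendsto_atTop_atTop.1 hf y
  obtain ⟨N0, hN0⟩ := exists_nat_gt (2 * n0 / ε)
  refine ⟨N0 + 1, fun N hN => ?_⟩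
  have hNpos : 0 < N := by omega
  have hNR : (0 : ℝ) < N := by exact_mod_cast hNpos
  have hsub : Icc 1 N ⊆ (Icc 1 N).filter (fun n : ℕ => D (f n) n) ∪
      ((Icc 1 N).filter (fun n : ℕ => ¬ D y n) ∪ range n0) := by
    intro n hn
    rw [mem_union, mem_union, mem_filter, mem_filter, mem_range]
    by_cases h1 : n < n0
    · exact Or.inr (Or.inr h1)
    · by_cases h2 : D y n
      · exact Or.inl ⟨hn, hmono y (f n) n (hn0 n (by omega)) h2⟩
      · exact Or.inr (Or.inl ⟨hn, h2⟩)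
  have h1 : N ≤ ((Icc 1 N).filter (fun n : ℕ => D (f n) n)).card +
      (((Icc 1 N).filter (fun n : ℕ => ¬ D y n)).card + n0) := by
    have h2 := (card_le_card hsub).trans ((card_union_le _ _).trans (Nat.add_le_add_left (card_union_le _ _) _))
    rw [Nat.card_Icc, card_range] at h2
    omega
  have hup : ((Icc 1 N).filter (fun n : ℕ => D (f n) n)).card ≤ N := by
    refine (card_filter_le _ _).trans ?_
    rw [Nat.card_Icc]; omega
  have hb := hbound y hy2 N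
  rw [pow_one] at hb
  have hn0N : (n0 : ℝ) / N < ε / 2 := by
    have h1 : (N0 : ℝ) < N := by exact_mod_cast (by omega : N0 < N)
    have h2 : 2 * (n0 : ℝ) / ε < N := by linarith
    rw [div_lt_iff₀ hε] at h2
    rw [div_lt_div_iff₀ hNR (by norm_num)]
    linarith
  have hupR : (((Icc 1 N).filter (fun n : ℕ => D (f n) n)).card : ℝ) ≤ N := by exact_mod_cast hup
  have hloR : (N : ℝ) ≤ (((Icc 1 N).filter (fun n : ℕ => D (f n) n)).card : ℝ) +
      ((((Icc 1 N).filter (fun n : ℕ => ¬ D y n)).card : ℝ) + n0) := by exact_mod_cast h1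
  rw [Real.dist_eq, abs_lt]
  constructor
  · have h3 : (1 : ℝ) - (((Icc 1 N).filter (fun n : ℕ => D (f n) n)).card : ℝ) / N ≤
        (((Icc 1 N).filter (fun n : ℕ => ¬ D y n)).card : ℝ) / N + n0 / N := by
      rw [← add_div, one_sub_div hNR.ne']
      apply div_le_div_of_nonneg_right _ hNR.le
      linarith
    have h2 : (((Icc 1 N).filter (fun n : ℕ => ¬ D y n)).card : ℝ) / N ≤ C / Real.log y := by
      rw [div_le_iff₀ hNR]
      refine hb.trans (le_of_eq (by ring))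
    linarith
  · have h3 : (((Icc 1 N).filter (fun n : ℕ => D (f n) n)).card : ℝ) / N ≤ 1 := by
      rw [div_le_one hNR]; exact hupR
    linarith

theorem Done.mono {Q : ℤ → Prop} {U : ℕ} {Y Y' : ℝ} {n : ℕ} (hY : Y ≤ Y') (h : Done Q U Y n) : Done Q U Y' n := by
  obtain ⟨k, hk1, hk2⟩ := h
  exact ⟨k, lt_of_lt_of_le hk1 hY, hk2⟩

open scoped Classical in
/-- **The Collatz map: almost all integers.** -/
theorem all_nat_almost {θ : ℝ} (hθ0 : 0 < θ) {Q : ℤ → Prop} {g : ℤ → ℤ} {G : ℕ}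
    (hg : ∀ (u : ℤ) (s m : ℕ), Nat.Coprime s m → Int.gcd (g (u * s)) ((u.natAbs * m : ℕ) : ℤ) ≤ G * u.natAbs)
    (hQ : Few θ g (fun _ c => ¬ Q c)) (U : ℕ) (f : ℕ → ℝ) (hf : Tendsto f atTop atTop) :
    Tendsto (fun N : ℕ => (((Icc 1 N).filter (fun n : ℕ => Done Q U (f n) n)).card : ℝ) / N) atTop (𝓝 1) :=
  almost_all (D := fun Y n => Done Q U Y n) (fun _ _ _ hY h => h.mono hY) (all_nat hθ0 hg hQ 1 U) f hf

end Run7.h702.AT
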