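import Pool.Agent.Run7.h702.AT.E
import Pool.Agent.Run7.h702.CL.Few0

/-! All the terms of almost every Collatz trajectory: properties of positive integers with a class theorem. -/

set_option autoImplicit false

namespace Run7.h702.AT

open Finset Filter Topology
open Run7.h702.CL

theorem col_pos {n : ℕ} (hn : 1 ≤ n) : ∀ k : ℕ, 1 ≤ col^[k] n
  | 0 => hn
  | k + 1 => by
    rw [Function.iterate_succ_apply']
    have h1 := col_pos hn k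
    obtain ⟨t, ht⟩ : ∃ t, t = col^[k] n := ⟨_, rfl⟩
    rw [← ht] at h1 ⊢
    unfold col
    split_ifs <;> omega

/-- The trajectory of `m` takes a value smaller than `Y`, and no term `t` before some such value has a multiple `u t`,
`1 ≤ u ≤ (log t) ^ U`, with the property `S`. -/
def DoneN (S : ℕ → Prop) (U : ℕ) (Y : ℝ) (m : ℕ) : Prop :=
  ∃ k : ℕ, ((col^[k] m : ℕ) : ℝ) < Y ∧ ∀ j < k, ∀ u : ℕ, 1 ≤ u → (u : ℝ) ≤ Real.log (col^[j] m : ℕ) ^ U →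
    ¬ S (u * col^[j] m)

theorem doneN_of_done {S : ℕ → Prop} {U : ℕ} {Y : ℝ} {m : ℕ} (hm : 1 ≤ m) (h : Done (Qs S) U Y m) : DoneN S U Y m := by
  obtain ⟨k, hk1, hk2⟩ := h
  refine ⟨k, hk1, fun j hj u hu1 hu2 => ?_⟩
  have h1 := hk2 j hj (u : ℤ) (by omega) (by rw [Int.natAbs_natCast]; exact hu2)
  have h2 : 0 < u * col^[j] m := Nat.mul_pos hu1 (col_pos hm j)
  have h3 : (((u * col^[j] m : ℕ)) : ℤ) = (u : ℤ) * ((col^[j] m : ℕ) : ℤ) := by push_cast; ring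
  rw [← h3] at h1
  have h4 := h1 (by exact_mod_cast h2)
  rwa [Int.toNat_natCast] at h4

theorem hg_lin {G : ℕ} (hG : 1 ≤ G) (u : ℤ) (s m : ℕ) (hsm : Nat.Coprime s m) :
    Int.gcd ((G : ℤ) * (u * (s : ℤ)) + 0) ((u.natAbs * m : ℕ) : ℤ) ≤ G * u.natAbs := by
  have e : ((G : ℤ) * (u * (s : ℤ)) + 0 : ℤ) = u * ((G * s : ℕ) : ℤ) := by push_cast; ring
  rw [e]
  unfold Int.gcd
  rw [Int.natAbs_mul, Int.natAbs_natCast, Int.natAbs_natCast, Nat.gcd_mul_left, mul_comm G u.natAbs]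
  apply Nat.mul_le_mul_left
  have h1 : Nat.gcd (G * s) m ∣ G := by
    have h2 : Nat.gcd (G * s) m ∣ G * s := Nat.gcd_dvd_left _ _
    have h3 : Nat.Coprime (Nat.gcd (G * s) m) s :=
      Nat.Coprime.coprime_dvd_left (Nat.gcd_dvd_right _ _) hsm.symm
    exact h3.dvd_of_dvd_mul_right h2
  exact Nat.le_of_dvd hG h1

open scoped Classical in
/-- **Properties of positive integers.** -/
theorem all_lin {θ : ℝ} (hθ : 0 < θ) {S : ℕ → Prop} (G : ℕ) (hG : 1 ≤ G)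
    (hQ : Few0 θ (fun c => (G : ℤ) * c + 0) (fun _ c => ¬ Qs S c)) (A U : ℕ) :
    ∃ K : ℝ, 0 < K ∧ ∀ Y : ℝ, 2 ≤ Y → ∀ N : ℕ,
      (((Icc 1 N).filter (fun m : ℕ => ¬ DoneN S U Y m)).card : ℝ) ≤ K * N / Real.log Y ^ A := by
  obtain ⟨K, hK, h⟩ := all_nat hθ (hg_lin hG) hQ.few A U
  refine ⟨K, hK, fun Y hY N => le_trans ?_ (h Y hY N)⟩
  have h1 : ((Icc 1 N).filter (fun m : ℕ => ¬ DoneN S U Y m)).card ≤
      ((Icc 1 N).filter (fun m : ℕ => ¬ Done (Qs S) U Y m)).card := by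
    apply card_le_card
    intro m hm
    rw [mem_filter] at hm ⊢
    refine ⟨hm.1, fun hd => hm.2 (doneN_of_done (mem_Icc.1 hm.1).1 hd)⟩
  exact_mod_cast h1

theorem DoneN.mono {S : ℕ → Prop} {U : ℕ} {Y Y' : ℝ} {n : ℕ} (hY : Y ≤ Y') (h : DoneN S U Y n) : DoneN S U Y' n := by
  obtain ⟨k, hk1, hk2⟩ := h
  exact ⟨k, lt_of_lt_of_le hk1 hY, hk2⟩

open scoped Classical in
/-- **Properties of positive integers: almost all trajectories.** -/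
theorem all_lin_almost {θ : ℝ} (hθ : 0 < θ) {S : ℕ → Prop} (G : ℕ) (hG : 1 ≤ G)
    (hQ : Few0 θ (fun c => (G : ℤ) * c + 0) (fun _ c => ¬ Qs S c)) (U : ℕ) (f : ℕ → ℝ) (hf : Tendsto f atTop atTop) :
    Tendsto (fun N : ℕ => (((Icc 1 N).filter (fun m : ℕ => DoneN S U (f m) m)).card : ℝ) / N) atTop (𝓝 1) :=
  almost_all (D := fun Y n => DoneN S U Y n) (fun _ _ _ hY h => h.mono hY) (all_lin hθ G hG hQ 1 U) f hf

/-- The trajectory of `m` takes a value smaller than `Y`, and all the multiples `u t`, `1 ≤ u ≤ (log t) ^ U`, of the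
terms `t` before some such value have the property `P`. -/
def DoneP (P : ℕ → Prop) (U : ℕ) (Y : ℝ) (m : ℕ) : Prop :=
  ∃ k : ℕ, ((col^[k] m : ℕ) : ℝ) < Y ∧ ∀ j < k, ∀ u : ℕ, 1 ≤ u → (u : ℝ) ≤ Real.log (col^[j] m : ℕ) ^ U →
    P (u * col^[j] m)

theorem doneP_iff {P S : ℕ → Prop} (hPS : ∀ n, S n ↔ ¬ P n) (U : ℕ) (Y : ℝ) (m : ℕ) :
    DoneN S U Y m ↔ DoneP P U Y m := by
  unfold DoneN DoneP
  simp only [hPS, not_not]

open scoped Classical in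
theorem all_prop {θ : ℝ} (hθ : 0 < θ) {P S : ℕ → Prop} (hPS : ∀ n, S n ↔ ¬ P n) (G : ℕ) (hG : 1 ≤ G)
    (hQ : Few0 θ (fun c => (G : ℤ) * c + 0) (fun _ c => ¬ Qs S c)) (A U : ℕ) :
    ∃ K : ℝ, 0 < K ∧ ∀ Y : ℝ, 2 ≤ Y → ∀ N : ℕ,
      (((Icc 1 N).filter (fun m : ℕ => ¬ DoneP P U Y m)).card : ℝ) ≤ K * N / Real.log Y ^ A := by
  obtain ⟨K, hK, h⟩ := all_lin hθ G hG hQ A U
  refine ⟨K, hK, fun Y hY N => le_trans (le_of_eq ?_) (h Y hY N)⟩
  simp only [doneP_iff hPS]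

open scoped Classical in
theorem all_prop_almost {θ : ℝ} (hθ : 0 < θ) {P S : ℕ → Prop} (hPS : ∀ n, S n ↔ ¬ P n) (G : ℕ) (hG : 1 ≤ G)
    (hQ : Few0 θ (fun c => (G : ℤ) * c + 0) (fun _ c => ¬ Qs S c)) (U : ℕ) (f : ℕ → ℝ) (hf : Tendsto f atTop atTop) :
    Tendsto (fun N : ℕ => (((Icc 1 N).filter (fun m : ℕ => DoneP P U (f m) m)).card : ℝ) / N) atTop (𝓝 1) := by
  have h := all_lin_almost hθ G hG hQ U f hf
  simpa only [doneP_iff hPS] using h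

end Run7.h702.AT
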