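import Pool.Agent.Run7.h702.AT.E

/-! Class theorems for the constant terms of quadratic polynomials, in terms of the discriminant. -/

set_option autoImplicit false

namespace Run7.h702.AT

open Finset Filter Topology
open Run7.h702.CL

theorem hg_id (u : ℤ) (s m : ℕ) (hsm : Nat.Coprime s m) :
    Int.gcd (u * (s : ℤ)) ((u.natAbs * m : ℕ) : ℤ) ≤ 1 * u.natAbs := by
  unfold Int.gcd
  rw [Int.natAbs_mul, Int.natAbs_natCast, Int.natAbs_natCast, Nat.gcd_mul_left, hsm, mul_one, one_mul]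

/-- from the constant term `c` to the number `4 a c - b ^ 2` -/
theorem few_disc {θ : ℝ} {a b : ℤ} (ha : a ≠ 0) {Q : ℤ → Prop}
    (hQ : Few θ (fun c => b ^ 2 - 4 * a * c) (fun _ c => ¬ Q c)) :
    Few θ (fun e => e) (fun _ e => ¬ ∀ c : ℤ, 4 * a * c - b ^ 2 = e → Q c) := by
  classical
  intro ρ hρ A T
  obtain ⟨X₀, hX₀⟩ := hQ ρ hρ (A + 1) T
  obtain ⟨v, hv⟩ : ∃ v : ℕ, v = (4 * a).natAbs := ⟨_, rfl⟩
  have hv4 : 4 ≤ v := by omega
  have e1 := tendsto_log_nat.eventually_ge_atTop (v : ℝ)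
  obtain ⟨N₀, hN₀⟩ := eventually_atTop.1 e1
  refine ⟨X₀ + N₀ + (b ^ 2).natAbs, fun X hX q hq hqX hτ e₀ he₀ => ?_⟩
  have hlv : (v : ℝ) ≤ Real.log X := hN₀ X (by omega)
  have hvr : (4 : ℝ) ≤ v := by exact_mod_cast hv4
  have hl0 : 0 < Real.log X := by linarith
  have hqr : (1 : ℝ) ≤ q := by exact_mod_cast hq
  have hbX : b ^ 2 ≤ X := by
    have : (b ^ 2).natAbs ≤ X := by omega
    omega
  rcases Nat.eq_zero_or_pos (num (fun e => ¬ ∀ c : ℤ, 4 * a * c - b ^ 2 = e → Q c) X q e₀) with h0 | h0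
  · rw [h0, Nat.cast_zero]
    positivity
  obtain ⟨e', he'⟩ := card_pos.1 h0
  rw [mem_bad] at he'
  obtain ⟨he1, he2, he3⟩ := he'
  push Not at he3
  obtain ⟨c', hc1, hc2⟩ := he3
  obtain ⟨d, hd⟩ : ∃ d : ℕ, d = Int.gcd q (4 * a) := ⟨_, rfl⟩
  have hd0 : 0 < d := by
    rw [hd]
    exact Int.gcd_pos_of_ne_zero_left _ (by omega)
  have hdq : d ∣ q := by
    have : (d : ℤ) ∣ (q : ℤ) := by rw [hd]; exact Int.gcd_dvd_left _ _
    exact_mod_cast this
  have hda : d ≤ v := by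
    have : (d : ℤ) ∣ 4 * a := by rw [hd]; exact Int.gcd_dvd_right _ _
    have h2 : d ∣ v := by rw [hv]; exact Int.natCast_dvd.1 this
    exact Nat.le_of_dvd (by omega) h2
  obtain ⟨q', hq'⟩ : ∃ q' : ℕ, q' = q / d := ⟨_, rfl⟩
  have hqq : q' * d = q := by rw [hq']; exact Nat.div_mul_cancel hdq
  have hq'1 : 1 ≤ q' := by
    rcases Nat.eq_zero_or_pos q' with h | h
    · rw [h, zero_mul] at hqq; omega
    · exact h
  have hq'q : q' ∣ q := ⟨d, hqq.symm⟩
  have hq'le : q' ≤ q := Nat.le_of_dvd (by omega) hq'q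
  have hcast : (q' : ℤ) = (q : ℤ) / (Int.gcd q (4 * a) : ℤ) := by
    rw [hq', hd]
    exact Int.natCast_div _ _
  have hgcd : (Int.gcd (b ^ 2 - 4 * a * c') q' : ℝ) ≤ Real.log X ^ T := by
    refine le_trans ?_ he₀
    have h1 : Int.gcd (b ^ 2 - 4 * a * c') q' ∣ Int.gcd e₀ q := by
      have h2 : b ^ 2 - 4 * a * c' = -e' := by linarith
      rw [h2, Int.neg_gcd]
      have h4 : (Int.gcd e' q' : ℤ) ∣ (Int.gcd e₀ q : ℤ) := by
        have k1 : (Int.gcd e' q' : ℤ) ∣ (q : ℤ) := (Int.gcd_dvd_right e' (q' : ℤ)).trans (by exact_mod_cast hq'q)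
        apply Int.dvd_coe_gcd _ k1
        have k2 : (q : ℤ) ∣ e₀ - e' := Int.modEq_iff_dvd.1 he2
        have k3 := dvd_add (Int.gcd_dvd_left e' (q' : ℤ)) (k1.trans k2)
        rwa [add_sub_cancel] at k3
      exact_mod_cast h4
    have h5 : 0 < Int.gcd e₀ q := Int.gcd_pos_of_ne_zero_right _ (by omega)
    exact_mod_cast Nat.le_of_dvd h5 h1
  have hτ' : (q'.divisors.card : ℝ) ≤ Real.log X ^ T := by
    refine le_trans ?_ hτ
    exact_mod_cast card_le_card (Nat.divisors_subset_of_dvd (by omega) hq'q)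
  have h1 := hX₀ X (by omega) q' hq'1 (le_trans (by exact_mod_cast hq'le) hqX) hτ' c' hgcd
  have h2 : num (fun e => ¬ ∀ c : ℤ, 4 * a * c - b ^ 2 = e → Q c) X q e₀ ≤ num (fun c => ¬ Q c) X q' c' := by
    apply card_le_card_of_injOn (fun e : ℤ => (e + b ^ 2) / (4 * a))
    · intro e he
      rw [mem_coe, mem_bad] at he
      obtain ⟨k1, k2, k3⟩ := he
      push Not at k3
      obtain ⟨c, k4, k5⟩ := k3
      have k6 : (e + b ^ 2) / (4 * a) = c := by
        have : e + b ^ 2 = 4 * a * c := by linarith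
        rw [this, Int.mul_ediv_cancel_left _ (by omega)]
      rw [mem_coe, mem_bad]
      beta_reduce
      rw [k6]
      refine ⟨?_, ?_, k5⟩
      · have k7 : |4 * a * c| ≤ 2 * X := by
          have : 4 * a * c = e + b ^ 2 := by linarith
          rw [this]
          refine (abs_add_le _ _).trans ?_
          have h3 : |b ^ 2| = b ^ 2 := abs_of_nonneg (sq_nonneg b)
          rw [h3]
          linarith
        rw [abs_mul] at k7
        have k8 : (4 : ℤ) ≤ |4 * a| := by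
          rw [abs_mul]
          have := Int.one_le_abs ha
          norm_num
          linarith
        have k9 := abs_nonneg c
        nlinarith
      · rw [hcast]
        apply Int.ModEq.cancel_left_div_gcd (by omega)
        have k7 : e ≡ e' [ZMOD q] := k2.trans he2.symm
        have k8 : 4 * a * c = e + b ^ 2 := by linarith
        have k9 : 4 * a * c' = e' + b ^ 2 := by linarith
        rw [k8, k9]
        exact k7.add_right _
    · intro e he f hf hef
      rw [mem_coe, mem_bad] at he hf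
      obtain ⟨_, _, k3⟩ := he
      obtain ⟨_, _, l3⟩ := hf
      push Not at k3 l3
      obtain ⟨c, k4, _⟩ := k3
      obtain ⟨c₁, l4, _⟩ := l3
      have k6 : (e + b ^ 2) / (4 * a) = c := by
        have : e + b ^ 2 = 4 * a * c := by linarith
        rw [this, Int.mul_ediv_cancel_left _ (by omega)]
      have l6 : (f + b ^ 2) / (4 * a) = c₁ := by
        have : f + b ^ 2 = 4 * a * c₁ := by linarith
        rw [this, Int.mul_ediv_cancel_left _ (by omega)]
      simp only [k6, l6] at hef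
      rw [← k4, ← l4, hef]
  refine (Nat.cast_le.2 h2).trans (h1.trans ?_)
  have hq'r : (1 : ℝ) ≤ q' := by exact_mod_cast hq'1
  rw [div_le_div_iff₀ (by positivity) (by positivity)]
  have h3 : (q : ℝ) ≤ q' * Real.log X := by
    have h4 : (q : ℝ) = q' * d := by exact_mod_cast hqq.symm
    rw [h4]
    apply mul_le_mul_of_nonneg_left _ (by linarith)
    refine le_trans ?_ hlv
    exact_mod_cast hda
  have h5 : (q : ℝ) * Real.log X ^ A ≤ q' * Real.log X ^ (A + 1) := by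
    calc (q : ℝ) * Real.log X ^ A ≤ (q' * Real.log X) * Real.log X ^ A :=
          mul_le_mul_of_nonneg_right h3 (by positivity)
      _ = _ := by rw [pow_succ]; ring
  exact mul_le_mul_of_nonneg_left h5 (Nat.cast_nonneg _)

/-- The trajectory of `m` takes a value smaller than `Y`, and for all its terms `t` before some such value, all `u`,
`0 < |u| ≤ (log t) ^ U`, the integer `c` with `4 a c - b ^ 2 = u t`, if it exists, has the property `Q`. -/
def DoneD (a b : ℤ) (Q : ℤ → Prop) (U : ℕ) (Y : ℝ) (m : ℕ) : Prop :=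
  ∃ k : ℕ, ((col^[k] m : ℕ) : ℝ) < Y ∧ ∀ j < k, ∀ u c : ℤ, u ≠ 0 → (u.natAbs : ℝ) ≤ Real.log (col^[j] m : ℕ) ^ U →
    4 * a * c - b ^ 2 = u * (col^[j] m : ℕ) → Q c

theorem doneD_iff (a b : ℤ) (Q : ℤ → Prop) (U : ℕ) (Y : ℝ) (m : ℕ) :
    Done (fun e => ∀ c : ℤ, 4 * a * c - b ^ 2 = e → Q c) U Y m ↔ DoneD a b Q U Y m := by
  unfold Done DoneD
  constructor
  · rintro ⟨k, h1, h2⟩
    exact ⟨k, h1, fun j hj u c hu hu2 hc => h2 j hj u hu hu2 c hc⟩
  · rintro ⟨k, h1, h2⟩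
    exact ⟨k, h1, fun j hj u hu hu2 c hc => h2 j hj u c hu hu2 hc⟩

open scoped Classical in
theorem all_disc {θ : ℝ} (hθ : 0 < θ) {a b : ℤ} (ha : a ≠ 0) {Q : ℤ → Prop}
    (hQ : Few θ (fun c => b ^ 2 - 4 * a * c) (fun _ c => ¬ Q c)) (A U : ℕ) :
    ∃ K : ℝ, 0 < K ∧ ∀ Y : ℝ, 2 ≤ Y → ∀ N : ℕ,
      (((Icc 1 N).filter (fun m : ℕ => ¬ DoneD a b Q U Y m)).card : ℝ) ≤ K * N / Real.log Y ^ A := by
  have h := all_nat hθ (g := fun e => e) (G := 1) hg_id (few_disc ha hQ) A U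
  simpa only [doneD_iff] using h

open scoped Classical in
theorem all_disc_almost {θ : ℝ} (hθ : 0 < θ) {a b : ℤ} (ha : a ≠ 0) {Q : ℤ → Prop}
    (hQ : Few θ (fun c => b ^ 2 - 4 * a * c) (fun _ c => ¬ Q c)) (U : ℕ) (f : ℕ → ℝ) (hf : Tendsto f atTop atTop) :
    Tendsto (fun N : ℕ => (((Icc 1 N).filter (fun m : ℕ => DoneD a b Q U (f m) m)).card : ℝ) / N) atTop (𝓝 1) := by
  have h := all_nat_almost hθ (g := fun e => e) (G := 1) hg_id (few_disc ha hQ) U f hf
  simpa only [doneD_iff] using h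

end Run7.h702.AT
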