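import Pool.Agent.R344.TH.F

/-! Sets which are rare in the residue classes modulo powers of 3, part A: one class modulo a power of 2. -/

set_option autoImplicit false

namespace Run7.h702.AT

open Finset
open Pool.Agent.H320R2.PD Pool.Agent.H499R2.ND
open Pool.Agent.H499R2.CO (Tz)
open Pool.Agent.R344.SP Pool.Agent.R344.TH

theorem Tz_iter {d : ℤ} (hd : d % 2 = 1) : ∀ (k : ℕ) (x m : ℤ),
    (Tz d)^[k] (x + m * 2 ^ k) = (Tz d)^[k] x + m * 3 ^ (od d k x)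
  | 0, x, m => by simp [od]
  | k + 1, x, m => by
    rw [Function.iterate_succ_apply, Function.iterate_succ_apply, od_succ']
    have e0 : x + m * 2 ^ (k + 1) = x + 2 * (m * 2 ^ k) := by rw [pow_succ]; ring
    by_cases h : x % 2 = 0
    · have e1 : Tz d (x + m * 2 ^ (k + 1)) = Tz d x + m * 2 ^ k := by
        have h1 : (x + m * 2 ^ (k + 1)) % 2 = 0 := by rw [e0]; omega
        have h2 := Tz_even (d := d) h1
        have h3 := Tz_even (d := d) h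
        rw [e0] at h2 ⊢
        linarith
      have e2 : (x % 2).toNat = 0 := by rw [h]; rfl
      rw [e1, Tz_iter hd k, e2, add_zero]
    · have e1 : Tz d (x + m * 2 ^ (k + 1)) = Tz d x + (3 * m) * 2 ^ k := by
        have h1 : (x + m * 2 ^ (k + 1)) % 2 ≠ 0 := by rw [e0]; omega
        have h2 := Tz_odd hd h1
        have h3 := Tz_odd hd h
        rw [e0] at h2 ⊢
        linarith
      have e2 : (x % 2).toNat = 1 := by
        have : x % 2 = 1 := by omega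
        rw [this]; rfl
      rw [e1, Tz_iter hd k, e2, pow_succ]
      ring

theorem Tz_mod3 {d : ℤ} (hd : d % 2 = 1) (hd3 : d % 3 ≠ 0) {x : ℤ} (h : x % 2 ≠ 0 ∨ x % 3 ≠ 0) :
    Tz d x % 3 ≠ 0 := by
  by_cases h0 : x % 2 = 0
  · have h1 := Tz_even (d := d) h0
    have h2 : x % 3 ≠ 0 := by
      rcases h with h | h
      · exact absurd h0 h
      · exact h
    omega
  · have h1 := Tz_odd hd h0
    omega

theorem iter_mod3 {d : ℤ} (hd : d % 2 = 1) (hd3 : d % 3 ≠ 0) {x : ℤ} (hx : x % 2 ≠ 0) :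
    ∀ k : ℕ, (Tz d)^[k + 1] x % 3 ≠ 0
  | 0 => Tz_mod3 hd hd3 (Or.inl hx)
  | k + 1 => by
    rw [Function.iterate_succ_apply']
    exact Tz_mod3 hd hd3 (Or.inr (iter_mod3 hd hd3 hx k))

theorem od_mod {d : ℤ} (hd : d % 2 = 1) {k : ℕ} {x y : ℤ} (h : x % 2 ^ k = y % 2 ^ k) :
    ∃ m : ℤ, x = y + m * 2 ^ k ∧ od d k x = od d k y := by
  obtain ⟨m, hm⟩ : (2 : ℤ) ^ k ∣ x - y := Int.ModEq.dvd (Int.ModEq.symm h)
  refine ⟨m, by linarith, ?_⟩
  have : x = y + m * 2 ^ k := by linarith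
  rw [this, od_periodic hd]

/-- the elements of `A₀` in `[a, b]`, `x ≡ e` modulo `3 ^ j` -/
noncomputable def fC (A₀ : Set ℤ) (a b : ℝ) (j : ℕ) (e : ℤ) : Finset ℤ :=
  (fA A₀ a b).filter (fun x => (3 : ℤ) ^ j ∣ x - e)

theorem mem_fC {A₀ : Set ℤ} {a b : ℝ} {j : ℕ} {e x : ℤ} :
    x ∈ fC A₀ a b j e ↔ ((a ≤ x ∧ (x : ℝ) ≤ b) ∧ x ∈ A₀) ∧ (3 : ℤ) ^ j ∣ x - e := by
  unfold fC
  rw [mem_filter, mem_fA]

/-- `A₀` is rare in the classes modulo `3 ^ j` prime to `3`, from `z` on -/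
def RC (A₀ : Set ℤ) (z γ : ℝ) (E : ℕ) : Prop :=
  ∀ X : ℝ, z ≤ X → ∀ j : ℕ, (j : ℝ) ≤ 300 * (Real.log X) ^ γ → ∀ e : ℤ, (j = 0 ∨ e % 3 ≠ 0) →
    ((fC A₀ z X j e).card : ℝ) ≤ X / (3 ^ j * (Real.log X) ^ E)

theorem RC.mono {A₀ : Set ℤ} {z z' γ : ℝ} {E : ℕ} (h : RC A₀ z γ E) (hz : z ≤ z') : RC A₀ z' γ E := by
  intro X hX j hj e he
  refine le_trans ?_ (h X (hz.trans hX) j hj e he)
  have : fC A₀ z' X j e ⊆ fC A₀ z X j e := by
    intro x hx
    rw [mem_fC] at hx ⊢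
    exact ⟨⟨⟨hz.trans hx.1.1.1, hx.1.1.2⟩, hx.1.2⟩, hx.2⟩
  exact_mod_cast card_le_card this

/-- `T^k x ∈ A₀` and the trajectory is above `z` until then -/
def SK (d : ℤ) (A₀ : Set ℤ) (z : ℝ) (k : ℕ) : Set ℤ :=
  {x : ℤ | (Tz d)^[k] x ∈ A₀ ∧ ∀ j ≤ k, z ≤ (((Tz d)^[j] x : ℤ) : ℝ)}

theorem one_class {d : ℤ} (hd : d % 2 = 1) (hd3 : d % 3 ≠ 0) {A₀ : Set ℤ} {z γ : ℝ} {E : ℕ} (hz : 1 < z)
    (hγ : 0 ≤ γ) (hRC : RC A₀ z γ E) {K : ℕ} (hK : (K : ℝ) * |(d : ℝ)| ≤ z) {m : ℕ}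
    (hm : (K : ℝ) + m ≤ 300 * (Real.log z) ^ γ) {A : ℝ} (hA : 0 < A) {c : ℤ} (hc : m = 0 ∨ c % 3 ≠ 0) {k : ℕ}
    (hk : k < K) (r : ℤ) :
    (((cls (SK d A₀ z k) A (2 * A) m 1 c).filter (fun x => x % 2 ^ k = r)).card : ℝ) ≤
      4 * A / (2 ^ k * 3 ^ m * (Real.log z) ^ E) := by
  have hlz : 0 < Real.log z := Real.log_pos hz
  rcases Finset.eq_empty_or_nonempty ((cls (SK d A₀ z k) A (2 * A) m 1 c).filter (fun x => x % 2 ^ k = r))
    with h0 | ⟨x₀, hx₀⟩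
  · rw [h0, card_empty, Nat.cast_zero]
    positivity
  rw [mem_filter, mem_cls] at hx₀
  obtain ⟨⟨⟨hx1, hx2⟩, hxo, ⟨hx3, hx4⟩, hx5⟩, hx6⟩ := hx₀
  obtain ⟨a, ha⟩ : ∃ a, a = od d k x₀ := ⟨_, rfl⟩
  obtain ⟨e, he⟩ : ∃ e, e = (Tz d)^[k] x₀ := ⟨_, rfl⟩
  obtain ⟨X, hX⟩ : ∃ X : ℝ, X = 4 * A * 3 ^ a / 2 ^ k := ⟨_, rfl⟩
  have hup : ∀ x : ℤ, x ∈ SK d A₀ z k → (x : ℝ) < 2 * A → od d k x = a → (((Tz d)^[k] x : ℤ) : ℝ) ≤ X := by
    intro x hx hxA hxa
    have hx0 : 0 < x := by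
      have h1 := hx.2 0 (Nat.zero_le _)
      have : (0 : ℝ) < x := by
        rw [Function.iterate_zero, id] at h1
        linarith
      exact_mod_cast this
    have hKk : (k : ℝ) * |(d : ℝ)| ≤ z := by
      refine le_trans ?_ hK
      apply mul_le_mul_of_nonneg_right _ (abs_nonneg _)
      exact_mod_cast hk.le
    have h1 := growth_two hd (by linarith) hKk hx0 (fun i hi => hx.2 i hi.le)
    rw [hX, le_div_iff₀ (by positivity)]
    refine h1.trans ?_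
    rw [hxa]
    have : (0 : ℝ) < 3 ^ a := by positivity
    nlinarith
  have hzX : z ≤ X := (hx4 k le_rfl).trans (hup x₀ ⟨hx3, hx4⟩ hx2 ha.symm)
  have hXlog : Real.log z ≤ Real.log X := Real.log_le_log (by linarith) hzX
  have hak : a ≤ k := by rw [ha]; exact od_le d k x₀
  have hj : ((a + m : ℕ) : ℝ) ≤ 300 * (Real.log X) ^ γ := by
    push_cast
    have h1 : (a : ℝ) ≤ K := by exact_mod_cast hak.trans hk.le
    have h2 : (Real.log z) ^ γ ≤ (Real.log X) ^ γ := Real.rpow_le_rpow hlz.le hXlog hγ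
    linarith
  have hxo2 : x₀ % 2 ≠ 0 := by
    have := Int.odd_iff.1 hxo
    omega
  have he3 : a + m = 0 ∨ e % 3 ≠ 0 := by
    rcases Nat.eq_zero_or_pos k with hk0 | hk0
    · subst hk0
      have ha0 : a = 0 := by omega
      rcases hc with hc | hc
      · left; omega
      · rcases Nat.eq_zero_or_pos m with hm0 | hm0
        · left; omega
        · right
          rw [Function.iterate_zero, id] at he
          rw [he]
          have h3 : (3 : ℤ) ∣ 1 * x₀ - c := (dvd_pow_self 3 (by omega)).trans hx5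
          omega
    · right
      obtain ⟨k', rfl⟩ : ∃ k', k = k' + 1 := ⟨k - 1, by omega⟩
      rw [he]
      exact iter_mod3 hd hd3 hxo2 k'
  have h1 := hRC X hzX (a + m) hj e he3
  have h2 : (((cls (SK d A₀ z k) A (2 * A) m 1 c).filter (fun x => x % 2 ^ k = r)).card : ℝ) ≤
      ((fC A₀ z X (a + m) e).card : ℝ) := by
    have : ((cls (SK d A₀ z k) A (2 * A) m 1 c).filter (fun x => x % 2 ^ k = r)).card ≤
        (fC A₀ z X (a + m) e).card := by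
      apply card_le_card_of_injOn (fun x => (Tz d)^[k] x)
      · intro x hx
        rw [mem_coe, mem_filter, mem_cls] at hx
        obtain ⟨⟨⟨hy1, hy2⟩, hyo, hyS, hy5⟩, hy6⟩ := hx
        obtain ⟨t, ht1, ht2⟩ := od_mod hd (hy6.trans hx6.symm)
        rw [← ha] at ht2
        rw [mem_coe, mem_fC]
        refine ⟨⟨⟨hyS.2 k le_rfl, hup x hyS hy2 ht2⟩, hyS.1⟩, ?_⟩
        have h3 : (Tz d)^[k] x - e = t * 3 ^ a := by
          rw [ht1, Tz_iter hd, ← he, ← ha]; ring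
        beta_reduce
        rw [h3, pow_add, mul_comm]
        apply mul_dvd_mul_right
        have h4 : (3 : ℤ) ^ m ∣ (1 * x - c) - (1 * x₀ - c) := dvd_sub hy5 hx5
        have h5 : (1 * x - c) - (1 * x₀ - c) = 2 ^ k * t := by rw [ht1]; ring
        rw [h5] at h4
        exact ((two_three_cop k m).symm).dvd_of_dvd_mul_left h4
      · intro x hx y hy hxy
        rw [mem_coe, mem_filter, mem_cls] at hx hy
        obtain ⟨t, ht1, ht2⟩ := od_mod hd (hx.2.trans hx6.symm)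
        obtain ⟨s, hs1, hs2⟩ := od_mod hd (hy.2.trans hx6.symm)
        beta_reduce at hxy
        rw [ht1, hs1, Tz_iter hd, Tz_iter hd] at hxy
        have h3 : t * 3 ^ (od d k x₀) = s * 3 ^ (od d k x₀) := by linarith
        have h4 : t = s := mul_right_cancel₀ (by positivity) h3
        rw [ht1, hs1, h4]
    exact_mod_cast this
  refine h2.trans (h1.trans ?_)
  rw [hX, pow_add]
  have e1 : 4 * A * 3 ^ a / 2 ^ k / (3 ^ a * 3 ^ m * (Real.log (4 * A * 3 ^ a / 2 ^ k)) ^ E) =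
      4 * A / (2 ^ k * 3 ^ m * (Real.log (4 * A * 3 ^ a / 2 ^ k)) ^ E) := by
    field_simp
  rw [e1, ← hX]
  apply div_le_div_of_nonneg_left (by positivity) (by positivity)
  apply mul_le_mul_of_nonneg_left _ (by positivity)
  exact pow_le_pow_left₀ hlz.le hXlog E

theorem one_level {d : ℤ} (hd : d % 2 = 1) (hd3 : d % 3 ≠ 0) {A₀ : Set ℤ} {z γ : ℝ} {E : ℕ} (hz : 1 < z)
    (hγ : 0 ≤ γ) (hRC : RC A₀ z γ E) {K : ℕ} (hK : (K : ℝ) * |(d : ℝ)| ≤ z) {m : ℕ}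
    (hm : (K : ℝ) + m ≤ 300 * (Real.log z) ^ γ) {A : ℝ} (hA : 0 < A) {c : ℤ} (hc : m = 0 ∨ c % 3 ≠ 0) {k : ℕ}
    (hk : k < K) :
    ((cls (SK d A₀ z k) A (2 * A) m 1 c).card : ℝ) ≤ 4 * A / (3 ^ m * (Real.log z) ^ E) := by
  have h1 := card_eq_sum_card_fiberwise (s := cls (SK d A₀ z k) A (2 * A) m 1 c)
    (t := Ico (0 : ℤ) (2 ^ k)) (f := fun x : ℤ => x % 2 ^ k) (by
      intro x _
      rw [mem_coe, Finset.mem_Ico]
      exact ⟨Int.emod_nonneg _ (by positivity), Int.emod_lt_of_pos _ (by positivity)⟩)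
  rw [h1]
  push_cast
  refine (sum_le_sum fun r _ => one_class hd hd3 hz hγ hRC hK hm hA hc hk r).trans ?_
  rw [sum_const, nsmul_eq_mul, Int.card_Ico]
  have e : (((2 : ℤ) ^ k - 0).toNat : ℝ) = 2 ^ k := by
    have : ((2 : ℤ) ^ k - 0).toNat = 2 ^ k := by
      rw [sub_zero]
      have h2 : ((2 : ℤ) ^ k) = ((2 ^ k : ℕ) : ℤ) := by push_cast; rfl
      rw [h2, Int.toNat_natCast]
    rw [this]
    push_cast
    rfl
  rw [e]
  apply le_of_eq
  have hlz : 0 < Real.log z := Real.log_pos hz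
  field_simp

open scoped Classical in
/-- the count at the lowest scales -/
theorem base_count {d : ℤ} (hd : d % 2 = 1) (hd3 : d % 3 ≠ 0) {A₀ : Set ℤ} {z γ : ℝ} {E : ℕ} (hz : 1 < z)
    (hγ : 0 ≤ γ) (hRC : RC A₀ z γ E) {K : ℕ} (hK : (K : ℝ) * |(d : ℝ)| ≤ z) {m : ℕ}
    (hm : (K : ℝ) + m ≤ 300 * (Real.log z) ^ γ) {c₁ A : ℝ} (hA : 0 < A)
    (hcl : ∀ j : ℕ, (j : ℝ) < c₁ * K → 4 * A * 3 ^ j < z * 2 ^ K) {c : ℤ} (hc : m = 0 ∨ c % 3 ≠ 0) :
    ((cls (SZ d A₀ z) A (2 * A) m 1 c).card : ℝ) ≤ K * (4 * A / (3 ^ m * (Real.log z) ^ E))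
      + (((Wn A).filter (fun n => c₁ * K ≤ (od d K n : ℝ))).card : ℝ) := by
  have hz0 : 0 < z := by linarith
  have hsub : cls (SZ d A₀ z) A (2 * A) m 1 c
      ⊆ ((range K).biUnion (fun k => cls (SK d A₀ z k) A (2 * A) m 1 c))
        ∪ (Wn A).filter (fun n => c₁ * K ≤ (od d K n : ℝ)) := by
    intro x hx
    rw [mem_cls] at hx
    obtain ⟨hx1, hx2, ⟨k, hk1, hk2, _⟩, hx4⟩ := hx
    have hzx : z ≤ x := hk2 0 (Nat.zero_le _)
    have hx0 : 0 < x := by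
      have : (0 : ℝ) < x := lt_of_lt_of_le hz0 hzx
      exact_mod_cast this
    rw [mem_union, mem_biUnion, mem_filter, mem_Wn]
    by_cases hkK : k < K
    · left
      refine ⟨k, mem_range.2 hkK, ?_⟩
      rw [mem_cls]
      exact ⟨hx1, hx2, ⟨hk1, hk2⟩, hx4⟩
    · right
      push Not at hkK
      refine ⟨hx1, ?_⟩
      by_contra hcon
      push Not at hcon
      have h1 := growth_two hd hz0 hK hx0 (fun i hi => hk2 i (by omega))
      have h2 := hcl _ hcon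
      have h3 := hk2 K hkK
      have h4 : z * 2 ^ K ≤ 2 * (3 ^ od d K x * x) :=
        (mul_le_mul_of_nonneg_right h3 (by positivity)).trans h1
      have h5 : 2 * ((3 : ℝ) ^ od d K x * x) ≤ 4 * A * 3 ^ od d K x := by
        have : (0 : ℝ) < 3 ^ od d K x := by positivity
        nlinarith [hx1.2]
      linarith
  have h1 := card_le_card hsub
  have h2 := card_union_le ((range K).biUnion (fun k => cls (SK d A₀ z k) A (2 * A) m 1 c))
    ((Wn A).filter (fun n => c₁ * K ≤ (od d K n : ℝ)))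
  have h3 : ((((range K).biUnion (fun k => cls (SK d A₀ z k) A (2 * A) m 1 c)).card : ℕ) : ℝ)
      ≤ K * (4 * A / (3 ^ m * (Real.log z) ^ E)) := by
    have h4 : ((((range K).biUnion (fun k => cls (SK d A₀ z k) A (2 * A) m 1 c)).card : ℕ) : ℝ)
        ≤ ∑ k ∈ range K, ((cls (SK d A₀ z k) A (2 * A) m 1 c).card : ℝ) := by
      exact_mod_cast card_biUnion_le
    refine h4.trans ?_
    refine (sum_le_sum fun k hk => one_level hd hd3 hz hγ hRC hK hm hA hc (mem_range.1 hk)).trans ?_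
    rw [sum_const, card_range, nsmul_eq_mul]
  have h4 : ((cls (SZ d A₀ z) A (2 * A) m 1 c).card : ℝ) ≤
      ((((range K).biUnion (fun k => cls (SK d A₀ z k) A (2 * A) m 1 c)).card : ℕ) : ℝ) +
        (((Wn A).filter (fun n => c₁ * K ≤ (od d K n : ℝ))).card : ℝ) := by
    exact_mod_cast h1.trans h2
  linarith

end Run7.h702.AT
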