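import Pool.Agent.Run7.h702.AT.A

/-! Sets which are rare in the residue classes modulo powers of 3, part B: the lowest scales, and one stage. -/

set_option autoImplicit false

namespace Run7.h702.AT

open Finset
open Pool.Agent.H320R2.PD Pool.Agent.H499R2.ND
open Pool.Agent.H499R2.CO (Tz)
open Pool.Agent.R344.SP Pool.Agent.R344.TH

theorem cop3 {e : ℤ} : IsCoprime e 3 ↔ e % 3 ≠ 0 := by
  rw [isCoprime_comm, Int.prime_three.coprime_iff_not_dvd]
  omega

/-- `S` has relative density at most `ρ` in all classes mod `3^m`, prime to `3`, of odd integers of `[A,2A)` -/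
def PC (S : Set ℤ) (A : ℝ) (m : ℕ) (ρ : ℝ) : Prop :=
  ∀ u v : ℤ, IsCoprime u 3 → (m = 0 ∨ v % 3 ≠ 0) →
    ((cls S A (2 * A) m u v).card : ℝ) ≤ ρ * (A / (2 * 3 ^ m))

theorem PC.of_PB {S : Set ℤ} {A : ℝ} {m : ℕ} {ρ : ℝ} (h : PB S A m ρ) : PC S A m ρ :=
  fun u v hu _ => h u v hu

/-- a class `u x ≡ v` is a class `x ≡ c` -/
theorem cls_unit' (S : Set ℤ) (a b : ℝ) (m : ℕ) {u : ℤ} (hu : IsCoprime u 3) (v : ℤ) (hv : m = 0 ∨ v % 3 ≠ 0) :
    ∃ c : ℤ, (m = 0 ∨ c % 3 ≠ 0) ∧ cls S a b m u v = cls S a b m 1 c := by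
  obtain ⟨p, q, hpq⟩ : IsCoprime u ((3 : ℤ) ^ m) := hu.pow_right
  refine ⟨p * v, ?_, ?_⟩
  · rcases hv with hv | hv
    · exact Or.inl hv
    · rcases Nat.eq_zero_or_pos m with hm | hm
      · exact Or.inl hm
      · right
        obtain ⟨m', rfl⟩ : ∃ m', m = m' + 1 := ⟨m - 1, by omega⟩
        intro h0
        have h1 : (3 : ℤ) ∣ p * v := Int.dvd_of_emod_eq_zero h0
        rcases Int.prime_three.dvd_or_dvd h1 with h2 | h2
        · have h3 : (3 : ℤ) ∣ p * u + q * 3 ^ (m' + 1) :=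
            dvd_add (h2.mul_right u) ((dvd_pow_self 3 (by omega)).mul_left q)
          rw [hpq] at h3
          norm_num at h3
        · omega
  ext x
  rw [mem_cls, mem_cls]
  have key : (3 : ℤ) ^ m ∣ u * x - v ↔ (3 : ℤ) ^ m ∣ 1 * x - p * v := by
    have hcop : IsCoprime ((3 : ℤ) ^ m) u := ⟨q, p, by linarith⟩
    constructor
    · intro h
      apply hcop.dvd_of_dvd_mul_left
      have : u * (1 * x - p * v) = (u * x - v) + 3 ^ m * (q * v) := by
        have h1 : u * p = 1 - q * 3 ^ m := by linarith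
        calc u * (1 * x - p * v) = u * x - (u * p) * v := by ring
          _ = _ := by rw [h1]; ring
      rw [this]
      exact dvd_add h (dvd_mul_right _ _)
    · intro h
      have : u * x - v = u * (1 * x - p * v) - 3 ^ m * (q * v) := by
        have h1 : u * p = 1 - q * 3 ^ m := by linarith
        have h2 : u * (1 * x - p * v) = u * x - (u * p) * v := by ring
        rw [h2, h1]; ring
      rw [this]
      exact dvd_sub (h.mul_left u) (dvd_mul_right _ _)
  rw [key]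

/-- the lowest scales -/
theorem base_PC {d : ℤ} (hd : d % 2 = 1) (hd3 : d % 3 ≠ 0) {γ : ℝ} (hγ0 : 0 < γ) (hγ : γ ≤ 1 / 2) (B : ℕ) :
    ∃ l₀ : ℝ, 0 < l₀ ∧ ∀ z : ℝ, 0 < z → l₀ ≤ Real.log z → ∀ A₀ : Set ℤ, RC A₀ z γ (B + 2) →
      ∀ A : ℝ, z / 2 ≤ A → Real.log A ≤ Real.log z + 3 * (Real.log z) ^ γ → ∀ m : ℕ,
        (m : ℝ) ≤ (Real.log A) ^ (γ / 2) → PC (SZ d A₀ z) A m (1 / (Real.log z) ^ B) := by
  obtain ⟨ρ, hρ0, hρ1, hod⟩ := od_large hd (c₁ := 0.6) (by norm_num)
  have hlogρ : Real.log ρ < 0 := Real.log_neg hρ0 hρ1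
  set c : ℝ := min 1 (-(100 * Real.log ρ)) with hc
  have hc0 : 0 < c := by rw [hc]; exact lt_min one_pos (by linarith)
  have hc1 : c ≤ 1 := min_le_left _ _
  have hc2 : c ≤ -(100 * Real.log ρ) := min_le_right _ _
  have hev1 : ∀ᶠ u : ℝ in Filter.atTop, u ^ ((B : ℝ) / γ) * Real.exp (-c * u) ≤ 1 / 8 :=
    (tendsto_rpow_mul_exp_neg_mul_atTop_nhds_zero _ c hc0).eventually_le_const (by norm_num)
  have hev2 : ∀ᶠ u : ℝ in Filter.atTop, 300 ≤ u := Filter.eventually_ge_atTop _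
  have hev3 : ∀ᶠ u : ℝ in Filter.atTop, (2.4 / (-(100 * Real.log ρ))) ^ 2 ≤ u :=
    Filter.eventually_ge_atTop _
  obtain ⟨u₀, hu₀⟩ := Filter.eventually_atTop.1 (hev1.and (hev2.and hev3))
  refine ⟨max (max 1000000 (2 * |(d : ℝ)|)) ((max u₀ 1) ^ (1 / γ)), by positivity, ?_⟩
  intro z hz hl A₀ hA₀ A hA1 hA2 m hm
  set l := Real.log z with hldef
  have hl1 : 1000000 ≤ l := (le_max_left _ _).trans ((le_max_left _ _).trans hl)
  have hl2 : 2 * |(d : ℝ)| ≤ l := (le_max_right _ _).trans ((le_max_left _ _).trans hl)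
  have hl3 : (max u₀ 1) ^ (1 / γ) ≤ l := (le_max_right _ _).trans hl
  have hl0 : 0 < l := by linarith
  set u := l ^ γ with hu
  have hupos : 0 < u := by rw [hu]; positivity
  have hum : max u₀ 1 ≤ u := by
    have h1 : ((max u₀ 1) ^ (1 / γ)) ^ γ ≤ l ^ γ := Real.rpow_le_rpow (by positivity) hl3 hγ0.le
    rwa [← Real.rpow_mul (by positivity), one_div, inv_mul_cancel₀ hγ0.ne', Real.rpow_one] at h1
  obtain ⟨h1, h2, h3⟩ := hu₀ u ((le_max_left _ _).trans hum)
  have hexpz : Real.exp l = z := Real.exp_log hz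
  have hz1 : 1 < z := by
    have := Real.add_one_le_exp l
    rw [hexpz] at this
    linarith
  have hApos : 0 < A := by linarith
  have hexpA : Real.exp (Real.log A) = A := Real.exp_log hApos
  have hln2a := Real.log_two_gt_d9
  have hln2b := Real.log_two_lt_d9
  have hln3 := log3_le
  -- `u ≤ √l`
  have husq : u ≤ Real.sqrt l := by
    rw [Real.sqrt_eq_rpow]; exact Real.rpow_le_rpow_of_exponent_le (by linarith) hγ
  have hsl : Real.sqrt l ≤ l / 1000 := by
    rw [Real.sqrt_le_left (by positivity)]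
    nlinarith
  have hul : u ≤ l / 1000 := husq.trans hsl
  -- the parameter `K`
  obtain ⟨K, hK⟩ : ∃ K : ℕ, K = ⌈200 * u⌉₊ := ⟨_, rfl⟩
  have hK1 : 200 * u ≤ K := by rw [hK]; exact Nat.le_ceil _
  have hK2 : (K : ℝ) ≤ 200 * u + 1 := by rw [hK]; exact (Nat.ceil_lt_add_one (by positivity)).le
  have hK1N : 1 ≤ K := by
    have : (1 : ℝ) ≤ K := by linarith
    exact_mod_cast this
  have h2K : (2 : ℝ) ^ K = Real.exp (K * Real.log 2) := by
    rw [Real.exp_nat_mul, Real.exp_log (by norm_num)]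
  have hKd : (K : ℝ) * |(d : ℝ)| ≤ z := by
    have e1 : (K : ℝ) ≤ l := by linarith
    have e2 : l ^ 2 / 2 ≤ z := by
      have := Real.pow_div_factorial_le_exp l hl0.le 2
      rw [hexpz] at this
      simpa using this
    have e3 : (K : ℝ) * |(d : ℝ)| ≤ l * (l / 2) :=
      mul_le_mul e1 (by linarith) (abs_nonneg _) hl0.le
    linarith
  have hAlog : l - Real.log 2 ≤ Real.log A := by
    rw [hldef, ← Real.log_div hz.ne' (by norm_num)]
    exact Real.log_le_log (by positivity) hA1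
  have h2KA : (2 : ℝ) ^ K ≤ A := by
    rw [h2K, ← hexpA]
    apply Real.exp_le_exp.2
    have : (K : ℝ) * Real.log 2 ≤ (200 * u + 1) * 0.7 :=
      mul_le_mul hK2 (by linarith) (by linarith) (by positivity)
    linarith
  have hAz : A ≤ z * Real.exp (3 * u) := by
    rw [← hexpA, ← hexpz, ← Real.exp_add]
    exact Real.exp_le_exp.2 hA2
  have hcl : ∀ j : ℕ, (j : ℝ) < 0.6 * K → 4 * A * 3 ^ j < z * 2 ^ K := by
    intro j hj
    have e1 : (3 : ℝ) ^ j ≤ Real.exp (0.96 * (K * Real.log 2)) := by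
      have : (3 : ℝ) ^ j = Real.exp (j * Real.log 3) := by
        rw [Real.exp_nat_mul, Real.exp_log (by norm_num)]
      rw [this]
      apply Real.exp_le_exp.2
      calc (j : ℝ) * Real.log 3 ≤ (0.6 * K) * (8 / 5 * Real.log 2) := by
            apply mul_le_mul hj.le hln3 (Real.log_nonneg (by norm_num)) (by positivity)
        _ = _ := by ring
    have e2 : 4 * A * 3 ^ j ≤ Real.exp (2 * Real.log 2) * (z * Real.exp (3 * u))
        * Real.exp (0.96 * (K * Real.log 2)) := by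
      have : Real.exp (2 * Real.log 2) = 4 := by
        rw [show (2 : ℝ) * Real.log 2 = ((2 : ℕ) : ℝ) * Real.log 2 by norm_num, Real.exp_nat_mul,
          Real.exp_log (by norm_num)]
        norm_num
      rw [this]
      apply mul_le_mul _ e1 (by positivity) (by positivity)
      linarith
    refine e2.trans_lt ?_
    have e3 : Real.exp (2 * Real.log 2) * (z * Real.exp (3 * u)) * Real.exp (0.96 * (K * Real.log 2))
        = z * Real.exp (2 * Real.log 2 + 3 * u + 0.96 * (K * Real.log 2)) := by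
      rw [Real.exp_add, Real.exp_add]; ring
    rw [e3, h2K]
    apply mul_lt_mul_of_pos_left _ hz
    apply Real.exp_lt_exp.2
    have e4 : 200 * u * 0.69 ≤ K * Real.log 2 := mul_le_mul hK1 (by linarith) (by norm_num) (by positivity)
    linarith
  have hsu : Real.sqrt u ≤ u := by
    rw [Real.sqrt_le_left hupos.le]; nlinarith
  -- the number `m`
  have hm2 : (m : ℝ) ≤ 2 * Real.sqrt u := by
    refine hm.trans ?_
    have e2 : Real.log A ≤ 4 * l := by linarith
    have e3 : 0 ≤ Real.log A := by linarith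
    calc (Real.log A) ^ (γ / 2) ≤ (4 * l) ^ (γ / 2) := Real.rpow_le_rpow e3 e2 (by positivity)
      _ = 4 ^ (γ / 2) * l ^ (γ / 2) := Real.mul_rpow (by norm_num) hl0.le
      _ ≤ 2 * Real.sqrt u := by
          apply mul_le_mul _ _ (by positivity) (by norm_num)
          · calc (4 : ℝ) ^ (γ / 2) ≤ 4 ^ (1 / 2 : ℝ) :=
                  Real.rpow_le_rpow_of_exponent_le (by norm_num) (by linarith)
              _ = 2 := by
                  rw [← Real.sqrt_eq_rpow, show (4 : ℝ) = 2 ^ 2 by norm_num]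
                  exact Real.sqrt_sq (by norm_num)
          · rw [hu, Real.sqrt_eq_rpow, ← Real.rpow_mul hl0.le]
            exact le_of_eq (by congr 1; ring)
  have hKm : (K : ℝ) + m ≤ 300 * (Real.log z) ^ γ := by
    rw [← hldef, ← hu]
    linarith
  -- the two parts
  have h3m : (3 : ℝ) ^ m ≤ Real.exp (2.4 * Real.sqrt u) := by
    have e0 : (3 : ℝ) ^ m = Real.exp (m * Real.log 3) := by
      rw [Real.exp_nat_mul, Real.exp_log (by norm_num)]
    rw [e0]
    apply Real.exp_le_exp.2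
    calc (m : ℝ) * Real.log 3 ≤ (2 * Real.sqrt u) * 1.2 :=
          mul_le_mul hm2 (by linarith) (Real.log_nonneg (by norm_num)) (by positivity)
      _ = _ := by ring
  have h24 : 2.4 * Real.sqrt u ≤ -(100 * Real.log ρ) * u := by
    set c' := -(100 * Real.log ρ) with hc'
    have hc'0 : 0 < c' := by linarith
    have e1 : 2.4 / c' ≤ Real.sqrt u := Real.le_sqrt_of_sq_le h3
    rw [div_le_iff₀ hc'0] at e1
    have e2 : Real.sqrt u * Real.sqrt u = u := Real.mul_self_sqrt hupos.le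
    nlinarith [Real.sqrt_nonneg u]
  set E := Real.exp (-c * u) with hE
  have hE0 : 0 < E := Real.exp_pos _
  have hP : l ^ B = u ^ ((B : ℝ) / γ) := by
    rw [hu, ← Real.rpow_mul hl0.le, mul_div_cancel₀ _ hγ0.ne', Real.rpow_natCast]
  have hPE : l ^ B * E ≤ 1 / 8 := by rw [hP]; exact h1
  have hE2 : (3 : ℝ) ^ m * ρ ^ K ≤ E := by
    have e0 : ρ ^ K = Real.exp (K * Real.log ρ) := by
      rw [Real.exp_nat_mul, Real.exp_log hρ0]
    rw [e0]
    calc (3 : ℝ) ^ m * Real.exp (K * Real.log ρ)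
        ≤ Real.exp (2.4 * Real.sqrt u) * Real.exp (K * Real.log ρ) :=
          mul_le_mul_of_nonneg_right h3m (Real.exp_pos _).le
      _ ≤ E := by
          rw [← Real.exp_add, hE]
          apply Real.exp_le_exp.2
          have e1 : (K : ℝ) * Real.log ρ ≤ 200 * u * Real.log ρ :=
            mul_le_mul_of_nonpos_right hK1 hlogρ.le
          have e2 : c * u ≤ -(100 * Real.log ρ) * u := mul_le_mul_of_nonneg_right hc2 hupos.le
          linarith
  intro v w hv hw
  obtain ⟨e, he1, he2⟩ := cls_unit' (SZ d A₀ z) A (2 * A) m hv w hw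
  rw [he2]
  refine (base_count hd hd3 hz1 hγ0.le hA₀ hKd hKm hApos hcl he1).trans ?_
  have hodA := hod K A hApos.le
  have h3m0 : (0 : ℝ) < 3 ^ m := by positivity
  have hS2 : (A + 2 ^ K) * ρ ^ K ≤ 2 * A * (E / 3 ^ m) := by
    calc (A + 2 ^ K) * ρ ^ K ≤ (2 * A) * (3 ^ m * ρ ^ K / 3 ^ m) := by
          rw [mul_div_cancel_left₀ _ h3m0.ne']
          apply mul_le_mul_of_nonneg_right _ (by positivity)
          linarith
      _ ≤ _ := by
          apply mul_le_mul_of_nonneg_left _ (by positivity)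
          exact div_le_div_of_nonneg_right hE2 h3m0.le
  have hfin : 2 * A * (E / 3 ^ m) ≤ 1 / 2 * (1 / l ^ B * (A / (2 * 3 ^ m))) := by
    have e1 : E ≤ 1 / 8 / l ^ B := by
      rw [le_div_iff₀ (by positivity), mul_comm]; exact hPE
    calc 2 * A * (E / 3 ^ m) = 2 * A / 3 ^ m * E := by ring
      _ ≤ 2 * A / 3 ^ m * (1 / 8 / l ^ B) := mul_le_mul_of_nonneg_left e1 (by positivity)
      _ = _ := by field_simp; norm_num
  have hS1 : (K : ℝ) * (4 * A / (3 ^ m * l ^ (B + 2))) ≤ 1 / 2 * (1 / l ^ B * (A / (2 * 3 ^ m))) := by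
    have e1 : (K : ℝ) ≤ l := by linarith
    calc (K : ℝ) * (4 * A / (3 ^ m * l ^ (B + 2))) ≤ l * (4 * A / (3 ^ m * l ^ (B + 2))) :=
          mul_le_mul_of_nonneg_right e1 (by positivity)
      _ = 1 / l ^ B * (A / (2 * 3 ^ m)) * (8 / l) := by
          rw [pow_add]
          field_simp
          ring
      _ ≤ 1 / l ^ B * (A / (2 * 3 ^ m)) * (1 / 2) := by
          apply mul_le_mul_of_nonneg_left _ (by positivity)
          rw [div_le_div_iff₀ hl0 (by norm_num)]
          linarith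
      _ = _ := by ring
  linarith

/-- one stage -/
theorem stageC {d : ℤ} (hd : Odd d) (hd3 : IsCoprime d 3) {S : Set ℤ} {Z : ℝ} (hZ : |(d : ℝ)| ≤ Z)
    (hS : FwdA d Z S) {A : ℝ} (hA : 0 < A) {k m m' : ℕ} (hk : 1 ≤ k) (hm' : m' ≤ k)
    (hAZ : 2 ^ (41 * k / 20) * Z ≤ A) {ρ : ℝ} (hρ : 0 ≤ ρ)
    (h : ∀ T : ℕ, 39 * k ≤ 20 * T → 20 * T ≤ 41 * k → PC S (A * 3 ^ k / 2 ^ T) m' ρ) :
    PC S A m (ρ + Err d A k m m') := by
  intro u v hu _
  obtain ⟨c, hc⟩ := cls_unit S A (2 * A) m hu v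
  rw [hc]
  have hZ0 : 0 ≤ Z := (abs_nonneg _).trans hZ
  have hTm : 41 * k / 20 ≤ k * (3 * k) := by nlinarith [Nat.div_mul_le_self (41 * k) 20]
  have h1 := starG hd hd3 (S := S) (fun _ => S) hA.le (3 * k) k m m' ((39 * k + 19) / 20) (41 * k / 20)
    (by
      intro w hw M x hM hx hAM _ hMS hV
      unfold GW at hw
      rw [mem_filter] at hw
      apply path_memA hd hZ hS w (FW_props hw.1).2 M x hM hx _ hMS hV
      refine le_trans ?_ hAM
      refine le_trans ?_ hAZ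
      apply mul_le_mul_of_nonneg_right _ hZ0
      exact pow_le_pow_right₀ (by norm_num) hw.2.2) hk hm' hTm c
  set G := GW (3 * k) k ((39 * k + 19) / 20) (41 * k / 20) with hG
  have h2 : ∑ w ∈ G, ((cls S (A * 3 ^ k / 2 ^ w.sum) (2 * (A * 3 ^ k / 2 ^ w.sum)) m'
            (2 ^ w.sum) (d * Wo w)).card : ℝ) ≤ ∑ w ∈ G, ρ * (A * 3 ^ k / (2 * 3 ^ m')) * wwt w := by
    apply sum_le_sum
    intro w hw
    rw [hG] at hw; unfold GW at hw; rw [mem_filter] at hw
    have h3 := h w.sum (by omega) (by omega) (2 ^ w.sum) (d * Wo w) (cop_two_pow _) (by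
      right
      rw [← cop3]
      apply IsCoprime.mul_left hd3
      have hl := (FW_props hw.1).1
      cases w with
      | nil => simp at hl; omega
      | cons e w' =>
        have e1 : ((Wo (e :: w') : ℕ) : ℤ) = 2 ^ w'.sum + 3 * (Wo w' : ℤ) := by
          rw [Wo_cons]; push_cast; ring
        rw [e1]
        exact IsCoprime.add_mul_left_left (cop_two_pow w'.sum) (Wo w' : ℤ))
    refine h3.trans (le_of_eq ?_)
    unfold wwt
    rw [one_div, inv_pow]
    field_simp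
  have hmass1 : ∑ w ∈ G, wwt w ≤ 1 := by
    refine le_trans ?_ (sum_wwt_le (3 * k) k)
    rw [hG]; unfold GW
    apply sum_le_sum_of_subset_of_nonneg (filter_subset _ _)
    intro w _ _; unfold wwt; positivity
  rw [← mul_sum] at h2
  have h4 : (∑ w ∈ G, ((cls S (A * 3 ^ k / 2 ^ w.sum) (2 * (A * 3 ^ k / 2 ^ w.sum)) m'
            (2 ^ w.sum) (d * Wo w)).card : ℝ)) / 3 ^ (k + m - m') ≤ ρ * (A / (2 * 3 ^ m)) := by
    rw [div_le_iff₀ (by positivity)]
    refine h2.trans ?_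
    have h5 : ρ * (A * 3 ^ k / (2 * 3 ^ m')) * ∑ w ∈ G, wwt w ≤ ρ * (A * 3 ^ k / (2 * 3 ^ m')) * 1 :=
      mul_le_mul_of_nonneg_left hmass1 (by positivity)
    refine h5.trans (le_of_eq ?_)
    have h6 : (3 : ℝ) ^ (k + m - m') * 3 ^ m' = 3 ^ k * 3 ^ m := by
      rw [← pow_add, ← pow_add]; congr 1; omega
    have h7 : (3 : ℝ) ^ k = 3 ^ (k + m - m') * 3 ^ m' / 3 ^ m := by
      rw [h6]; field_simp
    rw [h7]
    field_simp
  have hfac : A / (2 * 3 ^ m) * (2 * 3 ^ m / A) = 1 := by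
    field_simp
  have hEq : (ρ + Err d A k m m') * (A / (2 * 3 ^ m)) = ρ * (A / (2 * 3 ^ m))
      + (A / (2 * 3 ^ m) + 2 ^ (41 * k / 20))
          * (∑ T ∈ range (k * (3 * k) + 1), dev (FWT (3 * k) k T) wwt (fun w => (Wo w : ℤ)) (k + m) m')
      + A / (2 * 3 ^ m) * (1 - ∑ w ∈ G, wwt w) + 1 + (|(d : ℝ)| + 2) * 2 ^ (41 * k / 20) := by
    unfold Err
    rw [← hG]
    set δ := ∑ T ∈ range (k * (3 * k) + 1), dev (FWT (3 * k) k T) wwt (fun w => (Wo w : ℤ)) (k + m) m'
    set X := (2 : ℝ) ^ (41 * k / 20)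
    set Y := A / (2 * 3 ^ m) with hY
    set Z' := 2 * 3 ^ m / A with hZ'
    set μ := ∑ w ∈ G, wwt w
    have : (ρ + ((1 + X * Z') * δ + (1 - μ) + (1 + (|(d : ℝ)| + 2) * X) * Z')) * Y
        = ρ * Y + (Y + X * (Y * Z')) * δ + Y * (1 - μ) + (1 + (|(d : ℝ)| + 2) * X) * (Y * Z') := by ring
    rw [this, hfac]
    ring
  rw [hEq]
  linarith

end Run7.h702.AT
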