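import Pool.Agent.Run7.h702.AT.B

/-! Sets which are rare in the residue classes modulo powers of 3, part C: all scales, all integers. The steps are those
of `Pool.Agent.R344.TH` (parts E and F), with classes prime to 3. -/

set_option autoImplicit false

namespace Run7.h702.AT

open Finset
open Pool.Agent.H320R2.PD Pool.Agent.H499R2.ND
open Pool.Agent.H499R2.CO (Tz)
open Pool.Agent.R344.SP Pool.Agent.R344.TH

/-- all scales -/
theorem SZ_PC {d : ℤ} (hd : Odd d) (hd3 : IsCoprime d 3) {γ : ℝ} (hγ0 : 0 < γ) (hγ : γ ≤ 1 / 2)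
    (B : ℕ) (hB : 1 ≤ B) :
    ∃ l₀ K : ℝ, 0 < l₀ ∧ 0 < K ∧ ∀ z : ℝ, 0 < z → l₀ ≤ Real.log z → ∀ A₀ : Set ℤ,
      RC A₀ z γ (B + 2) →
      ∀ A : ℝ, z / 2 ≤ A → ∀ m : ℕ,
        (m : ℝ) ≤ (Real.log A) ^ (γ / 2) → PC (SZ d A₀ z) A m (K / (Real.log z) ^ B) := by
  have hd2 : d % 2 = 1 := Int.odd_iff.1 hd
  obtain ⟨l₀, hl₀, hbase⟩ := base_PC hd2 (cop3.1 hd3) hγ0 hγ B
  obtain ⟨C, hC, herr⟩ := err_bound2 hγ0 hγ (B + 1) d
  refine ⟨max (max l₀ 1000) (max ((16 : ℝ) ^ (1 / γ)) |(d : ℝ)|), 1 + 2 * C, by positivity, by positivity, ?_⟩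
  intro z hz hl A₀ hA₀
  set l := Real.log z with hldef
  have hll : l₀ ≤ l := (le_max_left _ _).trans ((le_max_left _ _).trans hl)
  have hl1000 : 1000 ≤ l := (le_max_right _ _).trans ((le_max_left _ _).trans hl)
  have hl16 : (16 : ℝ) ^ (1 / γ) ≤ l := (le_max_left _ _).trans ((le_max_right _ _).trans hl)
  have hld : |(d : ℝ)| ≤ l := (le_max_right _ _).trans ((le_max_right _ _).trans hl)
  have hl0 : 0 < l := by linarith
  have hexpz : Real.exp l = z := Real.exp_log hz
  have hdz : |(d : ℝ)| ≤ z := by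
    rw [← hexpz]; linarith [Real.add_one_le_exp l]
  have h16 : ∀ t : ℝ, l ≤ t → 16 ≤ t ^ γ := by
    intro t ht
    have h1 : ((16 : ℝ) ^ (1 / γ)) ^ γ ≤ t ^ γ :=
      Real.rpow_le_rpow (by positivity) (hl16.trans ht) hγ0.le
    rwa [← Real.rpow_mul (by positivity), one_div, inv_mul_cancel₀ hγ0.ne', Real.rpow_one] at h1
  set S := SZ d A₀ z with hS
  have hfwd : FwdA d (2 * z) S := SZ_fwd hd2 hz
  have hln2a := Real.log_two_gt_d9
  have hln2b := Real.log_two_lt_d9
  have hplB : 0 < l ^ B := by positivity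
  have hmono : ∀ s : ℝ, l ≤ s → 1 / s ^ B ≤ 1 / l ^ B := fun s hs =>
    one_div_le_one_div_of_le hplB (pow_le_pow_left₀ hl0.le hs B)
  have main : ∀ n : ℕ, ∀ A : ℝ, 0 < A → l ≤ Real.log A → Real.log A ≤ l + n → ∀ m : ℕ,
      (m : ℝ) ≤ (Real.log A) ^ (γ / 2) →
        PC S A m (1 / l ^ B + C * (2 * (1 / l ^ B) - 1 / (Real.log A) ^ B)) := by
    intro n
    induction n with
    | zero =>
      intro A hA hlA hAn m hm
      rw [Nat.cast_zero, add_zero] at hAn
      have hAz : z / 2 ≤ A := by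
        have : z ≤ A := by
          rw [← hexpz, ← Real.exp_log hA]; exact Real.exp_le_exp.2 hlA
        linarith
      have h1 := hbase z hz hll A₀ hA₀ A hAz (by
        have : 0 < l ^ γ := by positivity
        linarith) m hm
      intro u v hu hv
      refine (h1 u v hu hv).trans ?_
      apply mul_le_mul_of_nonneg_right _ (by positivity)
      have h2 := hmono _ hlA
      have h3 : 0 ≤ C * (2 * (1 / l ^ B) - 1 / Real.log A ^ B) := by
        apply mul_nonneg hC.le
        have : 0 < 1 / l ^ B := by positivity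
        linarith
      linarith
    | succ n ih =>
      intro A hA hlA hAn m hm
      set t := Real.log A with htdef
      have ht0 : 0 < t := by linarith
      have hexpA : Real.exp t = A := Real.exp_log hA
      rcases le_or_gt t (l + 3 * l ^ γ) with hcase | hcase
      · have hAz : z / 2 ≤ A := by
          have : z ≤ A := by
            rw [← hexpz, ← hexpA]; exact Real.exp_le_exp.2 hlA
          linarith
        have h1 := hbase z hz hll A₀ hA₀ A hAz hcase m hm
        intro u v hu hv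
        refine (h1 u v hu hv).trans ?_
        apply mul_le_mul_of_nonneg_right _ (by positivity)
        have h2 := hmono _ hlA
        have h3 : 0 ≤ C * (2 * (1 / l ^ B) - 1 / t ^ B) := by
          apply mul_nonneg hC.le
          have : 0 < 1 / l ^ B := by positivity
          linarith
        linarith
      · obtain ⟨k, hk⟩ : ∃ k : ℕ, k = ⌊t ^ γ⌋₊ := ⟨_, rfl⟩
        obtain ⟨m', hm'⟩ : ∃ m' : ℕ, m' = ⌊(0.9 * t) ^ (γ / 2)⌋₊ := ⟨_, rfl⟩
        have ht1000 : 1000 ≤ t := by linarith
        set r := t ^ (γ / 2) with hr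
        have hrsq : r ^ 2 = t ^ γ := by
          rw [hr, ← Real.rpow_natCast, ← Real.rpow_mul ht0.le]; congr 1; push_cast; ring
        have hr0 : 0 < r := by positivity
        have ht16 := h16 t hlA
        have hr4 : 4 ≤ r := by
          by_contra hcon
          push Not at hcon
          nlinarith
        have hsqrt : t ^ γ ≤ Real.sqrt t := by
          rw [Real.sqrt_eq_rpow]
          exact Real.rpow_le_rpow_of_exponent_le (by linarith) hγ
        have hsq31 : Real.sqrt t ≤ t / 31 := by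
          rw [Real.sqrt_le_left (by positivity)]
          nlinarith
        have hk1 : (k : ℝ) ≤ t ^ γ := by rw [hk]; exact Nat.floor_le (by positivity)
        have hk2 : t ^ γ - 1 ≤ k := by rw [hk]; linarith [Nat.lt_floor_add_one (t ^ γ)]
        have hk15 : (15 : ℝ) ≤ k := by linarith
        have hk1N : 1 ≤ k := by
          have : (1 : ℝ) ≤ k := by linarith
          exact_mod_cast this
        have hm'2 : (m' : ℝ) ≤ r := by
          rw [hm']
          refine (Nat.floor_le (by positivity)).trans ?_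
          exact Real.rpow_le_rpow (by positivity) (by linarith) (by positivity)
        have hm'k : m' ≤ k := by
          have : (m' : ℝ) ≤ k := by nlinarith
          exact_mod_cast this
        -- the room between `t` and `l`
        have hroom : l + 1.43 * t ^ γ + 0.7 ≤ t := by
          rcases le_or_gt t (4 * l) with h4 | h4
          · have e1 : t ^ γ ≤ 2 * l ^ γ := by
              calc t ^ γ ≤ (4 * l) ^ γ := Real.rpow_le_rpow ht0.le h4 hγ0.le
                _ = 4 ^ γ * l ^ γ := Real.mul_rpow (by norm_num) hl0.le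
                _ ≤ 2 * l ^ γ := by
                    apply mul_le_mul_of_nonneg_right _ (by positivity)
                    calc (4 : ℝ) ^ γ ≤ 4 ^ (1 / 2 : ℝ) :=
                          Real.rpow_le_rpow_of_exponent_le (by norm_num) hγ
                      _ = 2 := by
                          rw [← Real.sqrt_eq_rpow, show (4 : ℝ) = 2 ^ 2 by norm_num]
                          exact Real.sqrt_sq (by norm_num)
            have e2 := h16 l le_rfl
            linarith
          · linarith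
        have hpath : (2 : ℝ) ^ (41 * k / 20) * (2 * z) ≤ A := by
          have e1 : (2 : ℝ) ^ (41 * k / 20) = Real.exp (((41 * k / 20 : ℕ) : ℝ) * Real.log 2) := by
            rw [Real.exp_nat_mul, Real.exp_log (by norm_num)]
          have e2 : 2 * z = Real.exp (Real.log 2 + l) := by
            rw [Real.exp_add, Real.exp_log (by norm_num), hexpz]
          rw [e1, e2, ← hexpA, ← Real.exp_add]
          apply Real.exp_le_exp.2
          have e3 : 20 * (41 * k / 20) ≤ 41 * k := Nat.mul_div_le _ _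
          have e4 : (20 : ℝ) * ((41 * k / 20 : ℕ) : ℝ) ≤ 41 * k := by exact_mod_cast e3
          have e5 : ((41 * k / 20 : ℕ) : ℝ) * Real.log 2 ≤ (41 / 20 * t ^ γ) * 0.6931471808 :=
            mul_le_mul (by linarith) hln2b.le (by linarith) (by positivity)
          have e6 : 0 < t ^ γ := by positivity
          nlinarith
        have hE := herr A hA ht1000 hr4 k m m' hm hk hm'
        rw [← htdef] at hE
        have ht1l : l ≤ t - 1 := by
          have : 0 < t ^ γ := by positivity
          linarith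
        have hρ : 0 ≤ 1 / l ^ B + C * (2 * (1 / l ^ B) - 1 / (t - 1) ^ B) := by
          have e1 := hmono (t - 1) ht1l
          have e2 : 0 < 1 / l ^ B := by positivity
          have e3 : 0 ≤ C * (2 * (1 / l ^ B) - 1 / (t - 1) ^ B) := mul_nonneg hC.le (by linarith)
          linarith
        have hst := stageC hd hd3 (Z := 2 * z) (by linarith) hfwd hA hk1N hm'k (m := m) hpath hρ (by
          intro T hT1 hT2
          have hn := next_scale2 hA hT1 hT2
          rw [← htdef] at hn
          have hA'pos : 0 < A * 3 ^ k / 2 ^ T := by positivity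
          have hge : l ≤ Real.log (A * 3 ^ k / 2 ^ T) := by
            have : 0 < t ^ γ := by positivity
            linarith [hn.1]
          have hih := ih (A * 3 ^ k / 2 ^ T) hA'pos hge (by
              push_cast at hAn
              linarith [hn.2]) m' (by
              rw [hm']
              refine (Nat.floor_le (by positivity)).trans ?_
              apply Real.rpow_le_rpow (by positivity) _ (by positivity)
              linarith [hn.1])
          intro u v hu hv
          refine (hih u v hu hv).trans ?_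
          apply mul_le_mul_of_nonneg_right _ (by positivity)
          apply add_le_add_right
          apply mul_le_mul_of_nonneg_left _ hC.le
          have : 1 / (t - 1) ^ B ≤ 1 / Real.log (A * 3 ^ k / 2 ^ T) ^ B :=
            one_div_le_one_div_of_le (pow_pos (by linarith) B)
              (pow_le_pow_left₀ (by linarith) (by linarith [hn.2]) B)
          linarith)
        intro u v hu hv
        refine (hst u v hu hv).trans ?_
        apply mul_le_mul_of_nonneg_right _ (by positivity)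
        have e1 := pow_step B hB (t := t) (by linarith)
        have e2 := mul_le_mul_of_nonneg_left e1 hC.le
        have e3 : C / t ^ (B + 1) = C * (1 / t ^ (B + 1)) := by ring
        rw [e3] at hE
        rw [mul_sub, mul_sub]
        linarith
  intro A hAz m hm
  have hA : 0 < A := by linarith
  rcases le_or_gt l (Real.log A) with hc | hc
  · obtain ⟨n, hn⟩ := exists_nat_ge (Real.log A - l)
    have h1 := main n A hA hc (by linarith) m hm
    intro u v hu hv
    refine (h1 u v hu hv).trans ?_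
    apply mul_le_mul_of_nonneg_right _ (by positivity)
    have e1 : 0 < 1 / (Real.log A) ^ B := by
      have : 0 < Real.log A := by linarith
      positivity
    have e2 : (1 + 2 * C) / l ^ B = 1 / l ^ B + C * (2 * (1 / l ^ B)) := by ring
    rw [e2]
    have := mul_nonneg hC.le e1.le
    rw [mul_sub]
    linarith
  · have h1 := hbase z hz hll A₀ hA₀ A hAz (by
      have : 0 < l ^ γ := by positivity
      linarith) m hm
    intro u v hu hv
    refine (h1 u v hu hv).trans ?_
    apply mul_le_mul_of_nonneg_right _ (by positivity)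
    apply div_le_div_of_nonneg_right _ hplB.le
    linarith

open scoped Classical in
/-- odd elements up to `X` -/
theorem odd_countC {S : Set ℤ} {z ρ X : ℝ} (hρ : 0 ≤ ρ) (hS : ∀ x ∈ S, z ≤ (x : ℝ))
    (hPB : ∀ A : ℝ, z / 2 ≤ A → PC S A 0 ρ) (hX : 0 < X) :
    (((Icc (1 : ℤ) ⌊X⌋).filter (fun x => Odd x ∧ x ∈ S)).card : ℝ) ≤ ρ * X := by
  obtain ⟨J, hJ⟩ : ∃ J : ℕ, X < 2 ^ J := pow_unbounded_of_one_lt X (by norm_num)
  have hsub : (Icc (1 : ℤ) ⌊X⌋).filter (fun x => Odd x ∧ x ∈ S)
      ⊆ (range (J + 1)).biUnion (fun j => cls S (X * (1 / 2) ^ j) (2 * (X * (1 / 2) ^ j)) 0 1 0) := by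
    intro x hx
    rw [mem_filter, Finset.mem_Icc, Int.le_floor] at hx
    obtain ⟨⟨hx1, hx2⟩, hx3, hx4⟩ := hx
    have hx1R : (1 : ℝ) ≤ x := by exact_mod_cast hx1
    have hx0 : (0 : ℝ) < x := by linarith
    obtain ⟨i, hi1, hi2⟩ := exists_nat_pow_near (x := 2 * X / (x : ℝ)) (y := 2)
      (by rw [le_div_iff₀ hx0]; linarith) (by norm_num)
    rw [le_div_iff₀ hx0] at hi1
    rw [div_lt_iff₀ hx0] at hi2
    rw [mem_biUnion]
    -- `2^i x ≤ 2X < 2^(i+1) x`
    have hiJ : i < J + 1 := by
      by_contra hcon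
      push Not at hcon
      have h1 : (2 : ℝ) ^ (J + 1) ≤ 2 ^ i := pow_le_pow_right₀ (by norm_num) hcon
      rw [pow_succ] at h1
      nlinarith
    have h2i : (0 : ℝ) < 2 ^ i := by positivity
    have hhalf : ((1 / 2 : ℝ)) ^ i = 1 / 2 ^ i := by rw [div_pow, one_pow]
    rcases eq_or_lt_of_le hi1 with heq | hlt
    · -- boundary: `2^i x = 2X`: then `i ≥ 1`, use `i - 1`
      rcases Nat.eq_zero_or_pos i with rfl | hi0
      · exfalso
        rw [pow_zero, one_mul] at heq; linarith
      · refine ⟨i - 1, mem_range.2 (by omega), ?_⟩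
        obtain ⟨i', rfl⟩ : ∃ i', i = i' + 1 := ⟨i - 1, by omega⟩
        rw [Nat.add_sub_cancel, mem_cls]
        have h2i' : (0 : ℝ) < 2 ^ i' := by positivity
        have hhalf' : ((1 / 2 : ℝ)) ^ i' = 1 / 2 ^ i' := by rw [div_pow, one_pow]
        rw [pow_succ] at heq
        rw [hhalf']
        refine ⟨⟨?_, ?_⟩, hx3, hx4, by simp⟩
        · rw [mul_one_div, div_le_iff₀ h2i']; linarith
        · rw [mul_one_div, ← mul_div_assoc, lt_div_iff₀ h2i']; nlinarith
    · refine ⟨i, mem_range.2 hiJ, ?_⟩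
      rw [mem_cls, hhalf]
      rw [pow_succ] at hi2
      refine ⟨⟨?_, ?_⟩, hx3, hx4, by simp⟩
      · rw [mul_one_div, div_le_iff₀ h2i]; linarith
      · rw [mul_one_div, ← mul_div_assoc, lt_div_iff₀ h2i]; linarith
  have h1 : (((Icc (1 : ℤ) ⌊X⌋).filter (fun x => Odd x ∧ x ∈ S)).card : ℝ)
      ≤ ∑ j ∈ range (J + 1), ((cls S (X * (1 / 2) ^ j) (2 * (X * (1 / 2) ^ j)) 0 1 0).card : ℝ) := by
    have := (card_le_card hsub).trans card_biUnion_le
    exact_mod_cast this
  refine h1.trans ?_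
  have h2 : ∀ j ∈ range (J + 1), ((cls S (X * (1 / 2) ^ j) (2 * (X * (1 / 2) ^ j)) 0 1 0).card : ℝ)
      ≤ ρ * X / 2 * (1 / 2) ^ j := by
    intro j _
    rcases le_or_gt (z / 2) (X * (1 / 2) ^ j) with hc | hc
    · refine (hPB _ hc 1 0 isCoprime_one_left (Or.inl rfl)).trans (le_of_eq ?_)
      rw [pow_zero]; ring
    · have : cls S (X * (1 / 2) ^ j) (2 * (X * (1 / 2) ^ j)) 0 1 0 = ∅ := by
        rw [Finset.eq_empty_iff_forall_notMem]
        intro x hx
        rw [mem_cls] at hx
        have := hS x hx.2.2.1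
        linarith [hx.1.2]
      rw [this, card_empty, Nat.cast_zero]
      positivity
  refine (sum_le_sum h2).trans ?_
  rw [← mul_sum]
  have h3 := geom_half (J + 1)
  calc ρ * X / 2 * ∑ j ∈ range (J + 1), (1 / 2 : ℝ) ^ j ≤ ρ * X / 2 * 2 :=
        mul_le_mul_of_nonneg_left h3 (by positivity)
    _ = ρ * X := by ring

open scoped Classical in
/-- the count of all integers whose trajectory meets `A₀` before going below `Y` -/
theorem HY_countC {d : ℤ} (hd : Odd d) (hd3 : IsCoprime d 3) {γ : ℝ} (hγ0 : 0 < γ) (hγ : γ ≤ 1 / 2)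
    (B : ℕ) :
    ∃ l₀ K : ℝ, 0 < l₀ ∧ 0 < K ∧ ∀ Y : ℝ, 0 < Y → l₀ ≤ Real.log Y → ∀ A₀ : Set ℤ,
      RC A₀ Y γ (B + 4) →
      ∀ N : ℕ, (((Icc (1 : ℤ) N).filter (fun n => n ∈ HY d A₀ Y)).card : ℝ)
        ≤ K * N / (Real.log Y) ^ B := by
  obtain ⟨l₀, K, hl₀, hK, hPB⟩ := SZ_PC hd hd3 hγ0 hγ (B + 2) (by omega)
  refine ⟨max l₀ 1, 8 * K + 2, by positivity, by positivity, ?_⟩
  intro Y hY hl A₀ hA₀ N
  set l := Real.log Y with hldef
  have hll : l₀ ≤ l := (le_max_left _ _).trans hl
  have hl1 : 1 ≤ l := (le_max_right _ _).trans hl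
  have hl0 : 0 < l := by linarith
  rcases Nat.eq_zero_or_pos N with rfl | hN
  · simp
  have hNR : (0 : ℝ) < N := by exact_mod_cast hN
  -- odd numbers
  have hoddc : ∀ X : ℝ, 0 < X → (((Icc (1 : ℤ) ⌊X⌋).filter (fun x => Odd x ∧ x ∈ HY d A₀ Y)).card : ℝ)
      ≤ 4 * K / l ^ B * X := by
    intro X hX
    obtain ⟨I, hI⟩ : ∃ I : ℕ, X / Y < 2 ^ I := pow_unbounded_of_one_lt _ (by norm_num)
    rw [div_lt_iff₀ hY] at hI
    have hsub : (Icc (1 : ℤ) ⌊X⌋).filter (fun x => Odd x ∧ x ∈ HY d A₀ Y)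
        ⊆ (range I).biUnion (fun i => (Icc (1 : ℤ) ⌊X⌋).filter
            (fun x => Odd x ∧ x ∈ SZ d A₀ (Y * 2 ^ i))) := by
      intro x hx
      rw [mem_filter] at hx
      obtain ⟨hx1, hx2, hx3⟩ := hx
      obtain ⟨i, hi⟩ := HY_sub hY hx3
      rw [mem_biUnion]
      refine ⟨i, ?_, mem_filter.2 ⟨hx1, hx2, hi⟩⟩
      rw [mem_range]
      by_contra hcon
      push Not at hcon
      have h1 := SZ_ge hi
      rw [Finset.mem_Icc, Int.le_floor] at hx1
      have h2 : (2 : ℝ) ^ I ≤ 2 ^ i := pow_le_pow_right₀ (by norm_num) hcon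
      have h3 : 2 ^ I * Y ≤ Y * 2 ^ i := by
        rw [mul_comm]; exact mul_le_mul_of_nonneg_left h2 hY.le
      linarith [hx1.2]
    have h1 : (((Icc (1 : ℤ) ⌊X⌋).filter (fun x => Odd x ∧ x ∈ HY d A₀ Y)).card : ℝ)
        ≤ ∑ i ∈ range I, (((Icc (1 : ℤ) ⌊X⌋).filter
            (fun x => Odd x ∧ x ∈ SZ d A₀ (Y * 2 ^ i))).card : ℝ) := by
      have := (card_le_card hsub).trans card_biUnion_le
      exact_mod_cast this
    refine h1.trans ?_
    have h2 : ∀ i ∈ range I, (((Icc (1 : ℤ) ⌊X⌋).filter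
            (fun x => Odd x ∧ x ∈ SZ d A₀ (Y * 2 ^ i))).card : ℝ)
        ≤ K * X * (1 / (l + i * Real.log 2) ^ (B + 2)) := by
      intro i _
      have hYi : 0 < Y * 2 ^ i := by positivity
      have hlog : Real.log (Y * 2 ^ i) = l + i * Real.log 2 := by
        rw [Real.log_mul hY.ne' (by positivity), Real.log_pow]
      have hlog2 : 0 ≤ (i : ℝ) * Real.log 2 := by positivity
      have h3 := odd_countC (S := SZ d A₀ (Y * 2 ^ i)) (z := Y * 2 ^ i)
        (ρ := K / (Real.log (Y * 2 ^ i)) ^ (B + 2)) (X := X)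
        (by rw [hlog]; positivity) (fun x hx => SZ_ge hx)
        (fun A hA => hPB (Y * 2 ^ i) hYi (by rw [hlog]; linarith) A₀ (hA₀.mono (le_mul_of_one_le_right hY.le (one_le_pow₀ (by norm_num)))) A hA 0 (by
          rw [Nat.cast_zero]
          apply Real.rpow_nonneg
          apply Real.log_nonneg
          have h2Y : 2 ≤ Y := by
            have := Real.add_one_le_exp l
            rw [Real.exp_log hY] at this
            linarith
          have : (1 : ℝ) ≤ 2 ^ i := one_le_pow₀ (by norm_num)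
          nlinarith)) hX
      refine h3.trans (le_of_eq ?_)
      rw [hlog]; ring
    refine (sum_le_sum h2).trans ?_
    rw [← mul_sum]
    have h4 := sum_scales B hl1 I
    calc K * X * ∑ i ∈ range I, 1 / (l + ↑i * Real.log 2) ^ (B + 2) ≤ K * X * (4 / l ^ B) :=
          mul_le_mul_of_nonneg_left h4 (by positivity)
      _ = _ := by ring
  -- all numbers
  obtain ⟨E, hE⟩ : ∃ E : ℕ, (N : ℝ) < 2 ^ E := pow_unbounded_of_one_lt _ (by norm_num)
  set F₁ : ℕ → Finset ℤ := fun e => ((Icc (1 : ℤ) ⌊(N : ℝ) * (1 / 2) ^ e⌋).filter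
    (fun x => Odd x ∧ x ∈ HY d A₀ Y)).image (fun x => 2 ^ e * x) with hF₁
  set F₂ : ℕ → Finset ℤ := fun e => (fA A₀ Y ((N : ℝ) * (1 / 2) ^ e)).image (fun x => 2 ^ e * x) with hF₂
  have hsub : (Icc (1 : ℤ) N).filter (fun n => n ∈ HY d A₀ Y)
      ⊆ (range E).biUnion F₁ ∪ (range E).biUnion F₂ := by
    intro n hn
    rw [mem_filter, Finset.mem_Icc] at hn
    obtain ⟨⟨hn1, hn2⟩, k, hk1, hk2⟩ := hn
    obtain ⟨e, M, hMo, hM0, hnM⟩ := odd_part (by omega : 0 < n)
    have hnNR : (n : ℝ) ≤ N := by exact_mod_cast hn2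
    have hnMR : (n : ℝ) = 2 ^ e * M := by exact_mod_cast hnM
    have hM1 : (1 : ℝ) ≤ M := by
      have : (1 : ℤ) ≤ M := by omega
      exact_mod_cast this
    have hbnd : ∀ i ≤ e, i < E := by
      intro i hi
      by_contra hcon
      push Not at hcon
      have h1 : (2 : ℝ) ^ E ≤ 2 ^ e := pow_le_pow_right₀ (by norm_num) (by omega)
      have h2 : (2 : ℝ) ^ e ≤ n := by rw [hnMR]; exact le_mul_of_one_le_right (by positivity) hM1
      linarith
    rw [mem_union, mem_biUnion, mem_biUnion]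
    rcases le_or_gt e k with hek | hek
    · left
      refine ⟨e, mem_range.2 (hbnd e le_rfl), ?_⟩
      rw [hF₁]
      simp only [mem_image, mem_filter, Finset.mem_Icc, Int.le_floor]
      have hTe : (Tz d)^[e] n = M := by
        rw [hnM, iter_pow_two M e e le_rfl]; simp
      have hsh : ∀ j, (Tz d)^[j] M = (Tz d)^[j + e] n := by
        intro j
        rw [Function.iterate_add_apply, hTe]
      refine ⟨M, ⟨⟨by omega, ?_⟩, hMo, k - e, ?_, ?_⟩, hnM.symm⟩
      · rw [one_div, inv_pow, ← div_eq_mul_inv, le_div_iff₀ (by positivity)]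
        linarith
      · rw [hsh, Nat.sub_add_cancel hek]; exact hk1
      · intro j hj
        rw [hsh]; exact hk2 _ (by omega)
    · right
      refine ⟨k, mem_range.2 (hbnd k hek.le), ?_⟩
      rw [hF₂]
      simp only [mem_image]
      have hTk : (Tz d)^[k] n = 2 ^ (e - k) * M := by
        rw [hnM, iter_pow_two M k e hek.le]
      refine ⟨2 ^ (e - k) * M, ?_, ?_⟩
      · rw [mem_fA, ← hTk]
        refine ⟨⟨hk2 k le_rfl, ?_⟩, hk1⟩
        rw [hTk, one_div, inv_pow, ← div_eq_mul_inv, le_div_iff₀ (by positivity)]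
        push_cast
        calc (2 : ℝ) ^ (e - k) * M * 2 ^ k = (2 ^ (e - k) * 2 ^ k) * M := by ring
          _ = 2 ^ e * M := by rw [← pow_add, Nat.sub_add_cancel hek.le]
          _ ≤ N := by rw [← hnMR]; exact hnNR
      · rw [← mul_assoc, ← pow_add, Nat.add_sub_cancel' hek.le]; exact hnM.symm
  have hc1 : (((Icc (1 : ℤ) N).filter (fun n => n ∈ HY d A₀ Y)).card : ℝ)
      ≤ ∑ e ∈ range E, ((F₁ e).card : ℝ) + ∑ e ∈ range E, ((F₂ e).card : ℝ) := by
    have h1 := (card_le_card hsub).trans (card_union_le _ _)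
    have h2 : ((range E).biUnion F₁).card ≤ ∑ e ∈ range E, (F₁ e).card := card_biUnion_le
    have h3 : ((range E).biUnion F₂).card ≤ ∑ e ∈ range E, (F₂ e).card := card_biUnion_le
    have h4 := h1.trans (add_le_add h2 h3)
    exact_mod_cast h4
  have hF₁c : ∀ e ∈ range E, ((F₁ e).card : ℝ) ≤ 4 * K / l ^ B * N * (1 / 2) ^ e := by
    intro e _
    have h1 : ((F₁ e).card : ℝ) ≤ (((Icc (1 : ℤ) ⌊(N : ℝ) * (1 / 2) ^ e⌋).filter
      (fun x => Odd x ∧ x ∈ HY d A₀ Y)).card : ℝ) := by exact_mod_cast card_image_le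
    refine h1.trans ((hoddc _ (by positivity)).trans (le_of_eq ?_))
    ring
  have hF₂c : ∀ e ∈ range E, ((F₂ e).card : ℝ) ≤ 1 / l ^ B * N * (1 / 2) ^ e := by
    intro e _
    have h1 : ((F₂ e).card : ℝ) ≤ ((fA A₀ Y ((N : ℝ) * (1 / 2) ^ e)).card : ℝ) := by
      exact_mod_cast card_image_le
    refine h1.trans ?_
    rcases le_or_gt Y ((N : ℝ) * (1 / 2) ^ e) with hc | hc
    · have h2 := hA₀ _ hc 0 (by
        have : l ≤ Real.log ((N : ℝ) * (1 / 2) ^ e) := Real.log_le_log hY hc
        rw [Nat.cast_zero]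
        have : 0 ≤ Real.log ((N : ℝ) * (1 / 2) ^ e) := by linarith
        positivity) 0 (Or.inl rfl)
      have h3 : fC A₀ Y ((N : ℝ) * (1 / 2) ^ e) 0 0 = fA A₀ Y ((N : ℝ) * (1 / 2) ^ e) := by
        ext x
        rw [mem_fC, mem_fA]
        simp
      rw [h3, pow_zero, one_mul] at h2
      refine h2.trans ?_
      have hlog : l ≤ Real.log ((N : ℝ) * (1 / 2) ^ e) := Real.log_le_log hY hc
      have h4 : l ^ B ≤ Real.log ((N : ℝ) * (1 / 2) ^ e) ^ (B + 4) :=
        (pow_le_pow_right₀ hl1 (by omega)).trans (pow_le_pow_left₀ hl0.le hlog _)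
      have h5 : 0 < (N : ℝ) * (1 / 2) ^ e := by positivity
      calc (N : ℝ) * (1 / 2) ^ e / Real.log ((N : ℝ) * (1 / 2) ^ e) ^ (B + 4)
          ≤ (N : ℝ) * (1 / 2) ^ e / l ^ B := div_le_div_of_nonneg_left h5.le (by positivity) h4
        _ = _ := by ring
    · have : fA A₀ Y ((N : ℝ) * (1 / 2) ^ e) = ∅ := by
        rw [Finset.eq_empty_iff_forall_notMem]
        intro x hx
        rw [mem_fA] at hx
        linarith [hx.1.1, hx.1.2]
      rw [this, card_empty, Nat.cast_zero]
      positivity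
  have hgeo := geom_half E
  have hs1 : ∑ e ∈ range E, ((F₁ e).card : ℝ) ≤ 8 * K * N / l ^ B := by
    refine (sum_le_sum hF₁c).trans ?_
    rw [← mul_sum]
    calc 4 * K / l ^ B * N * ∑ i ∈ range E, (1 / 2 : ℝ) ^ i ≤ 4 * K / l ^ B * N * 2 :=
          mul_le_mul_of_nonneg_left hgeo (by positivity)
      _ = _ := by ring
  have hs2 : ∑ e ∈ range E, ((F₂ e).card : ℝ) ≤ 2 * N / l ^ B := by
    refine (sum_le_sum hF₂c).trans ?_
    rw [← mul_sum]
    calc 1 / l ^ B * N * ∑ i ∈ range E, (1 / 2 : ℝ) ^ i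
        ≤ 1 / l ^ B * N * 2 := mul_le_mul_of_nonneg_left hgeo (by positivity)
      _ = _ := by ring
  calc (((Icc (1 : ℤ) N).filter (fun n => n ∈ HY d A₀ Y)).card : ℝ)
      ≤ 8 * K * N / l ^ B + 2 * N / l ^ B := by linarith
    _ = _ := by ring

end Run7.h702.AT
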