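import Pool.Agent.Run7.h702.AT.C
import Pool.Agent.Run7.h702.CL.Traj

/-! All the terms of almost every trajectory of the `3 x + d` maps: properties with a class theorem. -/

set_option autoImplicit false

namespace Run7.h702.AT

open Finset Filter
open Pool.Agent.H499R2.CO (Tz)
open Pool.Agent.R344.TH
open Run7.h702.CL

/-- the integers `x` with a small multiple `u x` without the property `Q` -/
def UA (Q : ℤ → Prop) (U : ℕ) : Set ℤ :=
  {x : ℤ | ∃ u : ℤ, u ≠ 0 ∧ (u.natAbs : ℝ) ≤ Real.log x ^ U ∧ ¬ Q (u * x)}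

theorem ev_large {θ : ℝ} (hθ : 0 < θ) (U : ℕ) : ∀ᶠ L : ℝ in atTop,
    L ^ U * Real.exp (340 * L ^ (1 / 2 : ℝ)) ≤ Real.exp (θ / 2 * L) := by
  have h1 : Tendsto (fun x : ℝ => Real.exp (θ / 4 * x) / x ^ U) atTop atTop := by
    have h0 := tendsto_exp_mul_div_rpow_atTop (U : ℝ) (θ / 4) (by positivity)
    simp only [Real.rpow_natCast] at h0
    exact h0
  filter_upwards [h1.eventually_ge_atTop 1, eventually_ge_atTop ((1360 / θ) ^ 2), eventually_gt_atTop (1 : ℝ)]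
    with L h2 h3 h4
  have hL0 : 0 < L := by linarith
  rw [le_div_iff₀ (by positivity), one_mul] at h2
  have h5 : 340 * L ^ (1 / 2 : ℝ) ≤ θ / 4 * L := by
    rw [← Real.sqrt_eq_rpow]
    have h6 : 1360 / θ ≤ Real.sqrt L := Real.le_sqrt_of_sq_le h3
    rw [div_le_iff₀ hθ] at h6
    have h7 : Real.sqrt L * Real.sqrt L = L := Real.mul_self_sqrt hL0.le
    nlinarith [Real.sqrt_nonneg L]
  calc L ^ U * Real.exp (340 * L ^ (1 / 2 : ℝ)) ≤ Real.exp (θ / 4 * L) * Real.exp (θ / 4 * L) :=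
        mul_le_mul h2 (Real.exp_le_exp.2 h5) (Real.exp_pos _).le (Real.exp_pos _).le
    _ = _ := by rw [← Real.exp_add]; congr 1; ring

theorem few_RC {θ : ℝ} (hθ0 : 0 < θ) {Q : ℤ → Prop} {g : ℤ → ℤ} {G : ℕ}
    (hg : ∀ (u : ℤ) (s m : ℕ), Nat.Coprime s m → Int.gcd (g (u * s)) ((u.natAbs * m : ℕ) : ℤ) ≤ G * u.natAbs)
    (hQ : Few θ g (fun _ c => ¬ Q c)) (E U : ℕ) :
    ∃ z₀ : ℝ, 1 < z₀ ∧ RC (UA Q U) z₀ (1 / 2) E := by
  classical
  obtain ⟨X₀, hX₀⟩ := hQ (θ / 2) (by positivity) (E + 2 * U + 1) (U + 3)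
  obtain ⟨L₀, hL₀⟩ := eventually_atTop.1 (ev_large hθ0 U)
  obtain ⟨M, hM⟩ : ∃ M : ℝ, M = max (max L₀ 1000) (max (G : ℝ) (Real.log (X₀ + 1))) := ⟨_, rfl⟩
  have hM1 : L₀ ≤ M := by rw [hM]; exact (le_max_left _ _).trans (le_max_left _ _)
  have hM2 : 1000 ≤ M := by rw [hM]; exact (le_max_right _ _).trans (le_max_left _ _)
  have hM3 : (G : ℝ) ≤ M := by rw [hM]; exact (le_max_left _ _).trans (le_max_right _ _)
  have hM4 : Real.log (X₀ + 1) ≤ M := by rw [hM]; exact (le_max_right _ _).trans (le_max_right _ _)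
  refine ⟨Real.exp M, by
    have := Real.add_one_le_exp M
    linarith, ?_⟩
  intro X hX j hj e he
  have hX0 : 0 < X := (Real.exp_pos M).trans_le hX
  obtain ⟨L, hL⟩ : ∃ L, L = Real.log X := ⟨_, rfl⟩
  rw [← hL] at hj ⊢
  have hML : M ≤ L := by
    have := Real.log_le_log (Real.exp_pos M) hX
    rwa [Real.log_exp, ← hL] at this
  have hL1000 : 1000 ≤ L := hM2.trans hML
  have hL0 : 0 < L := by linarith
  have hL1 : 1 ≤ L := by linarith
  have hGL : (G : ℝ) ≤ L := hM3.trans hML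
  have hXe : Real.exp L = X := by rw [hL, Real.exp_log hX0]
  have hLU1 : 1 ≤ L ^ U := one_le_pow₀ hL1
  -- the natural representative of the class
  obtain ⟨s, hs⟩ : ∃ s : ℕ, (s : ℤ) = e % 3 ^ j := ⟨(e % 3 ^ j).toNat, by
    rw [Int.toNat_of_nonneg (Int.emod_nonneg _ (by positivity))]⟩
  have hse : (3 : ℤ) ^ j ∣ e - s := by rw [hs]; exact Int.dvd_self_sub_emod
  have hcop : Nat.Coprime s (3 ^ j) := by
    rcases Nat.eq_zero_or_pos j with hj0 | hj0
    · rw [hj0, pow_zero]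
      exact Nat.coprime_one_right s
    · have he' : e % 3 ≠ 0 := by
        rcases he with h | h
        · omega
        · exact h
      apply Nat.Coprime.pow_right
      rw [Nat.coprime_comm, Nat.Prime.coprime_iff_not_dvd Nat.prime_three]
      intro h3
      have h4 : (3 : ℤ) ∣ e - s := (dvd_pow_self 3 (by omega)).trans hse
      have h5 : (3 : ℤ) ∣ (s : ℤ) := by exact_mod_cast h3
      omega
  -- the scale
  obtain ⟨X', hX'⟩ : ∃ X' : ℕ, X' = ⌈X * L ^ U⌉₊ := ⟨_, rfl⟩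
  have hX'1 : X * L ^ U ≤ X' := by rw [hX']; exact Nat.le_ceil _
  have hX1 : 1 ≤ X := by
    have := Real.add_one_le_exp L
    rw [hXe] at this
    linarith
  have hXX' : X ≤ X' := by
    refine le_trans ?_ hX'1
    nlinarith
  have hX'2 : (X' : ℝ) ≤ 2 * (X * L ^ U) := by
    have h1 := (Nat.ceil_lt_add_one (show 0 ≤ X * L ^ U by positivity)).le
    rw [← hX'] at h1
    have : 1 ≤ X * L ^ U := by nlinarith
    linarith
  have hX'0 : (0 : ℝ) < X' := by linarith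
  have hLX' : L ≤ Real.log X' := by rw [hL]; exact Real.log_le_log hX0 hXX'
  have hX₀X' : X₀ ≤ X' := by
    have h1 : Real.log (X₀ + 1) ≤ Real.log X := by rw [← hL]; exact hM4.trans hML
    have h2 : (X₀ : ℝ) + 1 ≤ X := (Real.log_le_log_iff (by positivity) hX0).1 h1
    have h3 : (X₀ : ℝ) ≤ X' := by linarith
    exact_mod_cast h3
  -- one multiple
  obtain ⟨V, hV⟩ : ∃ V : ℕ, V = ⌊L ^ U⌋₊ := ⟨_, rfl⟩
  have hVL : (V : ℝ) ≤ L ^ U := by rw [hV]; exact Nat.floor_le (by positivity)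
  have hone : ∀ u ∈ (Icc (-(V : ℤ)) V).filter (fun u => u ≠ 0),
      (((fA {x : ℤ | ¬ Q (u * x)} (Real.exp M) X).filter (fun x => (3 : ℤ) ^ j ∣ x - e)).card : ℝ) ≤
        2 * X * L ^ U / (3 ^ j * L ^ (E + 2 * U + 1)) := by
    intro u hu
    rw [mem_filter, mem_Icc] at hu
    obtain ⟨v, hv⟩ : ∃ v, v = u.natAbs := ⟨_, rfl⟩
    have hv1 : 1 ≤ v := by rw [hv]; exact Int.natAbs_pos.2 hu.2
    have hvV : v ≤ V := by omega
    have hvL : (v : ℝ) ≤ L ^ U := le_trans (by exact_mod_cast hvV) hVL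
    have hvr : (1 : ℝ) ≤ v := by exact_mod_cast hv1
    have h3j : (3 : ℝ) ^ j ≤ Real.exp (340 * L ^ (1 / 2 : ℝ)) := by
      have e0 : (3 : ℝ) ^ j = Real.exp (j * Real.log 3) := by
        rw [Real.exp_nat_mul, Real.exp_log (by norm_num)]
      rw [e0]
      apply Real.exp_le_exp.2
      have h1 : Real.log 3 ≤ 1.12 := by
        have h2 := Pool.Agent.H499R2.ND.log3_le
        have h3 := Real.log_two_lt_d9
        linarith
      calc (j : ℝ) * Real.log 3 ≤ (300 * L ^ (1 / 2 : ℝ)) * 1.12 :=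
            mul_le_mul hj h1 (Real.log_nonneg (by norm_num)) (by positivity)
        _ ≤ _ := by
            have : 0 ≤ L ^ (1 / 2 : ℝ) := by positivity
            linarith
    have hq1 : ((v * 3 ^ j : ℕ) : ℝ) ≤ (X' : ℝ) ^ (θ - θ / 2) := by
      push_cast
      have h1 := hL₀ L (hM1.trans hML)
      calc (v : ℝ) * 3 ^ j ≤ L ^ U * Real.exp (340 * L ^ (1 / 2 : ℝ)) :=
            mul_le_mul hvL h3j (by positivity) (by positivity)
        _ ≤ Real.exp (θ / 2 * L) := h1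
        _ = X ^ (θ - θ / 2) := by
            rw [Real.rpow_def_of_pos hX0, ← hL]
            congr 1
            ring
        _ ≤ (X' : ℝ) ^ (θ - θ / 2) := Real.rpow_le_rpow hX0.le hXX' (by linarith)
    have hτ : ((v * 3 ^ j).divisors.card : ℝ) ≤ Real.log X' ^ (U + 3) := by
      have h1 : (v * 3 ^ j).divisors.card ≤ v * (j + 1) := by
        refine (card_divisors_mul_le v (3 ^ j)).trans ?_
        apply Nat.mul_le_mul (Nat.card_divisors_le_self v)
        rw [Nat.divisors_prime_pow Nat.prime_three, card_map, card_range]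
      have h2 : (((v * 3 ^ j).divisors.card : ℕ) : ℝ) ≤ v * (j + 1) := by exact_mod_cast h1
      refine h2.trans ?_
      have h3 : (j : ℝ) + 1 ≤ L ^ 3 := by
        have h4 : L ^ (1 / 2 : ℝ) ≤ L := by
          calc L ^ (1 / 2 : ℝ) ≤ L ^ (1 : ℝ) := Real.rpow_le_rpow_of_exponent_le hL1 (by norm_num)
            _ = L := Real.rpow_one L
        have h5 : L ^ 3 = L * (L * L) := by ring
        have h6 : 1000 * L ≤ L * L := mul_le_mul_of_nonneg_right hL1000 hL0.le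
        have h7 : 1 * (L * L) ≤ L * (L * L) := mul_le_mul_of_nonneg_right hL1 (by positivity)
        rw [h5]
        linarith
      calc (v : ℝ) * (j + 1) ≤ L ^ U * L ^ 3 := mul_le_mul hvL h3 (by positivity) (by positivity)
        _ = L ^ (U + 3) := by rw [pow_add]
        _ ≤ _ := pow_le_pow_left₀ hL0.le hLX' _
    have hgcd : (Int.gcd (g (u * s)) ((v * 3 ^ j : ℕ) : ℤ) : ℝ) ≤ Real.log X' ^ (U + 3) := by
      have h1 := hg u s (3 ^ j) hcop
      rw [← hv] at h1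
      have h2 : (Int.gcd (g (u * s)) ((v * 3 ^ j : ℕ) : ℤ) : ℝ) ≤ ((G * v : ℕ) : ℝ) := by exact_mod_cast h1
      refine h2.trans ?_
      push_cast
      calc (G : ℝ) * v ≤ L ^ 3 * L ^ U := by
            apply mul_le_mul _ hvL (by positivity) (by positivity)
            refine hGL.trans ?_
            exact le_self_pow₀ hL1 (by norm_num)
        _ = L ^ (U + 3) := by rw [← pow_add, add_comm]
        _ ≤ _ := pow_le_pow_left₀ hL0.le hLX' _
    have hcard := hX₀ X' hX₀X' (v * 3 ^ j) (Nat.mul_pos hv1 (by positivity)) hq1 hτ (u * s) hgcd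
    have hinj : ((fA {x : ℤ | ¬ Q (u * x)} (Real.exp M) X).filter (fun x => (3 : ℤ) ^ j ∣ x - e)).card ≤
        num (fun c => ¬ Q c) X' (v * 3 ^ j) (u * s) := by
      apply card_le_card_of_injOn (fun x : ℤ => u * x)
      · intro x hx
        rw [mem_coe, mem_filter, mem_fA] at hx
        obtain ⟨⟨⟨hx1, hx2⟩, hx3⟩, hx4⟩ := hx
        rw [mem_coe, mem_bad]
        refine ⟨?_, ?_, hx3⟩
        · have h1 : |((u * x : ℤ) : ℝ)| ≤ X' := by
            push_cast
            rw [abs_mul]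
            have hx0 : 0 < (x : ℝ) := (Real.exp_pos M).trans_le hx1
            have h2 : |(u : ℝ)| = v := by
              rw [hv, ← Int.cast_abs, Int.abs_eq_natAbs, Int.cast_natCast]
            rw [abs_of_pos hx0, h2]
            refine le_trans ?_ hX'1
            rw [mul_comm]
            exact mul_le_mul hx2 hvL (by positivity) hX0.le
          exact_mod_cast h1
        · have hvu : (v : ℤ) ∣ u := by rw [hv]; exact Int.natAbs_dvd.2 dvd_rfl
          obtain ⟨w, hw⟩ := hvu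
          have h1 : (3 : ℤ) ^ j ∣ s - x := by
            have h2 := dvd_add hx4 hse
            have h3 : x - e + (e - s) = -(s - x : ℤ) := by ring
            rw [h3] at h2
            exact (dvd_neg.1 h2)
          obtain ⟨t, ht⟩ := h1
          apply Int.modEq_iff_dvd.2
          refine ⟨w * t, ?_⟩
          push_cast
          have h2 : u * (s : ℤ) - u * x = u * (s - x) := by ring
          rw [h2, ht]
          conv_lhs => rw [hw]
          ring
      · intro x _ y _ hxy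
        exact mul_left_cancel₀ hu.2 hxy
    refine (Nat.cast_le.2 hinj).trans (hcard.trans ?_)
    push_cast
    calc (X' : ℝ) / ((v : ℝ) * 3 ^ j * Real.log X' ^ (E + 2 * U + 1)) ≤
        2 * (X * L ^ U) / (3 ^ j * L ^ (E + 2 * U + 1)) := by
          apply div_le_div₀ (by positivity) hX'2 (by positivity)
          apply mul_le_mul _ (pow_le_pow_left₀ hL0.le hLX' _) (by positivity) (by positivity)
          have : (0 : ℝ) < 3 ^ j := by positivity
          nlinarith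
      _ = _ := by ring
  have hsub : fC (UA Q U) (Real.exp M) X j e ⊆ ((Icc (-(V : ℤ)) V).filter (fun u => u ≠ 0)).biUnion
      (fun u => (fA {x : ℤ | ¬ Q (u * x)} (Real.exp M) X).filter (fun x => (3 : ℤ) ^ j ∣ x - e)) := by
    intro x hx
    rw [mem_fC] at hx
    obtain ⟨⟨⟨hx1, hx2⟩, u, hu1, hu2, hu3⟩, hx4⟩ := hx
    rw [mem_biUnion]
    refine ⟨u, ?_, ?_⟩
    · rw [mem_filter, mem_Icc]
      have hx0 : 0 < (x : ℝ) := (Real.exp_pos M).trans_le hx1
      have hxM : M ≤ Real.log x := by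
        have := Real.log_le_log (Real.exp_pos M) hx1
        rwa [Real.log_exp] at this
      have h1 : (u.natAbs : ℝ) ≤ L ^ U := by
        refine hu2.trans ?_
        apply pow_le_pow_left₀ (by linarith)
        rw [hL]
        exact Real.log_le_log hx0 hx2
      have h2 : u.natAbs ≤ V := by rw [hV]; exact Nat.le_floor h1
      exact ⟨by omega, hu1⟩
    · rw [mem_filter, mem_fA]
      exact ⟨⟨⟨hx1, hx2⟩, hu3⟩, hx4⟩
  have h1 : ((fC (UA Q U) (Real.exp M) X j e).card : ℝ) ≤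
      ∑ u ∈ (Icc (-(V : ℤ)) V).filter (fun u => u ≠ 0),
        (((fA {x : ℤ | ¬ Q (u * x)} (Real.exp M) X).filter (fun x => (3 : ℤ) ^ j ∣ x - e)).card : ℝ) := by
    exact_mod_cast (card_le_card hsub).trans card_biUnion_le
  refine h1.trans ((sum_le_sum hone).trans ?_)
  rw [sum_const, nsmul_eq_mul]
  have h2 : ((((Icc (-(V : ℤ)) V).filter (fun u => u ≠ 0)).card : ℕ) : ℝ) ≤ 3 * L ^ U := by
    have h3 : ((Icc (-(V : ℤ)) V).filter (fun u => u ≠ 0)).card ≤ 2 * V + 1 := by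
      refine (card_filter_le _ _).trans ?_
      rw [Int.card_Icc]
      omega
    have h4 : ((((Icc (-(V : ℤ)) V).filter (fun u => u ≠ 0)).card : ℕ) : ℝ) ≤ 2 * V + 1 := by exact_mod_cast h3
    linarith
  calc ((((Icc (-(V : ℤ)) V).filter (fun u => u ≠ 0)).card : ℕ) : ℝ) *
        (2 * X * L ^ U / (3 ^ j * L ^ (E + 2 * U + 1)))
      ≤ (3 * L ^ U) * (2 * X * L ^ U / (3 ^ j * L ^ (E + 2 * U + 1))) :=
        mul_le_mul_of_nonneg_right h2 (by positivity)
    _ = X / (3 ^ j * L ^ E) * (6 / L) := by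
        have : L ^ (E + 2 * U + 1) = L ^ E * (L ^ U * L ^ U) * L := by
          rw [pow_add, pow_add, two_mul, pow_add, pow_one]
        rw [this]
        field_simp
        ring
    _ ≤ X / (3 ^ j * L ^ E) * 1 := by
        apply mul_le_mul_of_nonneg_left _ (by positivity)
        rw [div_le_one hL0]
        linarith
    _ = _ := mul_one _

open scoped Classical in
/-- **All the terms of almost every trajectory.** -/
theorem all_terms {d : ℤ} (hd : Odd d) (hd3 : IsCoprime d 3) {θ : ℝ} (hθ0 : 0 < θ) {Q : ℤ → Prop} {g : ℤ → ℤ} {G : ℕ}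
    (hg : ∀ (u : ℤ) (s m : ℕ), Nat.Coprime s m → Int.gcd (g (u * s)) ((u.natAbs * m : ℕ) : ℤ) ≤ G * u.natAbs)
    (hQ : Few θ g (fun _ c => ¬ Q c)) (B U : ℕ) :
    ∃ K : ℝ, 0 < K ∧ ∀ Y : ℝ, 2 ≤ Y → ∀ N : ℕ,
      (((Icc (1 : ℤ) N).filter (fun n => ∃ k : ℕ, (∀ j ≤ k, Y ≤ (((Tz d)^[j] n : ℤ) : ℝ)) ∧ ∃ u : ℤ, u ≠ 0 ∧
        (u.natAbs : ℝ) ≤ Real.log (((Tz d)^[k] n : ℤ) : ℝ) ^ U ∧ ¬ Q (u * (Tz d)^[k] n))).card : ℝ) ≤
          K * N / Real.log Y ^ B := by
  obtain ⟨z₀, hz₀, hRC⟩ := few_RC hθ0 hg hQ (B + 4) U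
  obtain ⟨l₀, K, hl₀, hK, hH⟩ := HY_countC hd hd3 (γ := 1 / 2) (by norm_num) (by norm_num) B
  obtain ⟨L, hL⟩ : ∃ L : ℝ, L = max (max l₀ 1) (Real.log z₀) := ⟨_, rfl⟩
  have hL1 : l₀ ≤ L := by rw [hL]; exact (le_max_left _ _).trans (le_max_left _ _)
  have hL2 : 1 ≤ L := by rw [hL]; exact (le_max_right _ _).trans (le_max_left _ _)
  have hL3 : Real.log z₀ ≤ L := by rw [hL]; exact le_max_right _ _
  refine ⟨max K (L ^ B), by positivity, ?_⟩
  intro Y hY N
  have hlog : 0 < Real.log Y := Real.log_pos (by linarith)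
  have hN0 : (0 : ℝ) ≤ N := Nat.cast_nonneg N
  rcases le_or_gt L (Real.log Y) with hc | hc
  · have hzY : z₀ ≤ Y := (Real.log_le_log_iff (by linarith) (by linarith)).1 (hL3.trans hc)
    have h1 := hH Y (by linarith) (hL1.trans hc) (UA Q U) (hRC.mono hzY) N
    have h2 : (((Icc (1 : ℤ) N).filter (fun n => ∃ k : ℕ, (∀ j ≤ k, Y ≤ (((Tz d)^[j] n : ℤ) : ℝ)) ∧ ∃ u : ℤ, u ≠ 0 ∧
        (u.natAbs : ℝ) ≤ Real.log (((Tz d)^[k] n : ℤ) : ℝ) ^ U ∧ ¬ Q (u * (Tz d)^[k] n))).card : ℝ)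
        ≤ (((Icc (1 : ℤ) N).filter (fun n => n ∈ HY d (UA Q U) Y)).card : ℝ) := by
      have : (Icc (1 : ℤ) N).filter (fun n => ∃ k : ℕ, (∀ j ≤ k, Y ≤ (((Tz d)^[j] n : ℤ) : ℝ)) ∧ ∃ u : ℤ, u ≠ 0 ∧
        (u.natAbs : ℝ) ≤ Real.log (((Tz d)^[k] n : ℤ) : ℝ) ^ U ∧ ¬ Q (u * (Tz d)^[k] n)) ⊆
          (Icc (1 : ℤ) N).filter (fun n => n ∈ HY d (UA Q U) Y) := by
        intro x hx
        rw [mem_filter] at hx ⊢
        obtain ⟨hx1, k, hx2, hx3⟩ := hx
        exact ⟨hx1, k, hx3, hx2⟩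
      exact_mod_cast card_le_card this
    refine h2.trans (h1.trans ?_)
    apply div_le_div_of_nonneg_right _ (by positivity)
    exact mul_le_mul_of_nonneg_right (le_max_left _ _) hN0
  · have h1 : (((Icc (1 : ℤ) N).filter (fun n => ∃ k : ℕ, (∀ j ≤ k, Y ≤ (((Tz d)^[j] n : ℤ) : ℝ)) ∧ ∃ u : ℤ, u ≠ 0 ∧
        (u.natAbs : ℝ) ≤ Real.log (((Tz d)^[k] n : ℤ) : ℝ) ^ U ∧ ¬ Q (u * (Tz d)^[k] n))).card : ℝ) ≤ N := by
      have : ((Icc (1 : ℤ) N).filter (fun n => ∃ k : ℕ, (∀ j ≤ k, Y ≤ (((Tz d)^[j] n : ℤ) : ℝ)) ∧ ∃ u : ℤ, u ≠ 0 ∧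
        (u.natAbs : ℝ) ≤ Real.log (((Tz d)^[k] n : ℤ) : ℝ) ^ U ∧ ¬ Q (u * (Tz d)^[k] n))).card ≤ N := by
        refine (card_filter_le _ _).trans ?_
        rw [Int.card_Icc]; omega
      exact_mod_cast this
    refine h1.trans ?_
    rw [le_div_iff₀ (by positivity), mul_comm]
    apply mul_le_mul_of_nonneg_right _ hN0
    exact (pow_le_pow_left₀ hlog.le hc.le B).trans (le_max_right _ _)

end Run7.h702.AT
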