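import Pool.Agent.Run7.h702.AT.C

/-! Sets which are rare in the residue classes modulo powers of 3, part H: densities which decrease like
`(log X)^(-1-ε)`. -/

set_option autoImplicit false

namespace Run7.h702.AT

open Finset
open Pool.Agent.H320R2.PD Pool.Agent.H499R2.ND
open Pool.Agent.H499R2.CO (Tz)
open Pool.Agent.R344.SP Pool.Agent.R344.TH

/-- `A₀` has a density of at most `δ` in the classes modulo `3 ^ j` prime to `3`, from `z` on -/
def RD (A₀ : Set ℤ) (z γ δ : ℝ) : Prop :=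
  ∀ X : ℝ, z ≤ X → ∀ j : ℕ, (j : ℝ) ≤ 300 * (Real.log X) ^ γ → ∀ e : ℤ, (j = 0 ∨ e % 3 ≠ 0) →
    ((fC A₀ z X j e).card : ℝ) ≤ δ * (X / 3 ^ j)

theorem one_classD {d : ℤ} (hd : d % 2 = 1) (hd3 : d % 3 ≠ 0) {A₀ : Set ℤ} {z γ δ : ℝ} (hδ : 0 ≤ δ) (hz : 1 < z)
    (hγ : 0 ≤ γ) (hRC : RD A₀ z γ δ) {K : ℕ} (hK : (K : ℝ) * |(d : ℝ)| ≤ z) {m : ℕ}
    (hm : (K : ℝ) + m ≤ 300 * (Real.log z) ^ γ) {A : ℝ} (hA : 0 < A) {c : ℤ} (hc : m = 0 ∨ c % 3 ≠ 0) {k : ℕ}
    (hk : k < K) (r : ℤ) :
    (((cls (SK d A₀ z k) A (2 * A) m 1 c).filter (fun x => x % 2 ^ k = r)).card : ℝ) ≤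
      4 * A / (2 ^ k * 3 ^ m) * δ := by
  have hlz : 0 < Real.log z := Real.log_pos hz
  rcases Finset.eq_empty_or_nonempty ((cls (SK d A₀ z k) A (2 * A) m 1 c).filter (fun x => x % 2 ^ k = r))
    with h0 | ⟨x₀, hx₀⟩
  · rw [h0, card_empty, Nat.cast_zero]
    positivity
  rw [mem_filter, mem_cls] at hx₀
  obtain ⟨⟨⟨hx1, hx2⟩, hxo, ⟨hx3, hx4⟩, hx5⟩, hx6⟩ := hx₀
  obtain ⟨a, ha⟩ : ∃ a, a = od d k x₀ := ⟨_, rfl⟩
  obtain ⟨e, he⟩ : ∃ e, e = (Tz d)^[k] x₀ := ⟨_, rfl⟩
  obtain ⟨X, hX⟩ : ∃ X : ℝ, X = 4 * A * 3 ^ a / 2 ^ k := ⟨_, rfl⟩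
  have hup : ∀ x : ℤ, x ∈ SK d A₀ z k → (x : ℝ) < 2 * A → od d k x = a → (((Tz d)^[k] x : ℤ) : ℝ) ≤ X := by
    intro x hx hxA hxa
    have hx0 : 0 < x := by
      have h1 := hx.2 0 (Nat.zero_le _)
      have : (0 : ℝ) < x := by
        rw [Function.iterate_zero, id] at h1
        linarith
      exact_mod_cast this
    have hKk : (k : ℝ) * |(d : ℝ)| ≤ z := by
      refine le_trans ?_ hK
      apply mul_le_mul_of_nonneg_right _ (abs_nonneg _)
      exact_mod_cast hk.le
    have h1 := growth_two hd (by linarith) hKk hx0 (fun i hi => hx.2 i hi.le)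
    rw [hX, le_div_iff₀ (by positivity)]
    refine h1.trans ?_
    rw [hxa]
    have : (0 : ℝ) < 3 ^ a := by positivity
    nlinarith
  have hzX : z ≤ X := (hx4 k le_rfl).trans (hup x₀ ⟨hx3, hx4⟩ hx2 ha.symm)
  have hXlog : Real.log z ≤ Real.log X := Real.log_le_log (by linarith) hzX
  have hak : a ≤ k := by rw [ha]; exact od_le d k x₀
  have hj : ((a + m : ℕ) : ℝ) ≤ 300 * (Real.log X) ^ γ := by
    push_cast
    have h1 : (a : ℝ) ≤ K := by exact_mod_cast hak.trans hk.le
    have h2 : (Real.log z) ^ γ ≤ (Real.log X) ^ γ := Real.rpow_le_rpow hlz.le hXlog hγ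
    linarith
  have hxo2 : x₀ % 2 ≠ 0 := by
    have := Int.odd_iff.1 hxo
    omega
  have he3 : a + m = 0 ∨ e % 3 ≠ 0 := by
    rcases Nat.eq_zero_or_pos k with hk0 | hk0
    · subst hk0
      have ha0 : a = 0 := by omega
      rcases hc with hc | hc
      · left; omega
      · rcases Nat.eq_zero_or_pos m with hm0 | hm0
        · left; omega
        · right
          rw [Function.iterate_zero, id] at he
          rw [he]
          have h3 : (3 : ℤ) ∣ 1 * x₀ - c := (dvd_pow_self 3 (by omega)).trans hx5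
          omega
    · right
      obtain ⟨k', rfl⟩ : ∃ k', k = k' + 1 := ⟨k - 1, by omega⟩
      rw [he]
      exact iter_mod3 hd hd3 hxo2 k'
  have h1 := hRC X hzX (a + m) hj e he3
  have h2 : (((cls (SK d A₀ z k) A (2 * A) m 1 c).filter (fun x => x % 2 ^ k = r)).card : ℝ) ≤
      ((fC A₀ z X (a + m) e).card : ℝ) := by
    have : ((cls (SK d A₀ z k) A (2 * A) m 1 c).filter (fun x => x % 2 ^ k = r)).card ≤
        (fC A₀ z X (a + m) e).card := by
      apply card_le_card_of_injOn (fun x => (Tz d)^[k] x)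
      · intro x hx
        rw [mem_coe, mem_filter, mem_cls] at hx
        obtain ⟨⟨⟨hy1, hy2⟩, hyo, hyS, hy5⟩, hy6⟩ := hx
        obtain ⟨t, ht1, ht2⟩ := od_mod hd (hy6.trans hx6.symm)
        rw [← ha] at ht2
        rw [mem_coe, mem_fC]
        refine ⟨⟨⟨hyS.2 k le_rfl, hup x hyS hy2 ht2⟩, hyS.1⟩, ?_⟩
        have h3 : (Tz d)^[k] x - e = t * 3 ^ a := by
          rw [ht1, Tz_iter hd, ← he, ← ha]; ring
        beta_reduce
        rw [h3, pow_add, mul_comm]
        apply mul_dvd_mul_right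
        have h4 : (3 : ℤ) ^ m ∣ (1 * x - c) - (1 * x₀ - c) := dvd_sub hy5 hx5
        have h5 : (1 * x - c) - (1 * x₀ - c) = 2 ^ k * t := by rw [ht1]; ring
        rw [h5] at h4
        exact ((two_three_cop k m).symm).dvd_of_dvd_mul_left h4
      · intro x hx y hy hxy
        rw [mem_coe, mem_filter, mem_cls] at hx hy
        obtain ⟨t, ht1, ht2⟩ := od_mod hd (hx.2.trans hx6.symm)
        obtain ⟨s, hs1, hs2⟩ := od_mod hd (hy.2.trans hx6.symm)
        beta_reduce at hxy
        rw [ht1, hs1, Tz_iter hd, Tz_iter hd] at hxy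
        have h3 : t * 3 ^ (od d k x₀) = s * 3 ^ (od d k x₀) := by linarith
        have h4 : t = s := mul_right_cancel₀ (by positivity) h3
        rw [ht1, hs1, h4]
    exact_mod_cast this
  refine h2.trans (h1.trans (le_of_eq ?_))
  rw [hX, pow_add]
  field_simp

theorem one_levelD {d : ℤ} (hd : d % 2 = 1) (hd3 : d % 3 ≠ 0) {A₀ : Set ℤ} {z γ δ : ℝ} (hδ : 0 ≤ δ) (hz : 1 < z)
    (hγ : 0 ≤ γ) (hRC : RD A₀ z γ δ) {K : ℕ} (hK : (K : ℝ) * |(d : ℝ)| ≤ z) {m : ℕ}
    (hm : (K : ℝ) + m ≤ 300 * (Real.log z) ^ γ) {A : ℝ} (hA : 0 < A) {c : ℤ} (hc : m = 0 ∨ c % 3 ≠ 0) {k : ℕ}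
    (hk : k < K) :
    ((cls (SK d A₀ z k) A (2 * A) m 1 c).card : ℝ) ≤ 4 * A / 3 ^ m * δ := by
  have h1 := card_eq_sum_card_fiberwise (s := cls (SK d A₀ z k) A (2 * A) m 1 c)
    (t := Ico (0 : ℤ) (2 ^ k)) (f := fun x : ℤ => x % 2 ^ k) (by
      intro x _
      rw [mem_coe, Finset.mem_Ico]
      exact ⟨Int.emod_nonneg _ (by positivity), Int.emod_lt_of_pos _ (by positivity)⟩)
  rw [h1]
  push_cast
  refine (sum_le_sum fun r _ => one_classD hd hd3 hδ hz hγ hRC hK hm hA hc hk r).trans ?_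
  rw [sum_const, nsmul_eq_mul, Int.card_Ico]
  have e : (((2 : ℤ) ^ k - 0).toNat : ℝ) = 2 ^ k := by
    have : ((2 : ℤ) ^ k - 0).toNat = 2 ^ k := by
      rw [sub_zero]
      have h2 : ((2 : ℤ) ^ k) = ((2 ^ k : ℕ) : ℤ) := by push_cast; rfl
      rw [h2, Int.toNat_natCast]
    rw [this]
    push_cast
    rfl
  rw [e]
  apply le_of_eq
  field_simp

open scoped Classical in
/-- the count at the lowest scales -/
theorem base_countD {d : ℤ} (hd : d % 2 = 1) (hd3 : d % 3 ≠ 0) {A₀ : Set ℤ} {z γ δ : ℝ} (hδ : 0 ≤ δ) (hz : 1 < z)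
    (hγ : 0 ≤ γ) (hRC : RD A₀ z γ δ) {K : ℕ} (hK : (K : ℝ) * |(d : ℝ)| ≤ z) {m : ℕ}
    (hm : (K : ℝ) + m ≤ 300 * (Real.log z) ^ γ) {c₁ A : ℝ} (hA : 0 < A)
    (hcl : ∀ j : ℕ, (j : ℝ) < c₁ * K → 4 * A * 3 ^ j < z * 2 ^ K) {c : ℤ} (hc : m = 0 ∨ c % 3 ≠ 0) :
    ((cls (SZ d A₀ z) A (2 * A) m 1 c).card : ℝ) ≤ K * (4 * A / 3 ^ m * δ)
      + (((Wn A).filter (fun n => c₁ * K ≤ (od d K n : ℝ))).card : ℝ) := by
  have hz0 : 0 < z := by linarith
  have hsub : cls (SZ d A₀ z) A (2 * A) m 1 c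
      ⊆ ((range K).biUnion (fun k => cls (SK d A₀ z k) A (2 * A) m 1 c))
        ∪ (Wn A).filter (fun n => c₁ * K ≤ (od d K n : ℝ)) := by
    intro x hx
    rw [mem_cls] at hx
    obtain ⟨hx1, hx2, ⟨k, hk1, hk2, _⟩, hx4⟩ := hx
    have hzx : z ≤ x := hk2 0 (Nat.zero_le _)
    have hx0 : 0 < x := by
      have : (0 : ℝ) < x := lt_of_lt_of_le hz0 hzx
      exact_mod_cast this
    rw [mem_union, mem_biUnion, mem_filter, mem_Wn]
    by_cases hkK : k < K
    · left
      refine ⟨k, mem_range.2 hkK, ?_⟩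
      rw [mem_cls]
      exact ⟨hx1, hx2, ⟨hk1, hk2⟩, hx4⟩
    · right
      push Not at hkK
      refine ⟨hx1, ?_⟩
      by_contra hcon
      push Not at hcon
      have h1 := growth_two hd hz0 hK hx0 (fun i hi => hk2 i (by omega))
      have h2 := hcl _ hcon
      have h3 := hk2 K hkK
      have h4 : z * 2 ^ K ≤ 2 * (3 ^ od d K x * x) :=
        (mul_le_mul_of_nonneg_right h3 (by positivity)).trans h1
      have h5 : 2 * ((3 : ℝ) ^ od d K x * x) ≤ 4 * A * 3 ^ od d K x := by
        have : (0 : ℝ) < 3 ^ od d K x := by positivity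
        nlinarith [hx1.2]
      linarith
  have h1 := card_le_card hsub
  have h2 := card_union_le ((range K).biUnion (fun k => cls (SK d A₀ z k) A (2 * A) m 1 c))
    ((Wn A).filter (fun n => c₁ * K ≤ (od d K n : ℝ)))
  have h3 : ((((range K).biUnion (fun k => cls (SK d A₀ z k) A (2 * A) m 1 c)).card : ℕ) : ℝ)
      ≤ K * (4 * A / 3 ^ m * δ) := by
    have h4 : ((((range K).biUnion (fun k => cls (SK d A₀ z k) A (2 * A) m 1 c)).card : ℕ) : ℝ)
        ≤ ∑ k ∈ range K, ((cls (SK d A₀ z k) A (2 * A) m 1 c).card : ℝ) := by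
      exact_mod_cast card_biUnion_le
    refine h4.trans ?_
    refine (sum_le_sum fun k hk => one_levelD hd hd3 hδ hz hγ hRC hK hm hA hc (mem_range.1 hk)).trans ?_
    rw [sum_const, card_range, nsmul_eq_mul]
  have h4 : ((cls (SZ d A₀ z) A (2 * A) m 1 c).card : ℝ) ≤
      ((((range K).biUnion (fun k => cls (SK d A₀ z k) A (2 * A) m 1 c)).card : ℕ) : ℝ) +
        (((Wn A).filter (fun n => c₁ * K ≤ (od d K n : ℝ))).card : ℝ) := by
    exact_mod_cast h1.trans h2
  linarith

/-- the lowest scales -/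
theorem base_PD {d : ℤ} (hd : d % 2 = 1) (hd3 : d % 3 ≠ 0) {γ : ℝ} (hγ0 : 0 < γ) (hγ : γ ≤ 1 / 2) (B : ℕ) :
    ∃ l₀ : ℝ, 0 < l₀ ∧ ∀ z : ℝ, 0 < z → l₀ ≤ Real.log z → ∀ (A₀ : Set ℤ) (δ : ℝ), 0 ≤ δ → RD A₀ z γ δ →
      ∀ A : ℝ, z / 2 ≤ A → Real.log A ≤ Real.log z + 3 * (Real.log z) ^ γ → ∀ m : ℕ,
        (m : ℝ) ≤ (Real.log A) ^ (γ / 2) → PC (SZ d A₀ z) A m (1 / (Real.log z) ^ B + 2000 * (Real.log z) ^ γ * δ) := by
  obtain ⟨ρ, hρ0, hρ1, hod⟩ := od_large hd (c₁ := 0.6) (by norm_num)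
  have hlogρ : Real.log ρ < 0 := Real.log_neg hρ0 hρ1
  set c : ℝ := min 1 (-(100 * Real.log ρ)) with hc
  have hc0 : 0 < c := by rw [hc]; exact lt_min one_pos (by linarith)
  have hc1 : c ≤ 1 := min_le_left _ _
  have hc2 : c ≤ -(100 * Real.log ρ) := min_le_right _ _
  have hev1 : ∀ᶠ u : ℝ in Filter.atTop, u ^ ((B : ℝ) / γ) * Real.exp (-c * u) ≤ 1 / 8 :=
    (tendsto_rpow_mul_exp_neg_mul_atTop_nhds_zero _ c hc0).eventually_le_const (by norm_num)
  have hev2 : ∀ᶠ u : ℝ in Filter.atTop, 300 ≤ u := Filter.eventually_ge_atTop _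
  have hev3 : ∀ᶠ u : ℝ in Filter.atTop, (2.4 / (-(100 * Real.log ρ))) ^ 2 ≤ u :=
    Filter.eventually_ge_atTop _
  obtain ⟨u₀, hu₀⟩ := Filter.eventually_atTop.1 (hev1.and (hev2.and hev3))
  refine ⟨max (max 1000000 (2 * |(d : ℝ)|)) ((max u₀ 1) ^ (1 / γ)), by positivity, ?_⟩
  intro z hz hl A₀ δ hδ hA₀ A hA1 hA2 m hm
  set l := Real.log z with hldef
  have hl1 : 1000000 ≤ l := (le_max_left _ _).trans ((le_max_left _ _).trans hl)
  have hl2 : 2 * |(d : ℝ)| ≤ l := (le_max_right _ _).trans ((le_max_left _ _).trans hl)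
  have hl3 : (max u₀ 1) ^ (1 / γ) ≤ l := (le_max_right _ _).trans hl
  have hl0 : 0 < l := by linarith
  set u := l ^ γ with hu
  have hupos : 0 < u := by rw [hu]; positivity
  have hum : max u₀ 1 ≤ u := by
    have h1 : ((max u₀ 1) ^ (1 / γ)) ^ γ ≤ l ^ γ := Real.rpow_le_rpow (by positivity) hl3 hγ0.le
    rwa [← Real.rpow_mul (by positivity), one_div, inv_mul_cancel₀ hγ0.ne', Real.rpow_one] at h1
  obtain ⟨h1, h2, h3⟩ := hu₀ u ((le_max_left _ _).trans hum)
  have hexpz : Real.exp l = z := Real.exp_log hz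
  have hz1 : 1 < z := by
    have := Real.add_one_le_exp l
    rw [hexpz] at this
    linarith
  have hApos : 0 < A := by linarith
  have hexpA : Real.exp (Real.log A) = A := Real.exp_log hApos
  have hln2a := Real.log_two_gt_d9
  have hln2b := Real.log_two_lt_d9
  have hln3 := log3_le
  -- `u ≤ √l`
  have husq : u ≤ Real.sqrt l := by
    rw [Real.sqrt_eq_rpow]; exact Real.rpow_le_rpow_of_exponent_le (by linarith) hγ
  have hsl : Real.sqrt l ≤ l / 1000 := by
    rw [Real.sqrt_le_left (by positivity)]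
    nlinarith
  have hul : u ≤ l / 1000 := husq.trans hsl
  -- the parameter `K`
  obtain ⟨K, hK⟩ : ∃ K : ℕ, K = ⌈200 * u⌉₊ := ⟨_, rfl⟩
  have hK1 : 200 * u ≤ K := by rw [hK]; exact Nat.le_ceil _
  have hK2 : (K : ℝ) ≤ 200 * u + 1 := by rw [hK]; exact (Nat.ceil_lt_add_one (by positivity)).le
  have hK1N : 1 ≤ K := by
    have : (1 : ℝ) ≤ K := by linarith
    exact_mod_cast this
  have h2K : (2 : ℝ) ^ K = Real.exp (K * Real.log 2) := by
    rw [Real.exp_nat_mul, Real.exp_log (by norm_num)]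
  have hKd : (K : ℝ) * |(d : ℝ)| ≤ z := by
    have e1 : (K : ℝ) ≤ l := by linarith
    have e2 : l ^ 2 / 2 ≤ z := by
      have := Real.pow_div_factorial_le_exp l hl0.le 2
      rw [hexpz] at this
      simpa using this
    have e3 : (K : ℝ) * |(d : ℝ)| ≤ l * (l / 2) :=
      mul_le_mul e1 (by linarith) (abs_nonneg _) hl0.le
    linarith
  have hAlog : l - Real.log 2 ≤ Real.log A := by
    rw [hldef, ← Real.log_div hz.ne' (by norm_num)]
    exact Real.log_le_log (by positivity) hA1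
  have h2KA : (2 : ℝ) ^ K ≤ A := by
    rw [h2K, ← hexpA]
    apply Real.exp_le_exp.2
    have : (K : ℝ) * Real.log 2 ≤ (200 * u + 1) * 0.7 :=
      mul_le_mul hK2 (by linarith) (by linarith) (by positivity)
    linarith
  have hAz : A ≤ z * Real.exp (3 * u) := by
    rw [← hexpA, ← hexpz, ← Real.exp_add]
    exact Real.exp_le_exp.2 hA2
  have hcl : ∀ j : ℕ, (j : ℝ) < 0.6 * K → 4 * A * 3 ^ j < z * 2 ^ K := by
    intro j hj
    have e1 : (3 : ℝ) ^ j ≤ Real.exp (0.96 * (K * Real.log 2)) := by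
      have : (3 : ℝ) ^ j = Real.exp (j * Real.log 3) := by
        rw [Real.exp_nat_mul, Real.exp_log (by norm_num)]
      rw [this]
      apply Real.exp_le_exp.2
      calc (j : ℝ) * Real.log 3 ≤ (0.6 * K) * (8 / 5 * Real.log 2) := by
            apply mul_le_mul hj.le hln3 (Real.log_nonneg (by norm_num)) (by positivity)
        _ = _ := by ring
    have e2 : 4 * A * 3 ^ j ≤ Real.exp (2 * Real.log 2) * (z * Real.exp (3 * u))
        * Real.exp (0.96 * (K * Real.log 2)) := by
      have : Real.exp (2 * Real.log 2) = 4 := by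
        rw [show (2 : ℝ) * Real.log 2 = ((2 : ℕ) : ℝ) * Real.log 2 by norm_num, Real.exp_nat_mul,
          Real.exp_log (by norm_num)]
        norm_num
      rw [this]
      apply mul_le_mul _ e1 (by positivity) (by positivity)
      linarith
    refine e2.trans_lt ?_
    have e3 : Real.exp (2 * Real.log 2) * (z * Real.exp (3 * u)) * Real.exp (0.96 * (K * Real.log 2))
        = z * Real.exp (2 * Real.log 2 + 3 * u + 0.96 * (K * Real.log 2)) := by
      rw [Real.exp_add, Real.exp_add]; ring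
    rw [e3, h2K]
    apply mul_lt_mul_of_pos_left _ hz
    apply Real.exp_lt_exp.2
    have e4 : 200 * u * 0.69 ≤ K * Real.log 2 := mul_le_mul hK1 (by linarith) (by norm_num) (by positivity)
    linarith
  have hsu : Real.sqrt u ≤ u := by
    rw [Real.sqrt_le_left hupos.le]; nlinarith
  -- the number `m`
  have hm2 : (m : ℝ) ≤ 2 * Real.sqrt u := by
    refine hm.trans ?_
    have e2 : Real.log A ≤ 4 * l := by linarith
    have e3 : 0 ≤ Real.log A := by linarith
    calc (Real.log A) ^ (γ / 2) ≤ (4 * l) ^ (γ / 2) := Real.rpow_le_rpow e3 e2 (by positivity)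
      _ = 4 ^ (γ / 2) * l ^ (γ / 2) := Real.mul_rpow (by norm_num) hl0.le
      _ ≤ 2 * Real.sqrt u := by
          apply mul_le_mul _ _ (by positivity) (by norm_num)
          · calc (4 : ℝ) ^ (γ / 2) ≤ 4 ^ (1 / 2 : ℝ) :=
                  Real.rpow_le_rpow_of_exponent_le (by norm_num) (by linarith)
              _ = 2 := by
                  rw [← Real.sqrt_eq_rpow, show (4 : ℝ) = 2 ^ 2 by norm_num]
                  exact Real.sqrt_sq (by norm_num)
          · rw [hu, Real.sqrt_eq_rpow, ← Real.rpow_mul hl0.le]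
            exact le_of_eq (by congr 1; ring)
  have hKm : (K : ℝ) + m ≤ 300 * (Real.log z) ^ γ := by
    rw [← hldef, ← hu]
    linarith
  -- the two parts
  have h3m : (3 : ℝ) ^ m ≤ Real.exp (2.4 * Real.sqrt u) := by
    have e0 : (3 : ℝ) ^ m = Real.exp (m * Real.log 3) := by
      rw [Real.exp_nat_mul, Real.exp_log (by norm_num)]
    rw [e0]
    apply Real.exp_le_exp.2
    calc (m : ℝ) * Real.log 3 ≤ (2 * Real.sqrt u) * 1.2 :=
          mul_le_mul hm2 (by linarith) (Real.log_nonneg (by norm_num)) (by positivity)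
      _ = _ := by ring
  have h24 : 2.4 * Real.sqrt u ≤ -(100 * Real.log ρ) * u := by
    set c' := -(100 * Real.log ρ) with hc'
    have hc'0 : 0 < c' := by linarith
    have e1 : 2.4 / c' ≤ Real.sqrt u := Real.le_sqrt_of_sq_le h3
    rw [div_le_iff₀ hc'0] at e1
    have e2 : Real.sqrt u * Real.sqrt u = u := Real.mul_self_sqrt hupos.le
    nlinarith [Real.sqrt_nonneg u]
  set E := Real.exp (-c * u) with hE
  have hE0 : 0 < E := Real.exp_pos _
  have hP : l ^ B = u ^ ((B : ℝ) / γ) := by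
    rw [hu, ← Real.rpow_mul hl0.le, mul_div_cancel₀ _ hγ0.ne', Real.rpow_natCast]
  have hPE : l ^ B * E ≤ 1 / 8 := by rw [hP]; exact h1
  have hE2 : (3 : ℝ) ^ m * ρ ^ K ≤ E := by
    have e0 : ρ ^ K = Real.exp (K * Real.log ρ) := by
      rw [Real.exp_nat_mul, Real.exp_log hρ0]
    rw [e0]
    calc (3 : ℝ) ^ m * Real.exp (K * Real.log ρ)
        ≤ Real.exp (2.4 * Real.sqrt u) * Real.exp (K * Real.log ρ) :=
          mul_le_mul_of_nonneg_right h3m (Real.exp_pos _).le
      _ ≤ E := by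
          rw [← Real.exp_add, hE]
          apply Real.exp_le_exp.2
          have e1 : (K : ℝ) * Real.log ρ ≤ 200 * u * Real.log ρ :=
            mul_le_mul_of_nonpos_right hK1 hlogρ.le
          have e2 : c * u ≤ -(100 * Real.log ρ) * u := mul_le_mul_of_nonneg_right hc2 hupos.le
          linarith
  intro v w hv hw
  obtain ⟨e, he1, he2⟩ := cls_unit' (SZ d A₀ z) A (2 * A) m hv w hw
  rw [he2]
  refine (base_countD hd hd3 hδ hz1 hγ0.le hA₀ hKd hKm hApos hcl he1).trans ?_
  have hodA := hod K A hApos.le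
  have h3m0 : (0 : ℝ) < 3 ^ m := by positivity
  have hS2 : (A + 2 ^ K) * ρ ^ K ≤ 2 * A * (E / 3 ^ m) := by
    calc (A + 2 ^ K) * ρ ^ K ≤ (2 * A) * (3 ^ m * ρ ^ K / 3 ^ m) := by
          rw [mul_div_cancel_left₀ _ h3m0.ne']
          apply mul_le_mul_of_nonneg_right _ (by positivity)
          linarith
      _ ≤ _ := by
          apply mul_le_mul_of_nonneg_left _ (by positivity)
          exact div_le_div_of_nonneg_right hE2 h3m0.le
  have hfin : 2 * A * (E / 3 ^ m) ≤ 1 / 2 * (1 / l ^ B * (A / (2 * 3 ^ m))) := by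
    have e1 : E ≤ 1 / 8 / l ^ B := by
      rw [le_div_iff₀ (by positivity), mul_comm]; exact hPE
    calc 2 * A * (E / 3 ^ m) = 2 * A / 3 ^ m * E := by ring
      _ ≤ 2 * A / 3 ^ m * (1 / 8 / l ^ B) := mul_le_mul_of_nonneg_left e1 (by positivity)
      _ = _ := by field_simp; norm_num
  have hS1 : (K : ℝ) * (4 * A / 3 ^ m * δ) ≤ 2000 * u * δ * (A / (2 * 3 ^ m)) := by
    have e1 : (K : ℝ) ≤ 250 * u := by linarith
    calc (K : ℝ) * (4 * A / 3 ^ m * δ) ≤ (250 * u) * (4 * A / 3 ^ m * δ) :=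
          mul_le_mul_of_nonneg_right e1 (by positivity)
      _ = _ := by ring
  have hfin' : 1 / 2 * (1 / l ^ B * (A / (2 * 3 ^ m))) ≤ 1 / l ^ B * (A / (2 * 3 ^ m)) := by
    have : 0 ≤ 1 / l ^ B * (A / (2 * 3 ^ m)) := by positivity
    linarith
  rw [add_mul]
  linarith

/-- all scales -/
theorem SZ_PD {d : ℤ} (hd : Odd d) (hd3 : IsCoprime d 3) {γ : ℝ} (hγ0 : 0 < γ) (hγ : γ ≤ 1 / 2)
    (B : ℕ) (hB : 1 ≤ B) :
    ∃ l₀ K : ℝ, 0 < l₀ ∧ 0 < K ∧ ∀ z : ℝ, 0 < z → l₀ ≤ Real.log z → ∀ (A₀ : Set ℤ) (δ : ℝ), 0 ≤ δ → RD A₀ z γ δ →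
      ∀ A : ℝ, z / 2 ≤ A → ∀ m : ℕ,
        (m : ℝ) ≤ (Real.log A) ^ (γ / 2) → PC (SZ d A₀ z) A m (K / (Real.log z) ^ B + 2000 * (Real.log z) ^ γ * δ) := by
  have hd2 : d % 2 = 1 := Int.odd_iff.1 hd
  obtain ⟨l₀, hl₀, hbase⟩ := base_PD hd2 (cop3.1 hd3) hγ0 hγ B
  obtain ⟨C, hC, herr⟩ := err_bound2 hγ0 hγ (B + 1) d
  refine ⟨max (max l₀ 1000) (max ((16 : ℝ) ^ (1 / γ)) |(d : ℝ)|), 1 + 2 * C, by positivity, by positivity, ?_⟩
  intro z hz hl A₀ δ hδ hA₀
  obtain ⟨η, hη⟩ : ∃ η, η = 2000 * (Real.log z) ^ γ * δ := ⟨_, rfl⟩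
  set l := Real.log z with hldef
  have hll : l₀ ≤ l := (le_max_left _ _).trans ((le_max_left _ _).trans hl)
  have hl1000 : 1000 ≤ l := (le_max_right _ _).trans ((le_max_left _ _).trans hl)
  have hl16 : (16 : ℝ) ^ (1 / γ) ≤ l := (le_max_left _ _).trans ((le_max_right _ _).trans hl)
  have hld : |(d : ℝ)| ≤ l := (le_max_right _ _).trans ((le_max_right _ _).trans hl)
  have hl0 : 0 < l := by linarith
  have hexpz : Real.exp l = z := Real.exp_log hz
  have hdz : |(d : ℝ)| ≤ z := by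
    rw [← hexpz]; linarith [Real.add_one_le_exp l]
  have h16 : ∀ t : ℝ, l ≤ t → 16 ≤ t ^ γ := by
    intro t ht
    have h1 : ((16 : ℝ) ^ (1 / γ)) ^ γ ≤ t ^ γ :=
      Real.rpow_le_rpow (by positivity) (hl16.trans ht) hγ0.le
    rwa [← Real.rpow_mul (by positivity), one_div, inv_mul_cancel₀ hγ0.ne', Real.rpow_one] at h1
  set S := SZ d A₀ z with hS
  have hfwd : FwdA d (2 * z) S := SZ_fwd hd2 hz
  have hln2a := Real.log_two_gt_d9
  have hln2b := Real.log_two_lt_d9
  have hplB : 0 < l ^ B := by positivity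
  have hmono : ∀ s : ℝ, l ≤ s → 1 / s ^ B ≤ 1 / l ^ B := fun s hs =>
    one_div_le_one_div_of_le hplB (pow_le_pow_left₀ hl0.le hs B)
  have main : ∀ n : ℕ, ∀ A : ℝ, 0 < A → l ≤ Real.log A → Real.log A ≤ l + n → ∀ m : ℕ,
      (m : ℝ) ≤ (Real.log A) ^ (γ / 2) →
        PC S A m (1 / l ^ B + C * (2 * (1 / l ^ B) - 1 / (Real.log A) ^ B) + η) := by
    intro n
    induction n with
    | zero =>
      intro A hA hlA hAn m hm
      rw [Nat.cast_zero, add_zero] at hAn
      have hAz : z / 2 ≤ A := by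
        have : z ≤ A := by
          rw [← hexpz, ← Real.exp_log hA]; exact Real.exp_le_exp.2 hlA
        linarith
      have h1 := hbase z hz hll A₀ δ hδ hA₀ A hAz (by
        have : 0 < l ^ γ := by positivity
        linarith) m hm
      intro u v hu hv
      refine (h1 u v hu hv).trans ?_
      apply mul_le_mul_of_nonneg_right _ (by positivity)
      have h2 := hmono _ hlA
      have h3 : 0 ≤ C * (2 * (1 / l ^ B) - 1 / Real.log A ^ B) := by
        apply mul_nonneg hC.le
        have : 0 < 1 / l ^ B := by positivity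
        linarith
      linarith
    | succ n ih =>
      intro A hA hlA hAn m hm
      set t := Real.log A with htdef
      have ht0 : 0 < t := by linarith
      have hexpA : Real.exp t = A := Real.exp_log hA
      rcases le_or_gt t (l + 3 * l ^ γ) with hcase | hcase
      · have hAz : z / 2 ≤ A := by
          have : z ≤ A := by
            rw [← hexpz, ← hexpA]; exact Real.exp_le_exp.2 hlA
          linarith
        have h1 := hbase z hz hll A₀ δ hδ hA₀ A hAz hcase m hm
        intro u v hu hv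
        refine (h1 u v hu hv).trans ?_
        apply mul_le_mul_of_nonneg_right _ (by positivity)
        have h2 := hmono _ hlA
        have h3 : 0 ≤ C * (2 * (1 / l ^ B) - 1 / t ^ B) := by
          apply mul_nonneg hC.le
          have : 0 < 1 / l ^ B := by positivity
          linarith
        linarith
      · obtain ⟨k, hk⟩ : ∃ k : ℕ, k = ⌊t ^ γ⌋₊ := ⟨_, rfl⟩
        obtain ⟨m', hm'⟩ : ∃ m' : ℕ, m' = ⌊(0.9 * t) ^ (γ / 2)⌋₊ := ⟨_, rfl⟩
        have ht1000 : 1000 ≤ t := by linarith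
        set r := t ^ (γ / 2) with hr
        have hrsq : r ^ 2 = t ^ γ := by
          rw [hr, ← Real.rpow_natCast, ← Real.rpow_mul ht0.le]; congr 1; push_cast; ring
        have hr0 : 0 < r := by positivity
        have ht16 := h16 t hlA
        have hr4 : 4 ≤ r := by
          by_contra hcon
          push Not at hcon
          nlinarith
        have hsqrt : t ^ γ ≤ Real.sqrt t := by
          rw [Real.sqrt_eq_rpow]
          exact Real.rpow_le_rpow_of_exponent_le (by linarith) hγ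
        have hsq31 : Real.sqrt t ≤ t / 31 := by
          rw [Real.sqrt_le_left (by positivity)]
          nlinarith
        have hk1 : (k : ℝ) ≤ t ^ γ := by rw [hk]; exact Nat.floor_le (by positivity)
        have hk2 : t ^ γ - 1 ≤ k := by rw [hk]; linarith [Nat.lt_floor_add_one (t ^ γ)]
        have hk15 : (15 : ℝ) ≤ k := by linarith
        have hk1N : 1 ≤ k := by
          have : (1 : ℝ) ≤ k := by linarith
          exact_mod_cast this
        have hm'2 : (m' : ℝ) ≤ r := by
          rw [hm']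
          refine (Nat.floor_le (by positivity)).trans ?_
          exact Real.rpow_le_rpow (by positivity) (by linarith) (by positivity)
        have hm'k : m' ≤ k := by
          have : (m' : ℝ) ≤ k := by nlinarith
          exact_mod_cast this
        -- the room between `t` and `l`
        have hroom : l + 1.43 * t ^ γ + 0.7 ≤ t := by
          rcases le_or_gt t (4 * l) with h4 | h4
          · have e1 : t ^ γ ≤ 2 * l ^ γ := by
              calc t ^ γ ≤ (4 * l) ^ γ := Real.rpow_le_rpow ht0.le h4 hγ0.le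
                _ = 4 ^ γ * l ^ γ := Real.mul_rpow (by norm_num) hl0.le
                _ ≤ 2 * l ^ γ := by
                    apply mul_le_mul_of_nonneg_right _ (by positivity)
                    calc (4 : ℝ) ^ γ ≤ 4 ^ (1 / 2 : ℝ) :=
                          Real.rpow_le_rpow_of_exponent_le (by norm_num) hγ
                      _ = 2 := by
                          rw [← Real.sqrt_eq_rpow, show (4 : ℝ) = 2 ^ 2 by norm_num]
                          exact Real.sqrt_sq (by norm_num)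
            have e2 := h16 l le_rfl
            linarith
          · linarith
        have hpath : (2 : ℝ) ^ (41 * k / 20) * (2 * z) ≤ A := by
          have e1 : (2 : ℝ) ^ (41 * k / 20) = Real.exp (((41 * k / 20 : ℕ) : ℝ) * Real.log 2) := by
            rw [Real.exp_nat_mul, Real.exp_log (by norm_num)]
          have e2 : 2 * z = Real.exp (Real.log 2 + l) := by
            rw [Real.exp_add, Real.exp_log (by norm_num), hexpz]
          rw [e1, e2, ← hexpA, ← Real.exp_add]
          apply Real.exp_le_exp.2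
          have e3 : 20 * (41 * k / 20) ≤ 41 * k := Nat.mul_div_le _ _
          have e4 : (20 : ℝ) * ((41 * k / 20 : ℕ) : ℝ) ≤ 41 * k := by exact_mod_cast e3
          have e5 : ((41 * k / 20 : ℕ) : ℝ) * Real.log 2 ≤ (41 / 20 * t ^ γ) * 0.6931471808 :=
            mul_le_mul (by linarith) hln2b.le (by linarith) (by positivity)
          have e6 : 0 < t ^ γ := by positivity
          nlinarith
        have hE := herr A hA ht1000 hr4 k m m' hm hk hm'
        rw [← htdef] at hE
        have ht1l : l ≤ t - 1 := by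
          have : 0 < t ^ γ := by positivity
          linarith
        have hη0 : 0 ≤ η := by rw [hη]; positivity
        have hρ : 0 ≤ 1 / l ^ B + C * (2 * (1 / l ^ B) - 1 / (t - 1) ^ B) + η := by
          have e1 := hmono (t - 1) ht1l
          have e2 : 0 < 1 / l ^ B := by positivity
          have e3 : 0 ≤ C * (2 * (1 / l ^ B) - 1 / (t - 1) ^ B) := mul_nonneg hC.le (by linarith)
          linarith
        have hst := stageC hd hd3 (Z := 2 * z) (by linarith) hfwd hA hk1N hm'k (m := m) hpath hρ (by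
          intro T hT1 hT2
          have hn := next_scale2 hA hT1 hT2
          rw [← htdef] at hn
          have hA'pos : 0 < A * 3 ^ k / 2 ^ T := by positivity
          have hge : l ≤ Real.log (A * 3 ^ k / 2 ^ T) := by
            have : 0 < t ^ γ := by positivity
            linarith [hn.1]
          have hih := ih (A * 3 ^ k / 2 ^ T) hA'pos hge (by
              push_cast at hAn
              linarith [hn.2]) m' (by
              rw [hm']
              refine (Nat.floor_le (by positivity)).trans ?_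
              apply Real.rpow_le_rpow (by positivity) _ (by positivity)
              linarith [hn.1])
          intro u v hu hv
          refine (hih u v hu hv).trans ?_
          apply mul_le_mul_of_nonneg_right _ (by positivity)
          apply add_le_add_left
          apply add_le_add_right
          apply mul_le_mul_of_nonneg_left _ hC.le
          have : 1 / (t - 1) ^ B ≤ 1 / Real.log (A * 3 ^ k / 2 ^ T) ^ B :=
            one_div_le_one_div_of_le (pow_pos (by linarith) B)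
              (pow_le_pow_left₀ (by linarith) (by linarith [hn.2]) B)
          linarith)
        intro u v hu hv
        refine (hst u v hu hv).trans ?_
        apply mul_le_mul_of_nonneg_right _ (by positivity)
        have e1 := pow_step B hB (t := t) (by linarith)
        have e2 := mul_le_mul_of_nonneg_left e1 hC.le
        have e3 : C / t ^ (B + 1) = C * (1 / t ^ (B + 1)) := by ring
        rw [e3] at hE
        rw [mul_sub, mul_sub]
        linarith
  intro A hAz m hm
  rw [← hη]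
  have hA : 0 < A := by linarith
  rcases le_or_gt l (Real.log A) with hc | hc
  · obtain ⟨n, hn⟩ := exists_nat_ge (Real.log A - l)
    have h1 := main n A hA hc (by linarith) m hm
    intro u v hu hv
    refine (h1 u v hu hv).trans ?_
    apply mul_le_mul_of_nonneg_right _ (by positivity)
    have e1 : 0 < 1 / (Real.log A) ^ B := by
      have : 0 < Real.log A := by linarith
      positivity
    have e2 : (1 + 2 * C) / l ^ B = 1 / l ^ B + C * (2 * (1 / l ^ B)) := by ring
    rw [e2]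
    have := mul_nonneg hC.le e1.le
    rw [mul_sub]
    linarith
  · have h1 := hbase z hz hll A₀ δ hδ hA₀ A hAz (by
      have : 0 < l ^ γ := by positivity
      linarith) m hm
    intro u v hu hv
    refine (h1 u v hu hv).trans ?_
    apply mul_le_mul_of_nonneg_right _ (by positivity)
    have e3 : 1 / l ^ B ≤ (1 + 2 * C) / l ^ B := by
      apply div_le_div_of_nonneg_right _ hplB.le
      linarith
    linarith

end Run7.h702.AT
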