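import Pool.Agent.Run7.h702.AT.H

/-! The Borel-Cantelli lemma for the trajectories of the maps `3 x + d`. -/

set_option autoImplicit false

namespace Run7.h702.AT

open Finset
open Pool.Agent.H320R2.PD Pool.Agent.H499R2.ND
open Pool.Agent.H499R2.CO (Tz)
open Pool.Agent.R344.SP Pool.Agent.R344.TH

theorem rpow_tele {s x h : ℝ} (hs0 : 0 < s) (hs1 : s ≤ 1) (hx : 0 < x) (hh : 0 ≤ h) :
    s * h / (x + h) ^ (1 + s) ≤ 1 / x ^ s - 1 / (x + h) ^ s := by
  have hxh : 0 < x + h := by linarith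
  have h1 : x ^ s ≤ (x + h) ^ s * (1 - s * (h / (x + h))) := by
    have e1 : x = (x + h) * (1 + -(h / (x + h))) := by field_simp; ring
    have h2 : h / (x + h) ≤ 1 := by rw [div_le_one hxh]; linarith
    have h3 : (1 + -(h / (x + h))) ^ s ≤ 1 + s * -(h / (x + h)) :=
      rpow_one_add_le_one_add_mul_self (by linarith) hs0.le hs1
    calc x ^ s = ((x + h) * (1 + -(h / (x + h)))) ^ s := by rw [← e1]
      _ = (x + h) ^ s * (1 + -(h / (x + h))) ^ s := Real.mul_rpow hxh.le (by linarith)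
      _ ≤ (x + h) ^ s * (1 - s * (h / (x + h))) := by
          apply mul_le_mul_of_nonneg_left _ (by positivity)
          linarith
  have hxs : 0 < x ^ s := by positivity
  have hxhs : 0 < (x + h) ^ s := by positivity
  have h2 : 1 / x ^ s - 1 / (x + h) ^ s = ((x + h) ^ s - x ^ s) / (x ^ s * (x + h) ^ s) := by
    field_simp
  have h3 : (x + h) ^ s * (s * (h / (x + h))) ≤ (x + h) ^ s - x ^ s := by
    have : (x + h) ^ s * (1 - s * (h / (x + h))) = (x + h) ^ s - (x + h) ^ s * (s * (h / (x + h))) := by ring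
    linarith
  have h4 : x ^ s ≤ (x + h) ^ s := Real.rpow_le_rpow hx.le (by linarith) hs0.le
  rw [h2]
  calc s * h / (x + h) ^ (1 + s) = (x + h) ^ s * (s * (h / (x + h))) / ((x + h) ^ s * (x + h) ^ s) := by
        rw [Real.rpow_add hxh, Real.rpow_one]
        field_simp
    _ ≤ (x + h) ^ s * (s * (h / (x + h))) / (x ^ s * (x + h) ^ s) := by
        apply div_le_div_of_nonneg_left (by positivity) (by positivity)
        exact mul_le_mul_of_nonneg_right h4 hxhs.le
    _ ≤ _ := div_le_div_of_nonneg_right h3 (by positivity)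

theorem rpow_sum {s : ℝ} (hs0 : 0 < s) (hs1 : s ≤ 1) {a : ℝ} (ha : 1 ≤ a) (I : ℕ) :
    ∑ i ∈ range I, 1 / (a + i * Real.log 2) ^ (1 + s) ≤ (1 + 2 / s) / a ^ s := by
  have ha0 : 0 < a := by linarith
  have hl2 := Real.log_two_gt_d9
  have key : ∀ I : ℕ, ∑ i ∈ range (I + 1), 1 / (a + i * Real.log 2) ^ (1 + s) ≤
      1 / a ^ s + (2 / s) * (1 / a ^ s - 1 / (a + I * Real.log 2) ^ s) := by
    intro I
    induction I with
    | zero =>
      rw [sum_range_one, Nat.cast_zero, zero_mul, add_zero, sub_self, mul_zero, add_zero]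
      apply one_div_le_one_div_of_le (by positivity)
      exact Real.rpow_le_rpow_of_exponent_le ha (by linarith)
    | succ I ih =>
      rw [sum_range_succ]
      have h1 := rpow_tele (x := a + I * Real.log 2) (h := Real.log 2) hs0 hs1 (by positivity) (by linarith)
      have e : a + (I : ℝ) * Real.log 2 + Real.log 2 = a + ((I + 1 : ℕ) : ℝ) * Real.log 2 := by push_cast; ring
      rw [e] at h1
      have h2 : 0 < (a + ((I + 1 : ℕ) : ℝ) * Real.log 2) ^ (1 + s) := by positivity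
      have h3 : 1 / (a + ((I + 1 : ℕ) : ℝ) * Real.log 2) ^ (1 + s) ≤
          (2 / s) * (s * Real.log 2 / (a + ((I + 1 : ℕ) : ℝ) * Real.log 2) ^ (1 + s)) := by
        rw [← mul_div_assoc]
        apply div_le_div_of_nonneg_right _ h2.le
        have : 2 / s * (s * Real.log 2) = 2 * Real.log 2 := by field_simp
        rw [this]
        linarith
      have h4 := mul_le_mul_of_nonneg_left h1 (by positivity : 0 ≤ 2 / s)
      have h5 : (2 / s) * (1 / a ^ s - 1 / (a + ((I + 1 : ℕ) : ℝ) * Real.log 2) ^ s) =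
          (2 / s) * (1 / a ^ s - 1 / (a + (I : ℝ) * Real.log 2) ^ s) +
          (2 / s) * (1 / (a + (I : ℝ) * Real.log 2) ^ s - 1 / (a + ((I + 1 : ℕ) : ℝ) * Real.log 2) ^ s) := by ring
      rw [h5]
      linarith
  have h1 : ∑ i ∈ range I, 1 / (a + i * Real.log 2) ^ (1 + s) ≤
      ∑ i ∈ range (I + 1), 1 / (a + i * Real.log 2) ^ (1 + s) := by
    rw [sum_range_succ]
    have : 0 ≤ 1 / (a + (I : ℝ) * Real.log 2) ^ (1 + s) := by positivity
    linarith
  refine h1.trans ((key I).trans ?_)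
  have h2 : 0 ≤ 1 / (a + (I : ℝ) * Real.log 2) ^ s := by positivity
  have h3 : (2 / s) * (1 / a ^ s - 1 / (a + (I : ℝ) * Real.log 2) ^ s) ≤ (2 / s) * (1 / a ^ s) := by
    apply mul_le_mul_of_nonneg_left _ (by positivity)
    linarith
  have h4 : (1 + 2 / s) / a ^ s = 1 / a ^ s + (2 / s) * (1 / a ^ s) := by ring
  linarith

open scoped Classical in
/-- **The Borel-Cantelli lemma.** The number of the integers whose trajectory meets a set of density at most
`D / (log X) ^ (1 + ε)` in the residue classes modulo the powers of `3`, before it goes below `Y`. -/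
theorem HY_countD {d : ℤ} (hd : Odd d) (hd3 : IsCoprime d 3) {ε : ℝ} (hε0 : 0 < ε) (hε : ε ≤ 1) :
    ∃ l₀ K : ℝ, 0 < l₀ ∧ 0 < K ∧ ∀ Y : ℝ, 0 < Y → l₀ ≤ Real.log Y → ∀ (A₀ : Set ℤ) (D : ℝ), 0 ≤ D →
      (∀ z : ℝ, Y ≤ z → RD A₀ z (ε / 2) (D / (Real.log z) ^ (1 + ε))) →
      ∀ N : ℕ, (((Icc (1 : ℤ) N).filter (fun n => n ∈ HY d A₀ Y)).card : ℝ)
        ≤ K * (1 + D) * N / (Real.log Y) ^ (ε / 2) := by
  obtain ⟨l₀, K, hl₀, hK, hPB⟩ := SZ_PD hd hd3 (γ := ε / 2) (by positivity) (by linarith) 3 (by omega)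
  obtain ⟨S, hS⟩ : ∃ S : ℝ, S = 1 + 2 / (ε / 2) := ⟨_, rfl⟩
  have hS0 : 0 < S := by rw [hS]; positivity
  refine ⟨max l₀ 1, 2 * (S * (K + 2000)) + 2, by positivity, by positivity, ?_⟩
  intro Y hY hl A₀ D hD hA₀ N
  set l := Real.log Y with hldef
  have hll : l₀ ≤ l := (le_max_left _ _).trans hl
  have hl1 : 1 ≤ l := (le_max_right _ _).trans hl
  have hl0 : 0 < l := by linarith
  rcases Nat.eq_zero_or_pos N with rfl | hN
  · simp
  have hNR : (0 : ℝ) < N := by exact_mod_cast hN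
  obtain ⟨P, hP⟩ : ∃ P : ℝ, P = (K + 2000) * (1 + D) := ⟨_, rfl⟩
  have hP0 : 0 < P := by rw [hP]; positivity
  have hlε : 0 < l ^ (ε / 2) := by positivity
  -- odd numbers
  have hoddc : ∀ X : ℝ, 0 < X → (((Icc (1 : ℤ) ⌊X⌋).filter (fun x => Odd x ∧ x ∈ HY d A₀ Y)).card : ℝ)
      ≤ S * P / l ^ (ε / 2) * X := by
    intro X hX
    obtain ⟨I, hI⟩ : ∃ I : ℕ, X / Y < 2 ^ I := pow_unbounded_of_one_lt _ (by norm_num)
    rw [div_lt_iff₀ hY] at hI
    have hsub : (Icc (1 : ℤ) ⌊X⌋).filter (fun x => Odd x ∧ x ∈ HY d A₀ Y)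
        ⊆ (range I).biUnion (fun i => (Icc (1 : ℤ) ⌊X⌋).filter
            (fun x => Odd x ∧ x ∈ SZ d A₀ (Y * 2 ^ i))) := by
      intro x hx
      rw [mem_filter] at hx
      obtain ⟨hx1, hx2, hx3⟩ := hx
      obtain ⟨i, hi⟩ := HY_sub hY hx3
      rw [mem_biUnion]
      refine ⟨i, ?_, mem_filter.2 ⟨hx1, hx2, hi⟩⟩
      rw [mem_range]
      by_contra hcon
      push Not at hcon
      have h1 := SZ_ge hi
      rw [Finset.mem_Icc, Int.le_floor] at hx1
      have h2 : (2 : ℝ) ^ I ≤ 2 ^ i := pow_le_pow_right₀ (by norm_num) hcon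
      have h3 : 2 ^ I * Y ≤ Y * 2 ^ i := by
        rw [mul_comm]; exact mul_le_mul_of_nonneg_left h2 hY.le
      linarith [hx1.2]
    have h1 : (((Icc (1 : ℤ) ⌊X⌋).filter (fun x => Odd x ∧ x ∈ HY d A₀ Y)).card : ℝ)
        ≤ ∑ i ∈ range I, (((Icc (1 : ℤ) ⌊X⌋).filter
            (fun x => Odd x ∧ x ∈ SZ d A₀ (Y * 2 ^ i))).card : ℝ) := by
      have := (card_le_card hsub).trans card_biUnion_le
      exact_mod_cast this
    refine h1.trans ?_
    have h2 : ∀ i ∈ range I, (((Icc (1 : ℤ) ⌊X⌋).filter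
            (fun x => Odd x ∧ x ∈ SZ d A₀ (Y * 2 ^ i))).card : ℝ)
        ≤ P * X * (1 / (l + i * Real.log 2) ^ (1 + ε / 2)) := by
      intro i _
      have hYi : 0 < Y * 2 ^ i := by positivity
      have hlog : Real.log (Y * 2 ^ i) = l + i * Real.log 2 := by
        rw [Real.log_mul hY.ne' (by positivity), Real.log_pow]
      have hlog2 : 0 ≤ (i : ℝ) * Real.log 2 := by positivity
      have hYY : Y ≤ Y * 2 ^ i := le_mul_of_one_le_right hY.le (one_le_pow₀ (by norm_num))
      obtain ⟨t, ht⟩ : ∃ t, t = l + i * Real.log 2 := ⟨_, rfl⟩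
      have ht1 : 1 ≤ t := by rw [ht]; linarith
      have ht0 : 0 < t := by linarith
      have hδ0 : 0 ≤ D / t ^ (1 + ε) := by positivity
      have hRD := hA₀ (Y * 2 ^ i) hYY
      rw [hlog, ← ht] at hRD
      have h3 := odd_countC (S := SZ d A₀ (Y * 2 ^ i)) (z := Y * 2 ^ i)
        (ρ := K / t ^ 3 + 2000 * t ^ (ε / 2) * (D / t ^ (1 + ε))) (X := X)
        (by positivity) (fun x hx => SZ_ge hx)
        (fun A hA => by
          have h4 := hPB (Y * 2 ^ i) hYi (by rw [hlog]; linarith) A₀ (D / t ^ (1 + ε)) hδ0 hRD A hA 0 (by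
            rw [Nat.cast_zero]
            apply Real.rpow_nonneg
            apply Real.log_nonneg
            have h2Y : 2 ≤ Y := by
              have := Real.add_one_le_exp l
              rw [Real.exp_log hY] at this
              linarith
            have : (1 : ℝ) ≤ 2 ^ i := one_le_pow₀ (by norm_num)
            nlinarith)
          rw [hlog, ← ht] at h4
          exact h4) hX
      refine h3.trans ?_
      rw [← ht]
      have e1 : t ^ (ε / 2) * (D / t ^ (1 + ε)) = D * (1 / t ^ (1 + ε / 2)) := by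
        have : t ^ (1 + ε) = t ^ (ε / 2) * t ^ (1 + ε / 2) := by
          rw [← Real.rpow_add ht0]; congr 1; ring
        rw [this]
        field_simp
      have e2 : K / t ^ 3 ≤ K * (1 / t ^ (1 + ε / 2)) := by
        rw [div_eq_mul_one_div]
        apply mul_le_mul_of_nonneg_left _ hK.le
        apply one_div_le_one_div_of_le (by positivity)
        rw [← Real.rpow_natCast t 3]
        apply Real.rpow_le_rpow_of_exponent_le ht1
        push_cast
        linarith
      have e3 : K / t ^ 3 + 2000 * t ^ (ε / 2) * (D / t ^ (1 + ε)) ≤ P * (1 / t ^ (1 + ε / 2)) := by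
        have e4 : 0 ≤ 1 / t ^ (1 + ε / 2) := by positivity
        have e5 : 2000 * t ^ (ε / 2) * (D / t ^ (1 + ε)) = 2000 * (t ^ (ε / 2) * (D / t ^ (1 + ε))) := by ring
        rw [e5, e1, hP]
        have e6 : (K + 2000) * (1 + D) * (1 / t ^ (1 + ε / 2)) =
            K * (1 / t ^ (1 + ε / 2)) + 2000 * (D * (1 / t ^ (1 + ε / 2))) +
              (2000 + K * D) * (1 / t ^ (1 + ε / 2)) := by ring
        rw [e6]
        have e7 : 0 ≤ (2000 + K * D) * (1 / t ^ (1 + ε / 2)) := by positivity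
        linarith
      calc (K / t ^ 3 + 2000 * t ^ (ε / 2) * (D / t ^ (1 + ε))) * X ≤ (P * (1 / t ^ (1 + ε / 2))) * X :=
            mul_le_mul_of_nonneg_right e3 hX.le
        _ = _ := by ring
    refine (sum_le_sum h2).trans ?_
    rw [← mul_sum]
    have h4 := rpow_sum (s := ε / 2) (by positivity) (by linarith) hl1 I
    rw [← hS] at h4
    calc P * X * ∑ i ∈ range I, 1 / (l + ↑i * Real.log 2) ^ (1 + ε / 2) ≤ P * X * (S / l ^ (ε / 2)) :=
          mul_le_mul_of_nonneg_left h4 (by positivity)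
      _ = _ := by ring
  -- all numbers
  obtain ⟨E, hE⟩ : ∃ E : ℕ, (N : ℝ) < 2 ^ E := pow_unbounded_of_one_lt _ (by norm_num)
  set F₁ : ℕ → Finset ℤ := fun e => ((Icc (1 : ℤ) ⌊(N : ℝ) * (1 / 2) ^ e⌋).filter
    (fun x => Odd x ∧ x ∈ HY d A₀ Y)).image (fun x => 2 ^ e * x) with hF₁
  set F₂ : ℕ → Finset ℤ := fun e => (fA A₀ Y ((N : ℝ) * (1 / 2) ^ e)).image (fun x => 2 ^ e * x) with hF₂
  have hsub : (Icc (1 : ℤ) N).filter (fun n => n ∈ HY d A₀ Y)
      ⊆ (range E).biUnion F₁ ∪ (range E).biUnion F₂ := by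
    intro n hn
    rw [mem_filter, Finset.mem_Icc] at hn
    obtain ⟨⟨hn1, hn2⟩, k, hk1, hk2⟩ := hn
    obtain ⟨e, M, hMo, hM0, hnM⟩ := odd_part (by omega : 0 < n)
    have hnNR : (n : ℝ) ≤ N := by exact_mod_cast hn2
    have hnMR : (n : ℝ) = 2 ^ e * M := by exact_mod_cast hnM
    have hM1 : (1 : ℝ) ≤ M := by
      have : (1 : ℤ) ≤ M := by omega
      exact_mod_cast this
    have hbnd : ∀ i ≤ e, i < E := by
      intro i hi
      by_contra hcon
      push Not at hcon
      have h1 : (2 : ℝ) ^ E ≤ 2 ^ e := pow_le_pow_right₀ (by norm_num) (by omega)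
      have h2 : (2 : ℝ) ^ e ≤ n := by rw [hnMR]; exact le_mul_of_one_le_right (by positivity) hM1
      linarith
    rw [mem_union, mem_biUnion, mem_biUnion]
    rcases le_or_gt e k with hek | hek
    · left
      refine ⟨e, mem_range.2 (hbnd e le_rfl), ?_⟩
      rw [hF₁]
      simp only [mem_image, mem_filter, Finset.mem_Icc, Int.le_floor]
      have hTe : (Tz d)^[e] n = M := by
        rw [hnM, iter_pow_two M e e le_rfl]; simp
      have hsh : ∀ j, (Tz d)^[j] M = (Tz d)^[j + e] n := by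
        intro j
        rw [Function.iterate_add_apply, hTe]
      refine ⟨M, ⟨⟨by omega, ?_⟩, hMo, k - e, ?_, ?_⟩, hnM.symm⟩
      · rw [one_div, inv_pow, ← div_eq_mul_inv, le_div_iff₀ (by positivity)]
        linarith
      · rw [hsh, Nat.sub_add_cancel hek]; exact hk1
      · intro j hj
        rw [hsh]; exact hk2 _ (by omega)
    · right
      refine ⟨k, mem_range.2 (hbnd k hek.le), ?_⟩
      rw [hF₂]
      simp only [mem_image]
      have hTk : (Tz d)^[k] n = 2 ^ (e - k) * M := by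
        rw [hnM, iter_pow_two M k e hek.le]
      refine ⟨2 ^ (e - k) * M, ?_, ?_⟩
      · rw [mem_fA, ← hTk]
        refine ⟨⟨hk2 k le_rfl, ?_⟩, hk1⟩
        rw [hTk, one_div, inv_pow, ← div_eq_mul_inv, le_div_iff₀ (by positivity)]
        push_cast
        calc (2 : ℝ) ^ (e - k) * M * 2 ^ k = (2 ^ (e - k) * 2 ^ k) * M := by ring
          _ = 2 ^ e * M := by rw [← pow_add, Nat.sub_add_cancel hek.le]
          _ ≤ N := by rw [← hnMR]; exact hnNR
      · rw [← mul_assoc, ← pow_add, Nat.add_sub_cancel' hek.le]; exact hnM.symm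
  have hc1 : (((Icc (1 : ℤ) N).filter (fun n => n ∈ HY d A₀ Y)).card : ℝ)
      ≤ ∑ e ∈ range E, ((F₁ e).card : ℝ) + ∑ e ∈ range E, ((F₂ e).card : ℝ) := by
    have h1 := (card_le_card hsub).trans (card_union_le _ _)
    have h2 : ((range E).biUnion F₁).card ≤ ∑ e ∈ range E, (F₁ e).card := card_biUnion_le
    have h3 : ((range E).biUnion F₂).card ≤ ∑ e ∈ range E, (F₂ e).card := card_biUnion_le
    have h4 := h1.trans (add_le_add h2 h3)
    exact_mod_cast h4
  have hF₁c : ∀ e ∈ range E, ((F₁ e).card : ℝ) ≤ S * P / l ^ (ε / 2) * N * (1 / 2) ^ e := by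
    intro e _
    have h1 : ((F₁ e).card : ℝ) ≤ (((Icc (1 : ℤ) ⌊(N : ℝ) * (1 / 2) ^ e⌋).filter
      (fun x => Odd x ∧ x ∈ HY d A₀ Y)).card : ℝ) := by exact_mod_cast card_image_le
    refine h1.trans ((hoddc _ (by positivity)).trans (le_of_eq ?_))
    ring
  have hF₂c : ∀ e ∈ range E, ((F₂ e).card : ℝ) ≤ D / l ^ (ε / 2) * N * (1 / 2) ^ e := by
    intro e _
    have h1 : ((F₂ e).card : ℝ) ≤ ((fA A₀ Y ((N : ℝ) * (1 / 2) ^ e)).card : ℝ) := by
      exact_mod_cast card_image_le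
    refine h1.trans ?_
    rcases le_or_gt Y ((N : ℝ) * (1 / 2) ^ e) with hc | hc
    · have h2 := hA₀ Y le_rfl _ hc 0 (by
        have : l ≤ Real.log ((N : ℝ) * (1 / 2) ^ e) := Real.log_le_log hY hc
        rw [Nat.cast_zero]
        have : 0 ≤ Real.log ((N : ℝ) * (1 / 2) ^ e) := by linarith
        positivity) 0 (Or.inl rfl)
      have h3 : fC A₀ Y ((N : ℝ) * (1 / 2) ^ e) 0 0 = fA A₀ Y ((N : ℝ) * (1 / 2) ^ e) := by
        ext x
        rw [mem_fC, mem_fA]
        simp
      rw [h3, pow_zero, div_one, ← hldef] at h2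
      refine h2.trans ?_
      have h4 : l ^ (ε / 2) ≤ l ^ (1 + ε) := Real.rpow_le_rpow_of_exponent_le hl1 (by linarith)
      have h5 : 0 < (N : ℝ) * (1 / 2) ^ e := by positivity
      calc D / l ^ (1 + ε) * ((N : ℝ) * (1 / 2) ^ e)
          ≤ D / l ^ (ε / 2) * ((N : ℝ) * (1 / 2) ^ e) := by
            apply mul_le_mul_of_nonneg_right _ h5.le
            exact div_le_div_of_nonneg_left hD hlε h4
        _ = _ := by ring
    · have : fA A₀ Y ((N : ℝ) * (1 / 2) ^ e) = ∅ := by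
        rw [Finset.eq_empty_iff_forall_notMem]
        intro x hx
        rw [mem_fA] at hx
        linarith [hx.1.1, hx.1.2]
      rw [this, card_empty, Nat.cast_zero]
      positivity
  have hgeo := geom_half E
  have hs1 : ∑ e ∈ range E, ((F₁ e).card : ℝ) ≤ 2 * (S * P) * N / l ^ (ε / 2) := by
    refine (sum_le_sum hF₁c).trans ?_
    rw [← mul_sum]
    calc S * P / l ^ (ε / 2) * N * ∑ i ∈ range E, (1 / 2 : ℝ) ^ i ≤ S * P / l ^ (ε / 2) * N * 2 :=
          mul_le_mul_of_nonneg_left hgeo (by positivity)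
      _ = _ := by ring
  have hs2 : ∑ e ∈ range E, ((F₂ e).card : ℝ) ≤ 2 * D * N / l ^ (ε / 2) := by
    refine (sum_le_sum hF₂c).trans ?_
    rw [← mul_sum]
    calc D / l ^ (ε / 2) * N * ∑ i ∈ range E, (1 / 2 : ℝ) ^ i
        ≤ D / l ^ (ε / 2) * N * 2 := mul_le_mul_of_nonneg_left hgeo (by positivity)
      _ = _ := by ring
  calc (((Icc (1 : ℤ) N).filter (fun n => n ∈ HY d A₀ Y)).card : ℝ)
      ≤ 2 * (S * P) * N / l ^ (ε / 2) + 2 * D * N / l ^ (ε / 2) := by linarith
    _ = (2 * (S * P) + 2 * D) * N / l ^ (ε / 2) := by ring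
    _ ≤ _ := by
        apply div_le_div_of_nonneg_right _ hlε.le
        apply mul_le_mul_of_nonneg_right _ hNR.le
        rw [hP]
        nlinarith

end Run7.h702.AT
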